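import Pool.Agent.AlefS.Rows

/-!
# Grid squares and tiles
-/

set_option autoImplicit false

namespace AlefS

open TilDich

/-- the coordinates of the inverse of an axis-preserving isometry -/
theorem signed (L : Eu 2 ≃ₗᵢ[ℝ] Eu 2) (h : ∃ i, L (EuclideanSpace.single 0 1) i = 0)
    (u : Eu 2) : (|L.symm u 0| = |u 0| ∧ |L.symm u 1| = |u 1|) ∨
      (|L.symm u 0| = |u 1| ∧ |L.symm u 1| = |u 0|) := by
  obtain ⟨p, hp⟩ : ∃ p, p = L (EuclideanSpace.single (0 : Fin 2) 1) := ⟨_, rfl⟩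
  obtain ⟨q, hq⟩ : ∃ q, q = L (EuclideanSpace.single (1 : Fin 2) 1) := ⟨_, rfl⟩
  have horth : p 0 * q 0 + p 1 * q 1 = 0 := by
    rw [← inner_two, hp, hq, L.inner_map_map, EuclideanSpace.inner_single_left]
    simp
  have hqn : q 0 * q 0 + q 1 * q 1 = 1 := by
    rw [← inner_two, hq, L.inner_map_map, EuclideanSpace.inner_single_left]
    simp
  have hpn : p 0 * p 0 + p 1 * p 1 = 1 := by
    rw [← inner_two, hp, L.inner_map_map, EuclideanSpace.inner_single_left]
    simp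
  have h0 : L.symm u 0 = u 0 * p 0 + u 1 * p 1 := by
    rw [← inner_two, hp]
    have e1 : inner ℝ u (L (EuclideanSpace.single (0 : Fin 2) 1)) =
        inner ℝ (L.symm u) (EuclideanSpace.single (0 : Fin 2) (1 : ℝ)) := by
      rw [← L.inner_map_map (L.symm u), L.apply_symm_apply]
    rw [e1, EuclideanSpace.inner_single_right]
    simp
  have h1 : L.symm u 1 = u 0 * q 0 + u 1 * q 1 := by
    rw [← inner_two, hq]
    have e1 : inner ℝ u (L (EuclideanSpace.single (1 : Fin 2) 1)) =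
        inner ℝ (L.symm u) (EuclideanSpace.single (1 : Fin 2) (1 : ℝ)) := by
      rw [← L.inner_map_map (L.symm u), L.apply_symm_apply]
    rw [e1, EuclideanSpace.inner_single_right]
    simp
  have habs : ∀ s : ℝ, s * s = 1 → |s| = 1 := by
    intro s hs
    have : |s| * |s| = 1 := by rw [abs_mul_abs_self, hs]
    nlinarith [abs_nonneg s]
  obtain ⟨i, hi⟩ := h
  rw [← hp] at hi
  rw [h0, h1]
  fin_cases i
  · have hi' : p 0 = 0 := hi
    right
    rw [hi'] at hpn horth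
    have hp1 : |p 1| = 1 := habs _ (by linarith)
    have hp1' : p 1 ≠ 0 := by
      intro h
      rw [h, abs_zero] at hp1
      norm_num at hp1
    have hq1 : q 1 = 0 := by
      have : p 1 * q 1 = 0 := by linarith
      rcases mul_eq_zero.mp this with h | h
      · exact absurd h hp1'
      · exact h
    rw [hq1] at hqn
    have hq0 : |q 0| = 1 := habs _ (by linarith)
    rw [hi', hq1]
    constructor
    · rw [mul_zero, zero_add, abs_mul, hp1, mul_one]
    · rw [mul_zero, add_zero, abs_mul, hq0, mul_one]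
  · have hi' : p 1 = 0 := hi
    left
    rw [hi'] at hpn horth
    have hp0 : |p 0| = 1 := habs _ (by linarith)
    have hp0' : p 0 ≠ 0 := by
      intro h
      rw [h, abs_zero] at hp0
      norm_num at hp0
    have hq0 : q 0 = 0 := by
      have : p 0 * q 0 = 0 := by linarith
      rcases mul_eq_zero.mp this with h | h
      · exact absurd h hp0'
      · exact h
    rw [hq0] at hqn
    have hq1 : |q 1| = 1 := habs _ (by linarith)
    rw [hi', hq0]
    constructor
    · rw [mul_zero, add_zero, abs_mul, hp0, mul_one]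
    · rw [mul_zero, zero_add, abs_mul, hq1, mul_one]

theorem body_usq : body cellF = usq 0 := by
  rw [← tile_usq, tile]
  simp

theorem usq_eq (v : Eu 2) : usq v = (fun x => x + v) '' body cellF := by
  rw [← tile_usq, tile]

theorem mem_usq0 (u : Eu 2) : v2 (1 / 2) (1 / 2) + u ∈ usq 0 ↔ |u 0| ≤ 1 / 2 ∧ |u 1| ≤ 1 / 2 := by
  have := mem_usq_c 0 u
  rwa [zero_add] at this

theorem cell_square : SquareSymmetric cellF := by
  intro L hL
  refine ⟨L (v2 (1 / 2) (1 / 2)) - v2 (1 / 2) (1 / 2), ?_⟩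
  rw [body_usq]
  ext y
  have e1 : y ∈ L '' usq 0 ↔ L.symm y ∈ usq 0 := by
    constructor
    · rintro ⟨x, hx, rfl⟩
      rwa [L.symm_apply_apply]
    · intro h
      exact ⟨_, h, L.apply_symm_apply y⟩
  have e2 : y ∈ (fun x => x + (L (v2 (1 / 2) (1 / 2)) - v2 (1 / 2) (1 / 2))) '' usq 0 ↔
      y - (L (v2 (1 / 2) (1 / 2)) - v2 (1 / 2) (1 / 2)) ∈ usq 0 := by
    constructor
    · rintro ⟨x, hx, rfl⟩
      rwa [add_sub_cancel_right]
    · intro h
      exact ⟨_, h, by simp⟩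
  obtain ⟨u, hu⟩ : ∃ u, u = y - L (v2 (1 / 2) (1 / 2)) := ⟨_, rfl⟩
  have e3 : L.symm y = v2 (1 / 2) (1 / 2) + L.symm u := by
    rw [hu, map_sub, L.symm_apply_apply]
    abel
  have e4 : y - (L (v2 (1 / 2) (1 / 2)) - v2 (1 / 2) (1 / 2)) = v2 (1 / 2) (1 / 2) + u := by
    rw [hu]
    abel
  rw [e1, e2, e3, e4, mem_usq0, mem_usq0]
  rcases signed L hL u with ⟨h1, h2⟩ | ⟨h1, h2⟩
  · rw [h1, h2]
  · rw [h1, h2]
    exact and_comm

/-- the grid squares tile the plane -/
theorem ho_grid : HO cellF {x : Eu 2 | ∃ z : ℤ × ℤ, x = gz z} := by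
  intro x
  refine ⟨gz (⌊x 0⌋, ⌊x 1⌋), ⟨⟨_, rfl⟩, ?_⟩, ?_⟩
  · rw [fl_cell (show (0 : Fin 2) ≠ 1 by decide), gz0, gz1]
    exact ⟨⟨Int.floor_le _, Int.lt_floor_add_one _⟩, Int.floor_le _, Int.lt_floor_add_one _⟩
  · rintro _ ⟨⟨z, rfl⟩, hz⟩
    rw [fl_cell (show (0 : Fin 2) ≠ 1 by decide), gz0, gz1] at hz
    have a0 : ⌊x 0⌋ = z.1 := Int.floor_eq_iff.2 hz.1
    have a1 : ⌊x 1⌋ = z.2 := Int.floor_eq_iff.2 hz.2
    rw [a0, a1]

theorem grid_isTr : IsTr cellF (tile cellF '' {x : Eu 2 | ∃ z : ℤ × ℤ, x = gz z}) :=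
  tr_of_ho ho_grid

theorem grid_mem (p : ℤ × ℤ) : sq p ∈ tile cellF '' {x : Eu 2 | ∃ z : ℤ × ℤ, x = gz z} :=
  ⟨gz p, ⟨p, rfl⟩, tile_usq _⟩

theorem sq_disj {p q : ℤ × ℤ} (h : p ≠ q) : Disjoint (interior (sq p)) (interior (sq q)) :=
  grid_isTr.2.2 (grid_mem p) (grid_mem q) fun h' => h (sq_inj h')

theorem sq_int_nonempty (p : ℤ × ℤ) : (interior (sq p)).Nonempty := by
  refine ⟨gz p + v2 (1 / 2) (1 / 2), ?_⟩
  rw [sq_usq, ← tile_usq]
  refine mem_interior_tile (f := ![0, 0]) (by simp [cellF]) fun i => ?_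
  have e : (gz p + v2 (1 / 2) (1 / 2) : Eu 2) i - (gz p : Eu 2) i = 1 / 2 := by
    rw [add0, add_sub_cancel_left]
    fin_cases i <;> rfl
  have e' : (((![0, 0] : Fin 2 → ℤ) i : ℤ) : ℝ) = 0 := by
    fin_cases i <;> simp
  rw [e, e']
  constructor <;> norm_num

theorem sq_not_mem {p q : ℤ × ℤ} (h : p ≠ q) {x : Eu 2} (hx : x ∈ interior (sq p)) :
    x ∉ sq q := by
  intro hq
  have h1 := mem_frontier_of_mem _ grid_isTr.isMono (grid_mem p) (grid_mem q)
    (fun h' => h (sq_inj h')) (interior_subset hx) hq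
  exact h1.2 hx

/-- a grid square inside a tile is one of its fourteen squares -/
theorem sub_iff (q : Pl) (c : ℤ × ℤ) : sq c ⊆ TT q ↔ c - q.2 ∈ Fb q.1 := by
  constructor
  · intro h
    obtain ⟨x, hx⟩ := sq_int_nonempty c
    have h1 := h (interior_subset hx)
    rw [TT, Set.mem_iUnion₂] at h1
    obtain ⟨f, hf, hxf⟩ := h1
    by_contra hcon
    refine sq_not_mem ?_ hx hxf
    intro h2
    apply hcon
    rw [h2]
    simpa using hf
  · intro h x hx
    rw [TT, Set.mem_iUnion₂]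
    refine ⟨c - q.2, h, ?_⟩
    have : q.2 + (c - q.2) = c := by abel
    rw [this]; exact hx

/-- sums of the coordinates of the fourteen cells -/
def sg (g : Fin 8) : ℤ × ℤ := gb g (-5, 13)

theorem sg_sum : ∀ k : Fin 8, (Fb k).toFinset.card = 14 ∧ ∑ f ∈ (Fb k).toFinset, f = sg k := by
  decide +kernel

theorem cells_sum (q : Pl) : ∑ c ∈ (Fb q.1).toFinset.image (fun f => q.2 + f), c =
    (14 * q.2.1 + (sg q.1).1, 14 * q.2.2 + (sg q.1).2) := by
  obtain ⟨k, z⟩ := q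
  rw [Finset.sum_image (fun a _ b _ h => add_left_cancel h), Finset.sum_add_distrib,
    Finset.sum_const]
  show (Fb k).toFinset.card • z + ∑ f ∈ (Fb k).toFinset, f = _
  rw [(sg_sum k).1, (sg_sum k).2]
  ext <;> simp

theorem sg_mod : ∀ k k' : Fin 8, ((sg k).1 - (sg k').1) % 14 = 0 →
    ((sg k).2 - (sg k').2) % 14 = 0 → k = k' := by decide +kernel

theorem TT_inj {q q' : Pl} (h : TT q = TT q') : q = q' := by
  have h1 : (Fb q.1).toFinset.image (fun f => q.2 + f) =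
      (Fb q'.1).toFinset.image (fun f => q'.2 + f) := by
    ext c
    have key : ∀ q : Pl, c ∈ (Fb q.1).toFinset.image (fun f => q.2 + f) ↔ sq c ⊆ TT q := by
      intro q
      rw [sub_iff, Finset.mem_image]
      constructor
      · rintro ⟨f, hf, rfl⟩
        rw [List.mem_toFinset] at hf
        simpa using hf
      · intro hc
        exact ⟨c - q.2, List.mem_toFinset.mpr hc, by abel⟩
    rw [key, key, h]
  have h2 := cells_sum q
  rw [h1, cells_sum q'] at h2
  obtain ⟨k, z1, z2⟩ := q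
  obtain ⟨k', w1, w2⟩ := q'
  obtain ⟨h3, h4⟩ := Prod.mk.inj h2
  dsimp only at h3 h4
  have hk : k = k' := sg_mod k k' (by omega) (by omega)
  subst hk
  have h5 : z1 = w1 := by omega
  have h6 : z2 = w2 := by omega
  rw [h5, h6]

theorem T0_eq : T0 = ⋃ f ∈ F0, sq f := by
  have h1 : Fb (0 : Fin 8) = F0 := by decide
  show (⋃ f ∈ Fb (0 : Fin 8), sq ((0, 0) + f)) = _
  rw [h1]
  refine Set.iUnion₂_congr fun f _ => ?_
  have : ((0, 0) : ℤ × ℤ) + f = f := zero_add f
  rw [this]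

end AlefS
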