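import Pool.Agent.AlefS.Defs

/-!
# No covering of a full row of cells by images of the tile which avoid the next row
-/

set_option autoImplicit false

namespace AlefS

/-- the coordinate transversal to the boundary -/
def co (d : Fin 4) (c : ℤ × ℤ) : ℤ :=
  match d with
  | 0 => c.2
  | 1 => -c.1
  | 2 => -c.2
  | 3 => c.1

/-- placements which cover `t` and avoid the row `co d = 1` -/
def cs (d : Fin 4) (t : ℤ × ℤ) : List Pl :=
  (List.finRange 8).flatMap fun g => ((Fb g).map fun f => (g, t - f)).filter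
    fun q => (Fb q.1).all fun f => decide (co d (q.2 + f) ≠ 1)

/-- disjointness of placements -/
def dis (q q' : Pl) : Bool := (Fb q.1).all fun f => decide (q.2 + f - q'.2 ∉ Fb q'.1)

/-- search for a covering of the cells of the list -/
def go (d : Fin 4) : List (ℤ × ℤ) → List Pl → Bool
  | [], _ => false
  | t :: ts, ps =>
    if ps.any (fun p => decide (t - p.2 ∈ Fb p.1)) then go d ts ps
    else (cs d t).all fun q => ps.any (fun p => !dis p q) || go d ts (q :: ps)

theorem go_sound (d : Fin 4) (Q : Set Pl)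
    (hD : ∀ q ∈ Q, ∀ q' ∈ Q, ∀ c : ℤ × ℤ, c - q.2 ∈ Fb q.1 → c - q'.2 ∈ Fb q'.1 → q = q')
    (hM : ∀ q ∈ Q, ∀ f ∈ Fb q.1, co d (q.2 + f) ≠ 1) :
    ∀ (ts : List (ℤ × ℤ)) (ps : List Pl), (∀ t ∈ ts, ∃ q ∈ Q, t - q.2 ∈ Fb q.1) →
      (∀ p ∈ ps, p ∈ Q) → go d ts ps = true → False := by
  intro ts
  induction ts with
  | nil =>
    intro ps _ _ h
    exact Bool.false_ne_true h
  | cons t ts ih =>
    intro ps hC hps h
    unfold go at h
    split_ifs at h with hc
    · exact ih ps (fun t ht => hC t (List.mem_cons_of_mem _ ht)) hps h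
    · obtain ⟨q, hq, hqt⟩ := hC t List.mem_cons_self
      rw [List.all_eq_true] at h
      have hm : q ∈ cs d t := by
        unfold cs
        rw [List.mem_flatMap]
        refine ⟨q.1, List.mem_finRange _, ?_⟩
        rw [List.mem_filter]
        refine ⟨List.mem_map.2 ⟨t - q.2, hqt, ?_⟩, ?_⟩
        · rw [sub_sub_cancel]
        · rw [List.all_eq_true]
          intro f hf
          exact decide_eq_true (hM q hq f hf)
      have h1 := h q hm
      rw [Bool.or_eq_true] at h1
      rcases h1 with h1 | h1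
      · rw [List.any_eq_true] at h1
        obtain ⟨p, hp, hpq⟩ := h1
        have h2 : dis p q = false := by
          simpa using hpq
        unfold dis at h2
        rw [List.all_eq_false] at h2
        obtain ⟨f, hf, hff⟩ := h2
        have h3 : p.2 + f - q.2 ∈ Fb q.1 := by
          simpa using hff
        have h4 : p = q := hD p (hps p hp) q hq (p.2 + f) (by rw [add_sub_cancel_left]; exact hf) h3
        apply hc
        rw [List.any_eq_true]
        exact ⟨p, hp, decide_eq_true (by rw [h4]; exact hqt)⟩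
      · refine ih (q :: ps) (fun t ht => hC t (List.mem_cons_of_mem _ ht)) ?_ h1
        intro p hp
        rcases List.mem_cons.1 hp with rfl | hp
        · exact hq
        · exact hps p hp

/-- the cells of the boundary row which are used -/
def tgt (d : Fin 4) : List (ℤ × ℤ) := [0, 2, 4, 6, 8].map fun x : ℤ => rt^[d.val] (x, 0)

theorem go_true : ∀ d : Fin 4, go d (tgt d) [] = true := by decide +kernel

/-- a family of disjoint placements cannot cover a full row and avoid the next row -/
theorem edge (d : Fin 4) (Q : Set Pl) (z : ℤ × ℤ)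
    (hD : ∀ q ∈ Q, ∀ q' ∈ Q, ∀ c : ℤ × ℤ, c - q.2 ∈ Fb q.1 → c - q'.2 ∈ Fb q'.1 → q = q')
    (hC : ∀ c : ℤ × ℤ, co d (c - z) = 0 → ∃ q ∈ Q, c - q.2 ∈ Fb q.1)
    (hM : ∀ q ∈ Q, ∀ c : ℤ × ℤ, c - q.2 ∈ Fb q.1 → co d (c - z) ≠ 1) : False := by
  refine go_sound d {q | (q.1, q.2 + z) ∈ Q} ?_ ?_ (tgt d) [] ?_ ?_ (go_true d)
  · intro q hq q' hq' c hc hc'
    have h := hD _ hq _ hq' (c + z) (by
      show c + z - (q.2 + z) ∈ Fb q.1
      rw [add_sub_add_right_eq_sub]
      exact hc) (by
      show c + z - (q'.2 + z) ∈ Fb q'.1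
      rw [add_sub_add_right_eq_sub]
      exact hc')
    obtain ⟨h1, h2⟩ := Prod.mk.inj h
    exact Prod.ext h1 (add_right_cancel h2)
  · intro q hq f hf
    have h := hM _ hq (q.2 + z + f) (by
      show q.2 + z + f - (q.2 + z) ∈ Fb q.1
      rw [add_sub_cancel_left]
      exact hf)
    have e : q.2 + z + f - z = q.2 + f := by abel
    rw [e] at h
    exact h
  · intro t ht
    have h0 : co d t = 0 := by
      have key : ∀ d : Fin 4, ∀ t ∈ tgt d, co d t = 0 := by decide +kernel
      exact key d t ht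
    obtain ⟨q, hq, hc⟩ := hC (t + z) (by rw [add_sub_cancel_right]; exact h0)
    refine ⟨(q.1, q.2 - z), ?_, ?_⟩
    · show (q.1, q.2 - z + z) ∈ Q
      rw [sub_add_cancel]
      exact hq
    · show t - (q.2 - z) ∈ Fb q.1
      rw [sub_sub_eq_add_sub]
      exact hc
  · intro p hp
    exact absurd hp (List.not_mem_nil)

end AlefS
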