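import Pool.Agent.AlefS.Defs

/-!
# Exact covers give monohedral tilings
-/

set_option autoImplicit false

namespace AlefS

open TilDich

/-- the quarter turn about the centre of the cell at the origin -/
noncomputable def rd_rot : Eu 2 ≃ᵢ Eu 2 where
  toFun x := WithLp.toLp 2 ![1 - x 1, x 0]
  invFun x := WithLp.toLp 2 ![x 1, 1 - x 0]
  left_inv x := by
    ext i
    fin_cases i <;> simp
  right_inv x := by
    ext i
    fin_cases i <;> simp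
  isometry_toFun := by
    refine Isometry.of_dist_eq fun x y => ?_
    simp only [EuclideanSpace.dist_eq, Fin.sum_univ_two, Real.dist_eq, sq_abs,
      Matrix.cons_val_zero, Matrix.cons_val_one, Matrix.cons_val_fin_one]
    congr 1
    ring

/-- the reflection in the diagonal -/
noncomputable def rd_refl : Eu 2 ≃ᵢ Eu 2 where
  toFun x := WithLp.toLp 2 ![x 1, x 0]
  invFun x := WithLp.toLp 2 ![x 1, x 0]
  left_inv x := by
    ext i
    fin_cases i <;> simp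
  right_inv x := by
    ext i
    fin_cases i <;> simp
  isometry_toFun := by
    refine Isometry.of_dist_eq fun x y => ?_
    simp only [EuclideanSpace.dist_eq, Fin.sum_univ_two, Real.dist_eq, sq_abs,
      Matrix.cons_val_zero, Matrix.cons_val_one, Matrix.cons_val_fin_one]
    congr 1
    ring

/-- the translations -/
noncomputable def rd_tr (z : ℤ × ℤ) : Eu 2 ≃ᵢ Eu 2 :=
  IsometryEquiv.addRight (WithLp.toLp 2 ![(z.1 : ℝ), (z.2 : ℝ)])

theorem rd_rot_sq (c : ℤ × ℤ) : rd_rot '' sq c = sq (rt c) := by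
  ext y
  constructor
  · rintro ⟨x, ⟨h1, h2, h3, h4⟩, rfl⟩
    show (((-c.2 : ℤ) : ℝ) ≤ 1 - x 1 ∧ 1 - x 1 ≤ ((-c.2 : ℤ) : ℝ) + 1 ∧
      (c.1 : ℝ) ≤ x 0 ∧ x 0 ≤ c.1 + 1)
    push_cast
    refine ⟨by linarith, by linarith, h1, h2⟩
  · rintro ⟨h1, h2, h3, h4⟩
    have h1' : ((-c.2 : ℤ) : ℝ) ≤ y 0 := h1
    have h2' : y 0 ≤ ((-c.2 : ℤ) : ℝ) + 1 := h2
    have h3' : (c.1 : ℝ) ≤ y 1 := h3
    have h4' : y 1 ≤ (c.1 : ℝ) + 1 := h4
    push_cast at h1' h2'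
    refine ⟨rd_rot.symm y, ?_, rd_rot.apply_symm_apply y⟩
    show ((c.1 : ℝ) ≤ y 1 ∧ y 1 ≤ c.1 + 1 ∧ (c.2 : ℝ) ≤ 1 - y 0 ∧ 1 - y 0 ≤ c.2 + 1)
    refine ⟨h3', h4', by linarith, by linarith⟩

theorem rd_refl_sq (c : ℤ × ℤ) : rd_refl '' sq c = sq (c.2, c.1) := by
  ext y
  constructor
  · rintro ⟨x, ⟨h1, h2, h3, h4⟩, rfl⟩
    exact ⟨h3, h4, h1, h2⟩
  · rintro ⟨h1, h2, h3, h4⟩
    refine ⟨rd_refl.symm y, ?_, rd_refl.apply_symm_apply y⟩
    exact ⟨h3, h4, h1, h2⟩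

theorem rd_tr_sq (z c : ℤ × ℤ) : rd_tr z '' sq c = sq (c + z) := by
  ext y
  constructor
  · rintro ⟨x, ⟨h1, h2, h3, h4⟩, rfl⟩
    show (((c.1 + z.1 : ℤ) : ℝ) ≤ x 0 + z.1 ∧ x 0 + z.1 ≤ ((c.1 + z.1 : ℤ) : ℝ) + 1 ∧
      ((c.2 + z.2 : ℤ) : ℝ) ≤ x 1 + z.2 ∧ x 1 + z.2 ≤ ((c.2 + z.2 : ℤ) : ℝ) + 1)
    push_cast
    refine ⟨by linarith, by linarith, by linarith, by linarith⟩
  · rintro ⟨h1, h2, h3, h4⟩
    have h1' : ((c.1 + z.1 : ℤ) : ℝ) ≤ y 0 := h1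
    have h2' : y 0 ≤ ((c.1 + z.1 : ℤ) : ℝ) + 1 := h2
    have h3' : ((c.2 + z.2 : ℤ) : ℝ) ≤ y 1 := h3
    have h4' : y 1 ≤ ((c.2 + z.2 : ℤ) : ℝ) + 1 := h4
    push_cast at h1' h2' h3' h4'
    refine ⟨WithLp.toLp 2 ![y 0 - z.1, y 1 - z.2], ?_, ?_⟩
    · show ((c.1 : ℝ) ≤ y 0 - z.1 ∧ y 0 - z.1 ≤ c.1 + 1 ∧ (c.2 : ℝ) ≤ y 1 - z.2 ∧
        y 1 - z.2 ≤ c.2 + 1)
      refine ⟨by linarith, by linarith, by linarith, by linarith⟩
    · ext i
      fin_cases i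
      · show y 0 - z.1 + z.1 = y 0
        ring
      · show y 1 - z.2 + z.2 = y 1
        ring

/-- the isometries of the grid act on the squares -/
theorem exists_isom_sq (k : Fin 8) (z : ℤ × ℤ) :
    ∃ e : Eu 2 ≃ᵢ Eu 2, ∀ c : ℤ × ℤ, e '' sq c = sq (gb k c + z) := by
  have h1 : ∀ j : ℕ, ∃ e : Eu 2 ≃ᵢ Eu 2, ∀ c : ℤ × ℤ, e '' sq c = sq (rt^[j] c) := by
    intro j
    induction j with
    | zero =>
      refine ⟨IsometryEquiv.refl _, fun c => ?_⟩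
      show (fun x => x) '' sq c = sq c
      rw [Set.image_id']
    | succ j ih =>
      obtain ⟨e, he⟩ := ih
      refine ⟨e.trans rd_rot, fun c => ?_⟩
      rw [Function.iterate_succ_apply', ← rd_rot_sq, ← he, Set.image_image]
      rfl
  have h2 : ∃ e : Eu 2 ≃ᵢ Eu 2, ∀ c : ℤ × ℤ,
      e '' sq c = sq (if k.val < 4 then c else (c.2, c.1)) := by
    by_cases hk : k.val < 4
    · refine ⟨IsometryEquiv.refl _, fun c => ?_⟩
      rw [if_pos hk]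
      show (fun x => x) '' sq c = sq c
      rw [Set.image_id']
    · refine ⟨rd_refl, fun c => ?_⟩
      rw [if_neg hk]
      exact rd_refl_sq c
  obtain ⟨e1, he1⟩ := h1 (k.val % 4)
  obtain ⟨e2, he2⟩ := h2
  refine ⟨(e2.trans e1).trans (rd_tr z), fun c => ?_⟩
  have e3 : ((e2.trans e1).trans (rd_tr z)) '' sq c = rd_tr z '' (e1 '' (e2 '' sq c)) := by
    rw [Set.image_image, Set.image_image]
    rfl
  rw [e3, he2, he1, rd_tr_sq]
  rfl

/-- every placement is an isometric image of the prototile -/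
theorem exists_isom_TT (q : Pl) : ∃ e : Eu 2 ≃ᵢ Eu 2, TT q = e '' T0 := by
  obtain ⟨e, he⟩ := exists_isom_sq q.1 q.2
  refine ⟨e, ?_⟩
  have hid : Fb 0 = F0 := by decide
  ext x
  simp only [T0, TT, Set.image_iUnion, Set.mem_iUnion, he, hid]
  constructor
  · rintro ⟨f, hf, hx⟩
    rw [Fb, List.mem_map] at hf
    obtain ⟨f0, hf0, rfl⟩ := hf
    refine ⟨f0, hf0, ?_⟩
    have e1 : ((0, 0) : ℤ × ℤ) + f0 = f0 := zero_add f0
    rw [e1, add_comm]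
    exact hx
  · rintro ⟨f0, hf0, hx⟩
    refine ⟨gb q.1 f0, ?_, ?_⟩
    · rw [Fb, List.mem_map]
      exact ⟨f0, hf0, rfl⟩
    · have e1 : ((0, 0) : ℤ × ℤ) + f0 = f0 := zero_add f0
      rw [e1, add_comm] at hx
      exact hx

/-- cells and points of a tile -/
theorem rd_mem_TT {q : Pl} {x : Eu 2} : x ∈ TT q ↔ ∃ c : ℤ × ℤ, c - q.2 ∈ Fb q.1 ∧ x ∈ sq c := by
  simp only [TT, Set.mem_iUnion]
  constructor
  · rintro ⟨f, hf, hx⟩
    exact ⟨q.2 + f, by rwa [add_sub_cancel_left], hx⟩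
  · rintro ⟨c, hc, hx⟩
    exact ⟨c - q.2, hc, by rwa [add_sub_cancel]⟩

/-- near a point of a closed square there are points of the open square -/
theorem rd_regular {c : ℤ × ℤ} {x : Eu 2} (hx : x ∈ sq c) {V : Set (Eu 2)} (hV : IsOpen V)
    (hxV : x ∈ V) : ∃ y ∈ V, (c.1 : ℝ) < y 0 ∧ y 0 < c.1 + 1 ∧ (c.2 : ℝ) < y 1 ∧ y 1 < c.2 + 1 := by
  obtain ⟨h1, h2, h3, h4⟩ := hx
  set m : Eu 2 := WithLp.toLp 2 ![(c.1 : ℝ) + 1 / 2, (c.2 : ℝ) + 1 / 2] with hm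
  have hc : Continuous (fun t : ℝ => x + t • (m - x)) := by fun_prop
  have ho : IsOpen ((fun t : ℝ => x + t • (m - x)) ⁻¹' V) := hV.preimage hc
  have h0 : (0 : ℝ) ∈ (fun t : ℝ => x + t • (m - x)) ⁻¹' V := by
    show x + (0 : ℝ) • (m - x) ∈ V
    rw [zero_smul, add_zero]
    exact hxV
  obtain ⟨r, hr, hball⟩ := Metric.isOpen_iff.1 ho 0 h0
  have ht : min (r / 2) (1 / 2) ∈ Metric.ball (0 : ℝ) r := by
    rw [Metric.mem_ball, Real.dist_eq, sub_zero, abs_of_pos (lt_min (by linarith) (by norm_num))]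
    exact (min_le_left _ _).trans_lt (by linarith)
  have hpos : 0 < min (r / 2) (1 / 2) := lt_min (by linarith) (by norm_num)
  have hle : min (r / 2) (1 / 2) ≤ 1 / 2 := min_le_right _ _
  have hV' := hball ht
  set t : ℝ := min (r / 2) (1 / 2)
  refine ⟨x + t • (m - x), hV', ?_⟩
  have e0 : (x + t • (m - x)) 0 = x 0 + t * ((c.1 : ℝ) + 1 / 2 - x 0) := by
    simp [hm]
  have e1 : (x + t • (m - x)) 1 = x 1 + t * ((c.2 : ℝ) + 1 / 2 - x 1) := by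
    simp [hm]
  rw [e0, e1]
  refine ⟨?_, ?_, ?_, ?_⟩ <;> nlinarith

theorem real_of_disc {P : Set Pl} (h : Tiling P) : Mono T0 (realize P) := by
  refine ⟨?_, ?_, ?_⟩
  · rintro _ ⟨q, _, rfl⟩
    exact exists_isom_TT q
  · rw [Set.eq_univ_iff_forall]
    intro x
    obtain ⟨q, ⟨hq, hcq⟩, _⟩ := h (⌊x 0⌋, ⌊x 1⌋)
    refine ⟨TT q, ⟨q, hq, rfl⟩, rd_mem_TT.2 ⟨_, hcq, ?_⟩⟩
    exact ⟨Int.floor_le _, (Int.lt_floor_add_one _).le, Int.floor_le _,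
      (Int.lt_floor_add_one _).le⟩
  · rintro _ ⟨q, hq, rfl⟩ _ ⟨q', hq', rfl⟩ hne
    rw [Set.disjoint_left]
    intro x hx hx'
    obtain ⟨c, hc, hxc⟩ := rd_mem_TT.1 (interior_subset hx)
    obtain ⟨y, hy', y1, y2, y3, y4⟩ := rd_regular hxc isOpen_interior hx'
    obtain ⟨c', hc', z1, z2, z3, z4⟩ := rd_mem_TT.1 (interior_subset hy')
    have hcc : c = c' := by
      have a1 : c.1 < c'.1 + 1 := by
        have : (c.1 : ℝ) < (c'.1 : ℝ) + 1 := y1.trans_le z2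
        exact_mod_cast this
      have a2 : c'.1 < c.1 + 1 := by
        have : (c'.1 : ℝ) < (c.1 : ℝ) + 1 := z1.trans_lt y2
        exact_mod_cast this
      have a3 : c.2 < c'.2 + 1 := by
        have : (c.2 : ℝ) < (c'.2 : ℝ) + 1 := y3.trans_le z4
        exact_mod_cast this
      have a4 : c'.2 < c.2 + 1 := by
        have : (c'.2 : ℝ) < (c.2 : ℝ) + 1 := z3.trans_lt y4
        exact_mod_cast this
      ext
      · omega
      · omega
    subst hcc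
    apply hne
    obtain ⟨r, _, hu⟩ := h c
    rw [hu q ⟨hq, hc⟩, hu q' ⟨hq', hc'⟩]

end AlefS
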