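import Pool.Agent.AlefS.Grid

/-!
# Monohedral tilings come from exact covers
-/

set_option autoImplicit false

namespace AlefS

open TilDich

theorem disc_of_real {𝒯 : Set (Set (Eu 2))} (h : Mono T0 𝒯) :
    ∃ (g : Eu 2 ≃ᵢ Eu 2) (P : Set Pl), Tiling P ∧ (fun A => g '' A) '' 𝒯 = realize P := by
  obtain ⟨h1, h2, h3⟩ := h
  have hex : ∀ A : Set (Eu 2), ∃ e : Eu 2 ≃ᵢ Eu 2, A ∈ 𝒯 → A = e '' T0 := by
    intro A
    by_cases hA : A ∈ 𝒯
    · obtain ⟨e, he⟩ := h1 A hA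
      exact ⟨e, fun _ => he⟩
    · exact ⟨IsometryEquiv.refl _, fun h => absurd h hA⟩
  choose e he using hex
  have hcup : ∀ A ∈ 𝒯, A = ⋃ f ∈ F0, e A '' sq f := by
    intro A hA
    conv_lhs => rw [he A hA, T0_eq, Set.image_iUnion₂]
  -- the tiling by squares
  set 𝒮 : Set (Set (Eu 2)) := {S | ∃ A ∈ 𝒯, ∃ f ∈ F0, S = e A '' sq f} with h𝒮
  have hS : IsMono cellF 𝒮 := by
    refine ⟨?_, ?_, ?_⟩
    · rintro _ ⟨A, hA, f, hf, rfl⟩
      refine ⟨(IsometryEquiv.addRight (gz f)).trans (e A), ?_⟩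
      rw [sq_usq, usq_eq, Set.image_image]
      rfl
    · rw [Set.eq_univ_iff_forall]
      intro x
      have hx : x ∈ ⋃₀ 𝒯 := by rw [h2]; trivial
      obtain ⟨A, hA, hxA⟩ := hx
      rw [hcup A hA, Set.mem_iUnion₂] at hxA
      obtain ⟨f, hf, hxf⟩ := hxA
      exact ⟨_, ⟨A, hA, f, hf, rfl⟩, hxf⟩
    · rintro _ ⟨A, hA, f, hf, rfl⟩ _ ⟨B, hB, f', hf', rfl⟩ hne
      show Disjoint (interior (e A '' sq f)) (interior (e B '' sq f'))
      have hsub : ∀ A ∈ 𝒯, ∀ f ∈ F0, interior (e A '' sq f) ⊆ interior A := by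
        intro A hA f hf
        refine interior_mono ?_
        intro x hx
        rw [hcup A hA, Set.mem_iUnion₂]
        exact ⟨f, hf, hx⟩
      by_cases hAB : A = B
      · subst hAB
        have hff : f ≠ f' := fun h => hne (by rw [h])
        have e1 : ∀ S : Set (Eu 2), interior (e A '' S) = e A '' interior S := fun S =>
          ((e A).toHomeomorph.image_interior S).symm
        rw [e1, e1]
        exact (Set.disjoint_image_iff (e A).injective).mpr (sq_disj hff)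
      · exact (h3 hA hB hAB).mono (hsub A hA f hf) (hsub B hB f' hf')
  -- a tile
  have hne : ∃ A, A ∈ 𝒯 := by
    have hx : (0 : Eu 2) ∈ ⋃₀ 𝒯 := by rw [h2]; trivial
    obtain ⟨A, hA, _⟩ := hx
    exact ⟨A, hA⟩
  obtain ⟨A0, hA0⟩ := hne
  set g : Eu 2 ≃ᵢ Eu 2 := (e A0).symm with hg
  have hS' := hS.image g
  set 𝒮' : Set (Set (Eu 2)) := (fun A => g '' A) '' 𝒮 with h𝒮'
  have hm0 : sq (0, 0) ∈ 𝒮' := by
    refine ⟨e A0 '' sq (0, 0), ⟨A0, hA0, (0, 0), by decide, rfl⟩, ?_⟩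
    show g '' (e A0 '' sq (0, 0)) = sq (0, 0)
    rw [Set.image_image]
    simp [hg]
  have hgz0 : gz (0, 0) = 0 := by
    apply ext2
    · rw [gz0]; simp
    · rw [gz1]; simp
  have htr : IsTr cellF 𝒮' := by
    refine ⟨?_, hS'.2.1, hS'.2.2⟩
    intro B hB
    refine square_core cell_nonempty cell_square hS' ?_ B hB
    rw [body_usq, ← hgz0]
    exact hm0
  obtain ⟨V, hVdef⟩ : ∃ V : Set (Eu 2), V = {v | tile cellF v ∈ 𝒮'} := ⟨_, rfl⟩
  have hV : HO cellF V := by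
    rw [hVdef]
    exact ho_of_tr cell_nonempty htr
  have hmV : ∀ v, v ∈ V ↔ usq v ∈ 𝒮' := by
    intro v
    rw [hVdef, ← tile_usq]
    rfl
  have hV0 : gz (0, 0) ∈ V := (hmV _).2 hm0
  -- the placements in grid position
  set Q : Set Pl := {q | ∃ A ∈ 𝒯, (∀ p : ℤ × ℤ, g '' (e A '' sq p) = sq (gb q.1 p + q.2)) ∧
    g '' A = TT q} with hQ
  have hpl : ∀ A ∈ 𝒯, ∀ (f c : ℤ × ℤ), g '' (e A '' sq f) = sq c →
      ∃ q : Pl, (∀ p : ℤ × ℤ, g '' (e A '' sq p) = sq (gb q.1 p + q.2)) ∧ g '' A = TT q := by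
    intro A hA f c hfc
    obtain ⟨k, z, hkz⟩ := isom_sq ((e A).trans g) (c := f) (d := c) (by
      rw [← hfc, Set.image_image]
      rfl)
    have hk : ∀ p : ℤ × ℤ, g '' (e A '' sq p) = sq (gb k p + z) := by
      intro p
      rw [← hkz p, Set.image_image]
      rfl
    refine ⟨(k, z), hk, ?_⟩
    conv_lhs => rw [hcup A hA, Set.image_iUnion₂]
    show (⋃ f ∈ F0, g '' (e A '' sq f)) = ⋃ f ∈ Fb k, sq (z + f)
    ext x
    simp only [Set.mem_iUnion, Fb, List.mem_map]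
    constructor
    · rintro ⟨f, hf, hx⟩
      refine ⟨gb k f, ⟨f, hf, rfl⟩, ?_⟩
      rw [hk f] at hx
      rw [add_comm]
      exact hx
    · rintro ⟨_, ⟨f, hf, rfl⟩, hx⟩
      refine ⟨f, hf, ?_⟩
      rw [hk f, add_comm]
      exact hx
  have hC : ∀ c : ℤ × ℤ, gz c ∈ V → ∃ q ∈ Q, c - q.2 ∈ Fb q.1 := by
    intro c hc
    rw [hmV] at hc
    obtain ⟨B, ⟨A, hA, f, hf, rfl⟩, hB⟩ := hc
    have hB' : g '' (e A '' sq f) = sq c := hB
    obtain ⟨q, hq1, hq2⟩ := hpl A hA f c hB'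
    refine ⟨q, ⟨A, hA, hq1, hq2⟩, ?_⟩
    have hc : c = gb q.1 f + q.2 := by
      apply sq_inj
      rw [← hq1 f]
      exact hB'.symm
    rw [hc, add_sub_cancel_right]
    exact List.mem_map.mpr ⟨f, hf, rfl⟩
  have hM : ∀ q ∈ Q, ∀ c : ℤ × ℤ, c - q.2 ∈ Fb q.1 → gz c ∈ V := by
    rintro q ⟨A, hA, hq1, _⟩ c hc
    obtain ⟨f, hf, hfc⟩ := List.mem_map.1 hc
    have hc' : c = gb q.1 f + q.2 := by rw [hfc, sub_add_cancel]
    rw [hmV]
    show sq c ∈ 𝒮'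
    rw [hc', ← hq1 f]
    exact ⟨_, ⟨A, hA, f, hf, rfl⟩, rfl⟩
  have hD : ∀ q ∈ Q, ∀ q' ∈ Q, ∀ c : ℤ × ℤ, c - q.2 ∈ Fb q.1 → c - q'.2 ∈ Fb q'.1 → q = q' := by
    rintro q ⟨A, hA, _, hq2⟩ q' ⟨A', hA', _, hq2'⟩ c hc hc'
    have hcA := (sub_iff q c).mpr hc
    have hcA' := (sub_iff q' c).mpr hc'
    have hAA : A' = A := by
      by_contra hne
      have hd := h3 hA' hA hne
      obtain ⟨x, hx⟩ := sq_int_nonempty c
      have e1 : ∀ S : Set (Eu 2), interior (g '' S) = g '' interior S := fun S =>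
        (g.toHomeomorph.image_interior S).symm
      have x1 : x ∈ interior (g '' A') := by
        rw [hq2']; exact interior_mono hcA' hx
      have x2 : x ∈ interior (g '' A) := by
        rw [hq2]; exact interior_mono hcA hx
      rw [e1] at x1 x2
      exact Set.disjoint_left.mp ((Set.disjoint_image_iff g.injective).mpr hd) x1 x2
    apply TT_inj
    rw [← hq2, ← hq2', hAA]
  -- all grid squares belong to the tiling
  have hall : ∀ c, gz c ∈ V := by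
    rcases rows hV hV0 with hr | ⟨d, z, hr1, hr2⟩
    · exact hr
    · exfalso
      refine edge d Q z hD ?_ ?_
      · intro c hc
        exact hC c (hr1 c hc)
      · intro q hq c hc h1
        exact hr2 c h1 (hM q hq c hc)
  have hVgz : ∀ v ∈ V, ∃ c, v = gz c := by
    intro v hv
    refine ⟨(⌊v 0⌋, ⌊v 1⌋), ?_⟩
    obtain ⟨w, _, hu⟩ := hV v
    refine (hu v ⟨hv, (fl_cell (show (0 : Fin 2) ≠ 1 by decide) _ _).2
      ⟨⟨le_refl _, by linarith⟩, le_refl _, by linarith⟩⟩).trans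
      (hu _ ⟨hall (⌊v 0⌋, ⌊v 1⌋), ?_⟩).symm
    rw [fl_cell (show (0 : Fin 2) ≠ 1 by decide), gz0, gz1]
    exact ⟨⟨Int.floor_le _, Int.lt_floor_add_one _⟩, Int.floor_le _, Int.lt_floor_add_one _⟩
  refine ⟨g, Q, ?_, ?_⟩
  · intro c
    obtain ⟨q, hq, hc⟩ := hC c (hall c)
    refine ⟨q, ⟨hq, hc⟩, ?_⟩
    rintro q' ⟨hq', hc'⟩
    exact hD q' hq' q hq c hc' hc
  · apply Set.Subset.antisymm
    · rintro _ ⟨A, hA, rfl⟩
      have hmem : g '' (e A '' sq (0, 0)) ∈ 𝒮' :=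
        ⟨_, ⟨A, hA, (0, 0), by decide, rfl⟩, rfl⟩
      obtain ⟨v, hv⟩ := htr.1 _ hmem
      rw [← usq_eq] at hv
      obtain ⟨c, hc⟩ := hVgz v ((hmV v).2 (by rw [← hv]; exact hmem))
      obtain ⟨q, hq1, hq2⟩ := hpl A hA (0, 0) c (by rw [hv, hc, sq_usq])
      exact ⟨q, ⟨A, hA, hq1, hq2⟩, hq2.symm⟩
    · rintro _ ⟨q, ⟨A, hA, _, hq2⟩, rfl⟩
      exact ⟨A, hA, hq2⟩

end AlefS
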