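import Pool.Agent.AlefS.WalS

/-!
# Every exact cover of the small grid is the lattice cover or the cover with one wall
-/

set_option autoImplicit false

namespace AlefS.S

open AlefS

/-- shift of a placement -/
def shP (z : ℤ × ℤ) (q : Pl) : Pl := (q.1, q.2 + z)

theorem acts0 (z : ℤ × ℤ) (q : Pl) : acts 0 z q = shP z q := by
  unfold acts shP
  ext1
  · exact zero_mul8 q.1
  · rfl

theorem rule {P : Set Pl} (hP : TilingS P) {L F : List Pl} {c : List ℕ} (h : chkP L F c = true)
    (z : ℤ × ℤ) (hL : ∀ q ∈ L, shP z q ∈ P) : ∃ q ∈ F, shP z q ∈ P := by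
  by_contra hcon
  push Not at hcon
  refine refuteP h (hP.pre 0 z) ?_ ?_
  · intro q hq
    show acts 0 z q ∈ P
    rw [acts0]; exact hL q hq
  · intro q hq hmem
    have h2 : acts 0 z q ∈ P := hmem
    rw [acts0] at h2
    exact hcon q hq h2

/-- all placements of type `g` on the half line with values `n` and `r` are present -/
def R (P : Set Pl) (g : Fin 8) (n r : ℤ) : Prop :=
  ∀ p : ℤ × ℤ, us p = n → ws p % 14 = r → (g, p) ∈ P

theorem line_ind (S : Set (ℤ × ℤ)) (p : ℤ × ℤ) (hp : p ∈ S)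
    (hs : ∀ q ∈ S, us q = us p → ws q % 14 = ws p % 14 → q + (4, 2) ∈ S ∧ q + (-4, -2) ∈ S)
    (p' : ℤ × ℤ) (h : us p' = us p) (h' : ws p' % 14 = ws p % 14) : p' ∈ S := by
  have key : ∀ k : ℤ, p + (4 * k, 2 * k) ∈ S := by
    intro k
    induction k using Int.induction_on with
    | zero =>
      have : p + ((4 * 0 : ℤ), (2 * 0 : ℤ)) = p := by ext <;> simp
      rw [this]; exact hp
    | succ k ih =>
      have h1 := (hs _ ih (by rw [us_add]; unfold us; simp only; ring)
        (by rw [ws_add]; unfold ws; simp only; omega)).1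
      have : p + (4 * ((k : ℤ) + 1), 2 * ((k : ℤ) + 1)) = p + (4 * (k : ℤ), 2 * (k : ℤ)) + (4, 2) := by
        ext
        · simp only [Prod.fst_add]; ring
        · simp only [Prod.snd_add]; ring
      rw [this]; exact h1
    | pred k ih =>
      have h1 := (hs _ ih (by rw [us_add]; unfold us; simp only; ring)
        (by rw [ws_add]; unfold ws; simp only; omega)).2
      have : p + (4 * (-(k : ℤ) - 1), 2 * (-(k : ℤ) - 1)) =
          p + (4 * (-(k : ℤ)), 2 * (-(k : ℤ))) + (-4, -2) := by
        ext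
        · simp only [Prod.fst_add]; ring
        · simp only [Prod.snd_add]; ring
      rw [this]; exact h1
  have h2 := key ((p'.2 - p.2) / 2)
  have : p + (4 * ((p'.2 - p.2) / 2), 2 * ((p'.2 - p.2) / 2)) = p' := by
    unfold us at h
    unfold ws at h'
    ext
    · simp only [Prod.fst_add]; omega
    · simp only [Prod.snd_add]; omega
  rwa [this] at h2

theorem rowR {P : Set Pl} (hP : TilingS P) {p : ℤ × ℤ} (h0 : ((0 : Fin 8), p) ∈ P)
    (h1 : ((0 : Fin 8), p + (4, 2)) ∈ P) : R P 0 (us p) (ws p % 14) := by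
  intro p' hp' hp''
  have := line_ind {x | ((0 : Fin 8), x) ∈ P ∧ ((0 : Fin 8), x + (4, 2)) ∈ P} p ⟨h0, h1⟩ ?_ p'
    hp' hp''
  · exact this.1
  · rintro x ⟨hx0, hx1⟩ _ _
    have hL : ∀ q ∈ [((0 : Fin 8), ((0 : ℤ), (0 : ℤ))), (0, (4, 2))], shP x q ∈ P := by
      intro q hq
      rcases List.mem_cons.mp hq with rfl | hq
      · have : shP x (0, (0, 0)) = (0, x) := by unfold shP; ext <;> simp
        rw [this]; exact hx0
      · rw [List.mem_singleton] at hq
        rw [hq]
        unfold shP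
        simp only
        rw [add_comm]; exact hx1
    obtain ⟨q, hq, hq'⟩ := rule hP rb1 x hL
    obtain ⟨r, hr, hr'⟩ := rule hP rb2 x hL
    rw [List.mem_singleton] at hq hr
    rw [hq] at hq'
    rw [hr] at hr'
    unfold shP at hq' hr'
    simp only at hq' hr'
    refine ⟨⟨hx1, ?_⟩, ?_, ?_⟩
    · have : x + (4, 2) + (4, 2) = (8, 4) + x := by
        ext
        · simp only [Prod.fst_add]; ring
        · simp only [Prod.snd_add]; ring
      rw [this]; exact hq'
    · rw [add_comm]; exact hr'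
    · have : x + (-4, -2) + (4, 2) = x := by
        ext <;> simp
      rw [this]; exact hx0

/-- using a rule at a point of a full row -/
theorem rule_row {P : Set Pl} (hP : TilingS P) {g : Fin 8} {n r : ℤ} (hR : R P g n r) {F : List Pl}
    {c : List ℕ} (h : chkP [(g, (0, 0)), (g, (4, 2))] F c = true) (z : ℤ × ℤ) (hz : us z = n)
    (hz' : ws z % 14 = r) : ∃ q ∈ F, shP z q ∈ P := by
  refine rule hP h z ?_
  intro q hq
  rcases List.mem_cons.mp hq with rfl | hq
  · refine hR _ ?_ ?_
    · simp only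
      rw [us_add, hz]; unfold us; simp
    · simp only
      rw [ws_add]; unfold ws at *; simp only; omega
  · rw [List.mem_singleton] at hq
    rw [hq]
    refine hR _ ?_ ?_
    · simp only
      rw [us_add, hz]; unfold us; simp
    · simp only
      rw [ws_add]; unfold ws at *; simp only; omega

theorem up {P : Set Pl} (hP : TilingS P) {n r : ℤ} (hR : R P 0 n r) : R P 0 (n - 7) r := by
  intro p hp hp'
  obtain ⟨q, hq, hq'⟩ := rule_row hP hR rc (p + (1, -3))
    (by rw [us_add, hp]; unfold us; simp only; ring)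
    (by rw [ws_add]; unfold ws at *; simp only; omega)
  rw [List.mem_singleton] at hq
  rw [hq] at hq'
  unfold shP at hq'
  simp only at hq'
  have : ((-1 : ℤ), (3 : ℤ)) + (p + (1, -3)) = p := by
    ext
    · simp only [Prod.fst_add]; ring
    · simp only [Prod.snd_add]; ring
  rwa [this] at hq'

theorem down2 {P : Set Pl} (hP : TilingS P) {n r : ℤ} (hR : R P 2 n r) : R P 2 (n + 7) r := by
  intro p hp hp'
  obtain ⟨q, hq, hq'⟩ := rule_row hP hR rc2 (p + (-1, 3))
    (by rw [us_add, hp]; unfold us; simp only; ring)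
    (by rw [ws_add]; unfold ws at *; simp only; omega)
  rw [List.mem_singleton] at hq
  rw [hq] at hq'
  unfold shP at hq'
  simp only at hq'
  have : ((1 : ℤ), (-3 : ℤ)) + (p + (-1, 3)) = p := by
    ext
    · simp only [Prod.fst_add]; ring
    · simp only [Prod.snd_add]; ring
  rwa [this] at hq'

theorem down {P : Set Pl} (hP : TilingS P) {n r : ℤ} (hR : R P 0 n r) :
    R P 0 (n + 7) r ∨ ∃ p : ℤ × ℤ, us p = n + 6 ∧ (ws p - 4) % 14 = r ∧ ((7 : Fin 8), p) ∈ P := by
  by_contra hcon
  push Not at hcon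
  obtain ⟨h1, h2⟩ := hcon
  apply h1
  intro p hp hp'
  obtain ⟨q, hq, hq'⟩ := rule_row hP hR rd (p + (-1, 3))
    (by rw [us_add, hp]; unfold us; simp only; ring)
    (by rw [ws_add]; unfold ws at *; simp only; omega)
  rcases List.mem_cons.mp hq with rfl | hq
  · unfold shP at hq'
    simp only at hq'
    have : ((1 : ℤ), (-3 : ℤ)) + (p + (-1, 3)) = p := by
      ext
      · simp only [Prod.fst_add]; ring
      · simp only [Prod.snd_add]; ring
    rwa [this] at hq'
  · rw [List.mem_singleton] at hq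
    rw [hq] at hq'
    unfold shP at hq'
    simp only at hq'
    exact absurd hq' (h2 _ (by rw [us_add, us_add, hp]; unfold us; simp only; ring)
      (by rw [ws_add, ws_add]; unfold ws at *; simp only; omega))

/-- using a rule at a point of a full row of type `0` with a tile of type `7` beside it -/
theorem rule3 {P : Set Pl} (hP : TilingS P) {n r : ℤ} (hR : R P 0 n r) {x : Pl}
    {c : List ℕ} (h : chkP [(0, (0, 0)), (0, (4, 2)), (7, (2, -2))] [x] c = true) (z : ℤ × ℤ)
    (hz : us z = n) (hz' : ws z % 14 = r) (h3 : ((7 : Fin 8), z + (2, -2)) ∈ P) :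
    (x.1, z + x.2) ∈ P := by
  have : ∃ q ∈ [x], shP z q ∈ P := by
    refine rule hP h z ?_
    intro q hq
    rcases List.mem_cons.mp hq with rfl | hq
    · refine hR _ ?_ ?_
      · simp only
        rw [us_add, hz]; unfold us; simp
      · simp only
        rw [ws_add]; unfold ws at *; simp only; omega
    rcases List.mem_cons.mp hq with rfl | hq
    · refine hR _ ?_ ?_
      · simp only
        rw [us_add, hz]; unfold us; simp
      · simp only
        rw [ws_add]; unfold ws at *; simp only; omega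
    · rw [List.mem_singleton] at hq
      rw [hq]
      unfold shP
      simp only
      rw [add_comm]; exact h3
  obtain ⟨q, hq, hq'⟩ := this
  rw [List.mem_singleton] at hq
  rw [hq] at hq'
  unfold shP at hq'
  rw [add_comm] at hq'
  exact hq'

theorem row3 {P : Set Pl} (hP : TilingS P) {n r : ℤ} (hR : R P 0 n r) {p : ℤ × ℤ}
    (hp : us p = n + 6) (hp' : (ws p - 4) % 14 = r) (h3 : ((7 : Fin 8), p) ∈ P) :
    ∀ x : ℤ × ℤ, us x = n + 6 → (ws x - 4) % 14 = r → ((7 : Fin 8), x) ∈ P := by
  intro p' hq hq'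
  refine line_ind {x | ((7 : Fin 8), x) ∈ P} p h3 ?_ p' (hq.trans hp.symm) (by omega)
  intro x hx hxu hxw
  have hz : us (x + (-2, 2)) = n := by rw [us_add, hxu, hp]; unfold us; simp only; ring
  have hz' : ws (x + (-2, 2)) % 14 = r := by rw [ws_add]; unfold ws at *; simp only; omega
  have hx' : ((7 : Fin 8), x + (-2, 2) + (2, -2)) ∈ P := by
    have : x + ((-2 : ℤ), (2 : ℤ)) + (2, -2) = x := by ext <;> simp
    rw [this]; exact hx
  have e1 := rule3 hP hR re1 _ hz hz' hx'
  have e2 := rule3 hP hR re2 _ hz hz' hx'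
  simp only at e1 e2
  constructor
  · have : x + ((-2 : ℤ), (2 : ℤ)) + (6, 0) = x + (4, 2) := by
      ext
      · simp only [Prod.fst_add]; ring
      · simp only [Prod.snd_add]; ring
    rw [this] at e1; exact e1
  · have : x + ((-2 : ℤ), (2 : ℤ)) + (-2, -4) = x + (-4, -2) := by
      ext
      · simp only [Prod.fst_add]; ring
      · simp only [Prod.snd_add]; ring
    rw [this] at e2; exact e2

theorem rows12 {P : Set Pl} (hP : TilingS P) {n r : ℤ} (hR : R P 0 n r)
    (h3 : ∀ x : ℤ × ℤ, us x = n + 6 → (ws x - 4) % 14 = r → ((7 : Fin 8), x) ∈ P) :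
    (∀ x : ℤ × ℤ, us x = n + 13 → (ws x - 11) % 14 = r → ((5 : Fin 8), x) ∈ P) ∧
      ∀ x : ℤ × ℤ, us x = n + 19 → (ws x - 1) % 14 = r → ((2 : Fin 8), x) ∈ P := by
  constructor
  · intro p hp hp'
    have hz : us (p + (-1, 6)) = n := by rw [us_add, hp]; unfold us; simp only; ring
    have hz' : ws (p + (-1, 6)) % 14 = r := by rw [ws_add]; unfold ws at *; simp only; omega
    have e := rule3 hP hR re3 (p + (-1, 6)) hz hz'
      (h3 _ (by rw [us_add, hz]; unfold us; simp)
        (by rw [ws_add]; unfold ws at *; simp only [Prod.fst_add, Prod.snd_add] at *; omega))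
    simp only at e
    have : p + ((-1 : ℤ), (6 : ℤ)) + (1, -6) = p := by ext <;> simp
    rwa [this] at e
  · intro p hp hp'
    have hz : us (p + (-3, 8)) = n := by rw [us_add, hp]; unfold us; simp only; ring
    have hz' : ws (p + (-3, 8)) % 14 = r := by rw [ws_add]; unfold ws at *; simp only; omega
    have e := rule3 hP hR re4 (p + (-3, 8)) hz hz'
      (h3 _ (by rw [us_add, hz]; unfold us; simp)
        (by rw [ws_add]; unfold ws at *; simp only [Prod.fst_add, Prod.snd_add] at *; omega))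
    simp only at e
    have : p + ((-3 : ℤ), (8 : ℤ)) + (3, -8) = p := by ext <;> simp
    rwa [this] at e

theorem eq_of_sub {P S : Set Pl} (hP : TilingS P) (hsub : S ⊆ P)
    (hcov : ∀ c : ℤ × ℤ, ∃ q ∈ S, c - q.2 ∈ Fs q.1) : P = S := by
  apply Set.Subset.antisymm _ hsub
  intro q hq
  have hne : ∀ g : Fin 8, ∃ f ∈ Fs g, True := by decide
  obtain ⟨f, hf, _⟩ := hne q.1
  obtain ⟨r, hr, hrc⟩ := hcov (q.2 + f)
  have : q = r := hP.eq_of_common hq (hsub hr) hf hrc (by abel)
  rw [this]; exact hr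

theorem acts_covers (k : Fin 8) (z : ℤ × ℤ) {S : Set Pl}
    (hcov : ∀ c : ℤ × ℤ, ∃ q ∈ S, c - q.2 ∈ Fs q.1) (c : ℤ × ℤ) :
    ∃ q ∈ acts k z '' S, c - q.2 ∈ Fs q.1 := by
  obtain ⟨x, hx⟩ := acts_surj k z ((0 : Fin 8), c)
  have hx2 : gs k x.2 + z = c := congrArg Prod.snd hx
  obtain ⟨q, hq, hqc⟩ := hcov x.2
  refine ⟨acts k z q, ⟨q, hq, rfl⟩, ?_⟩
  rw [← hx2]
  exact (acts_cover k z x.2 q).mpr hqc

theorem of_L {P : Set Pl} (hP : TilingS P) (h0 : ((0 : Fin 8), ((0 : ℤ), (0 : ℤ))) ∈ P)
    (h1 : ((0 : Fin 8), ((4 : ℤ), (2 : ℤ))) ∈ P) :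
    P = LatS ∨ ∃ z : ℤ × ℤ, P = acts 0 z '' WalS := by
  have hR0 : R P 0 0 0 := by
    have := rowR hP h0 (by
      have : ((0 : ℤ), (0 : ℤ)) + (4, 2) = (4, 2) := by ext <;> simp
      rw [this]; exact h1)
    have e : us (0, 0) = 0 := by unfold us; simp
    have e' : ws (0, 0) % 14 = 0 := by unfold ws; simp
    rwa [e, e'] at this
  have hup : ∀ (n : ℤ), R P 0 n 0 → ∀ j : ℕ, R P 0 (n - 7 * j) 0 := by
    intro n hn j
    induction j with
    | zero => simpa using hn
    | succ j ih =>
      have := up hP ih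
      have e : n - 7 * ((j + 1 : ℕ) : ℤ) = n - 7 * j - 7 := by push_cast; ring
      rw [e]; exact this
  have hdiv : ∀ p : ℤ × ℤ, ws p % 14 = 0 → us p % 7 = 0 := by
    intro p hp
    unfold ws at hp
    unfold us
    omega
  by_cases hall : ∀ m : ℕ, R P 0 (7 * (m : ℤ)) 0
  · left
    refine eq_of_sub hP ?_ lat_covers
    rintro ⟨g, p⟩ ⟨hg, hp⟩
    simp only at hg hp
    rw [hg]
    have h7 := hdiv p hp
    rcases le_or_gt (us p) 0 with h | h
    · exact hup 0 hR0 (-us p / 7).toNat p (by omega) hp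
    · exact hall ((us p) / 7).toNat p (by omega) hp
  · right
    push Not at hall
    have hex : ∃ m : ℕ, R P 0 (7 * (m : ℤ)) 0 ∧ ¬ R P 0 (7 * ((m + 1 : ℕ) : ℤ)) 0 := by
      by_contra hcon
      push Not at hcon
      obtain ⟨m, hm⟩ := hall
      apply hm
      induction m with
      | zero => simpa using hR0
      | succ m ih =>
        by_cases h : R P 0 (7 * (m : ℤ)) 0
        · exact hcon m h
        · exact absurd (ih h) h
    obtain ⟨m, hm, hm'⟩ := hex
    set n : ℤ := 7 * (m : ℤ) with hn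
    have e14 : 7 * ((m + 1 : ℕ) : ℤ) = n + 7 := by rw [hn]; push_cast; ring
    rw [e14] at hm'
    rcases down hP hm with h | ⟨p, hp, hp', hp3⟩
    · exact absurd h hm'
    have hR3 := row3 hP hm hp hp' hp3
    obtain ⟨hR1, hR2⟩ := rows12 hP hm hR3
    have hR2' : R P 2 (n + 19) 1 := fun x hx hx' => hR2 x hx (by omega)
    have hdown : ∀ j : ℕ, R P 2 (n + 19 + 7 * j) 1 := by
      intro j
      induction j with
      | zero => simpa using hR2'
      | succ j ih =>
        have := down2 hP ih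
        have e : n + 19 + 7 * ((j + 1 : ℕ) : ℤ) = n + 19 + 7 * j + 7 := by push_cast; ring
        rw [e]; exact this
    -- the shift: `us z = n`, `ws z % 14 = 0`
    have hz1 : us ((m : ℤ), -3 * (m : ℤ)) = n := by rw [hn]; unfold us; simp only; ring
    have hz2 : ws ((m : ℤ), -3 * (m : ℤ)) = 0 := by unfold ws; simp only; ring
    refine ⟨((m : ℤ), -3 * (m : ℤ)), eq_of_sub hP ?_
      (acts_covers 0 ((m : ℤ), -3 * (m : ℤ)) wal_covers)⟩
    rintro _ ⟨⟨g, q⟩, hq, rfl⟩
    rw [acts0]
    have hun : us (q + ((m : ℤ), -3 * (m : ℤ))) = us q + n := by rw [us_add, hz1]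
    have hwn : ws (q + ((m : ℤ), -3 * (m : ℤ))) = ws q := by rw [ws_add, hz2, add_zero]
    rcases hq with ⟨hg, h5, h6⟩ | ⟨hg, h5, h6⟩ | ⟨hg, h5, h6⟩ | ⟨hg, h5, h6⟩ <;>
      simp only at hg h5 h6 <;> rw [hg] <;> unfold shP <;> simp only
    · have h7 := hdiv q h6
      exact hup n hm (-us q / 7).toNat _ (by rw [hun]; omega) (by rw [hwn]; omega)
    · exact hR3 _ (by rw [hun]; omega) (by rw [hwn]; omega)
    · exact hR1 _ (by rw [hun]; omega) (by rw [hwn]; omega)
    · have h7 : (us q - 19) % 7 = 0 := by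
        unfold ws at h6
        unfold us
        omega
      exact hdown ((us q - 19) / 7).toNat _ (by rw [hun]; omega) (by rw [hwn]; omega)

theorem pre_image (k : Fin 8) (z : ℤ × ℤ) (P : Set Pl) : P = acts k z '' {x | acts k z x ∈ P} := by
  ext q
  constructor
  · intro hq
    obtain ⟨x, hx⟩ := acts_surj k z q
    exact ⟨x, by show acts k z x ∈ P; rw [hx]; exact hq, hx⟩
  · rintro ⟨x, hx, rfl⟩
    exact hx

/-- **Classification of the exact covers of the small grid.** -/
theorem classification {P : Set Pl} (hP : TilingS P) :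
    ∃ (k : Fin 8) (z : ℤ × ℤ), P = acts k z '' LatS ∨ P = acts k z '' WalS := by
  -- a tile of lattice type
  have hL : ∃ (k : Fin 8) (z : ℤ × ℤ), acts k z (0, (0, 0)) ∈ P ∧ acts k z (0, (4, 2)) ∈ P := by
    obtain ⟨q, ⟨hq, _⟩, _⟩ := hP (0, 0)
    have hT := hP.pre q.1 q.2
    have h0 : acts q.1 q.2 (0, (0, 0)) ∈ P := by
      have : acts q.1 q.2 (0, (0, 0)) = q := by
        obtain ⟨g, p⟩ := q
        unfold acts
        ext1
        · exact mul_zero8 g
        · simp only
          have : ∀ g : Fin 8, gs g ((0 : ℤ), (0 : ℤ)) = (0, 0) := by decide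
          rw [this]
          ext <;> simp
      rw [this]; exact hq
    by_cases h1 : acts q.1 q.2 (0, (4, 2)) ∈ P
    · exact ⟨q.1, q.2, h0, h1⟩
    · have hLL : ∀ x ∈ [((0 : Fin 8), ((0 : ℤ), (0 : ℤ)))], shP 0 x ∈ {x | acts q.1 q.2 x ∈ P} := by
        intro x hx
        rw [List.mem_singleton] at hx
        rw [hx]
        unfold shP
        simp only [add_zero]
        exact h0
      obtain ⟨x, hx, hx'⟩ := rule hT ra1 0 hLL
      obtain ⟨y, hy, hy'⟩ := rule hT ra2 0 hLL
      have z1 : ∀ a : Pl, shP 0 a = a := by intro a; unfold shP; simp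
      rw [z1] at hx' hy'
      rcases List.mem_cons.mp hx with rfl | hx
      · exact absurd hx' h1
      rcases List.mem_cons.mp hy with rfl | hy
      · exact absurd hy' h1
      rw [List.mem_singleton] at hx hy
      rw [hx] at hx'
      rw [hy] at hy'
      refine ⟨mul q.1 7, gs q.1 (-2, 2) + q.2, ?_, ?_⟩
      · rw [← acts_acts]
        have : acts 7 (-2, 2) (0, (0, 0)) = (7, (-2, 2)) := by decide
        rw [this]; exact hy'
      · rw [← acts_acts]
        have : acts 7 (-2, 2) (0, (4, 2)) = (7, (-4, -2)) := by decide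
        rw [this]; exact hx'
  obtain ⟨k, z, h0, h1⟩ := hL
  have hT := hP.pre k z
  rcases of_L hT h0 h1 with h | ⟨z', h⟩
  · refine ⟨k, z, Or.inl ?_⟩
    conv_lhs => rw [pre_image k z P]
    rw [h]
  · refine ⟨mul k 0, gs k z' + z, Or.inr ?_⟩
    conv_lhs => rw [pre_image k z P]
    rw [h, Set.image_image]
    exact Set.image_congr fun x _ => acts_acts k 0 z z' x

/-- There are only countably many exact covers of the small grid. -/
theorem countable_tilingsS : {P : Set Pl | TilingS P}.Countable := by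
  have hsub : {P : Set Pl | TilingS P} ⊆
      (Set.range fun a : Fin 8 × (ℤ × ℤ) => acts a.1 a.2 '' LatS) ∪
        (Set.range fun a : Fin 8 × (ℤ × ℤ) => acts a.1 a.2 '' WalS) := by
    intro P hP
    obtain ⟨k, z, h | h⟩ := classification hP
    · exact Or.inl ⟨(k, z), h.symm⟩
    · exact Or.inr ⟨(k, z), h.symm⟩
  exact ((Set.countable_range _).union (Set.countable_range _)).mono hsub

end AlefS.S
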