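import Pool.Agent.AlefS.Defs

/-!
# Isometric tilings come from equivalent exact covers

The centres of the cells of a tile are the points `x` such that the open ball of radius `1/2`
around `x` is contained in the tile (no two cells of a tile share an edge).
-/

set_option autoImplicit false

namespace AlefS

open TilDich

private noncomputable def cnt (c : ℤ × ℤ) : Eu 2 :=
  WithLp.toLp 2 ![(c.1 : ℝ) + 1 / 2, (c.2 : ℝ) + 1 / 2]

private noncomputable def vec (c : ℤ × ℤ) : Eu 2 := WithLp.toLp 2 ![(c.1 : ℝ), (c.2 : ℝ)]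

private theorem cnt_zero (c : ℤ × ℤ) : cnt c 0 = (c.1 : ℝ) + 1 / 2 := rfl
private theorem cnt_one (c : ℤ × ℤ) : cnt c 1 = (c.2 : ℝ) + 1 / 2 := rfl
private theorem vec_zero (c : ℤ × ℤ) : vec c 0 = (c.1 : ℝ) := rfl
private theorem vec_one (c : ℤ × ℤ) : vec c 1 = (c.2 : ℝ) := rfl

private theorem ext2 {x y : Eu 2} (h0 : x 0 = y 0) (h1 : x 1 = y 1) : x = y := by
  ext i
  fin_cases i
  · exact h0
  · exact h1

private theorem cnt_inj {c d : ℤ × ℤ} (h : cnt c = cnt d) : c = d := by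
  have h0 : cnt c 0 = cnt d 0 := by rw [h]
  have h1 : cnt c 1 = cnt d 1 := by rw [h]
  rw [cnt_zero, cnt_zero] at h0
  rw [cnt_one, cnt_one] at h1
  exact Prod.ext (Int.cast_injective (α := ℝ) (add_right_cancel h0))
    (Int.cast_injective (α := ℝ) (add_right_cancel h1))

private theorem cnt_add (c v : ℤ × ℤ) : cnt (c + v) = cnt c + vec v := by
  apply ext2
  · show ((c.1 + v.1 : ℤ) : ℝ) + 1 / 2 = (c.1 : ℝ) + 1 / 2 + (v.1 : ℝ)
    push_cast
    ring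
  · show ((c.2 + v.2 : ℤ) : ℝ) + 1 / 2 = (c.2 : ℝ) + 1 / 2 + (v.2 : ℝ)
    push_cast
    ring

private theorem dsq (x y : Eu 2) : dist x y ^ 2 = (x 0 - y 0) ^ 2 + (x 1 - y 1) ^ 2 := by
  rw [EuclideanSpace.dist_eq, Real.sq_sqrt (by positivity), Fin.sum_univ_two, Real.dist_eq,
    Real.dist_eq, sq_abs, sq_abs]

private theorem nsq (x : Eu 2) : ‖x‖ ^ 2 = x 0 ^ 2 + x 1 ^ 2 := by
  rw [EuclideanSpace.norm_sq_eq, Fin.sum_univ_two]
  simp [sq_abs]

/-- the open ball of radius `1/2` around `x` is contained in `A` -/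
private def Ctr (A : Set (Eu 2)) (x : Eu 2) : Prop :=
  ∀ y : Eu 2, (y 0 - x 0) ^ 2 + (y 1 - x 1) ^ 2 < 1 / 4 → y ∈ A

private theorem ctr_image (g : Eu 2 ≃ᵢ Eu 2) (A : Set (Eu 2)) (x : Eu 2) :
    Ctr (g '' A) (g x) ↔ Ctr A x := by
  constructor
  · intro h y hy
    have h1 : g y ∈ g '' A := by
      apply h
      rw [← dsq, g.dist_eq, dsq]
      exact hy
    obtain ⟨y', hy', he⟩ := h1
    rw [← g.injective he]
    exact hy'
  · intro h y hy
    refine ⟨g.symm y, h _ ?_, g.apply_symm_apply y⟩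
    rw [← dsq, ← g.dist_eq, g.apply_symm_apply, dsq]
    exact hy

private theorem par : ∀ g : Fin 8, ∀ f ∈ Fb g, (f.1 + f.2) % 2 = 0 := by decide +kernel

private theorem mem_TT {q : Pl} {x : Eu 2} : x ∈ TT q ↔ ∃ f ∈ Fb q.1, x ∈ sq (q.2 + f) := by
  simp only [TT, Set.mem_iUnion, exists_prop]

/-- a point of an open cell is in the tile only if the cell is -/
private theorem no_cell {q : Pl} {c : ℤ × ℤ} {y : Eu 2}
    (hc : (c.1 + c.2 - q.2.1 - q.2.2) % 2 = 1)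
    (h0 : (c.1 : ℝ) < y 0) (h0' : y 0 < c.1 + 1) (h1 : (c.2 : ℝ) < y 1) (h1' : y 1 < c.2 + 1) :
    y ∉ TT q := by
  rw [mem_TT]
  rintro ⟨f, hf, hy⟩
  have hp := par q.1 f hf
  obtain ⟨a1, a2, a3, a4⟩ := hy
  have e1 : (q.2 + f).1 = c.1 := by
    have b1 : (((q.2 + f).1 : ℤ) : ℝ) < ((c.1 + 1 : ℤ) : ℝ) := by push_cast at *; linarith
    have b2 : ((c.1 : ℤ) : ℝ) < (((q.2 + f).1 + 1 : ℤ) : ℝ) := by push_cast at *; linarith
    have b3 := Int.cast_lt.1 b1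
    have b4 := Int.cast_lt.1 b2
    omega
  have e2 : (q.2 + f).2 = c.2 := by
    have b1 : (((q.2 + f).2 : ℤ) : ℝ) < ((c.2 + 1 : ℤ) : ℝ) := by push_cast at *; linarith
    have b2 : ((c.2 : ℤ) : ℝ) < (((q.2 + f).2 + 1 : ℤ) : ℝ) := by push_cast at *; linarith
    have b3 := Int.cast_lt.1 b1
    have b4 := Int.cast_lt.1 b2
    omega
  have e3 : q.2.1 + f.1 = c.1 := e1
  have e4 : q.2.2 + f.2 = c.2 := e2
  omega

private theorem adj {a b : ℝ} (ha : -(1 / 2) ≤ a) (hb : a ≤ 1 / 2) (h : 0 < b) (h' : b < 1 / 2) :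
    ∃ e : ℝ, -(1 / 2) < a + e ∧ a + e < 1 / 2 ∧ e ^ 2 = b ^ 2 := by
  rcases le_total a 0 with h0 | h0
  · exact ⟨b, by linarith, by linarith, rfl⟩
  · exact ⟨-b, by linarith, by linarith, by ring⟩

/-- the centres of the cells -/
private theorem ctr_iff {q : Pl} {x : Eu 2} :
    Ctr (TT q) x ↔ ∃ f ∈ Fb q.1, x = cnt (q.2 + f) := by
  constructor
  · intro h
    have hx : x ∈ TT q := h x (by norm_num)
    rw [mem_TT] at hx
    obtain ⟨f, hf, a1, a2, a3, a4⟩ := hx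
    have hp := par q.1 f hf
    refine ⟨f, hf, ?_⟩
    obtain ⟨c, hc⟩ : ∃ c, c = q.2 + f := ⟨_, rfl⟩
    have c1 : c.1 = q.2.1 + f.1 := by rw [hc]; rfl
    have c2 : c.2 = q.2.2 + f.2 := by rw [hc]; rfl
    rw [← hc] at a1 a2 a3 a4 ⊢
    -- coordinates relative to the centre
    obtain ⟨u, hu⟩ : ∃ u, u = x 0 - (c.1 + 1 / 2) := ⟨_, rfl⟩
    obtain ⟨v, hv⟩ : ∃ v, v = x 1 - (c.2 + 1 / 2) := ⟨_, rfl⟩
    have x0 : x 0 = c.1 + 1 / 2 + u := by rw [hu]; ring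
    have x1 : x 1 = c.2 + 1 / 2 + v := by rw [hv]; ring
    have u1 : -(1 / 2) ≤ u := by linarith
    have u2 : u ≤ 1 / 2 := by linarith
    have v1 : -(1 / 2) ≤ v := by linarith
    have v2 : v ≤ 1 / 2 := by linarith
    have key : ∀ s t : ℝ, (s - u) ^ 2 + (t - v) ^ 2 < 1 / 4 →
        (WithLp.toLp 2 ![(c.1 : ℝ) + 1 / 2 + s, (c.2 : ℝ) + 1 / 2 + t] : Eu 2) ∈ TT q := by
      intro s t hst
      apply h
      show ((c.1 : ℝ) + 1 / 2 + s - x 0) ^ 2 + ((c.2 : ℝ) + 1 / 2 + t - x 1) ^ 2 < 1 / 4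
      rw [x0, x1]
      have e1 : (c.1 : ℝ) + 1 / 2 + s - (c.1 + 1 / 2 + u) = s - u := by ring
      have e2 : (c.2 : ℝ) + 1 / 2 + t - (c.2 + 1 / 2 + v) = t - v := by ring
      rw [e1, e2]
      exact hst
    have hu0 : u = 0 := by
      by_contra hne
      rcases lt_or_gt_of_ne hne with hlt | hgt
      · obtain ⟨e, he1, he2, he3⟩ := adj v1 v2 (b := -u / 4) (by linarith) (by linarith)
        have h1 := key (-(1 / 2) + u / 4) (v + e) (by
          have : v + e - v = e := by ring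
          rw [this, he3]
          nlinarith)
        refine no_cell (c := (c.1 - 1, c.2)) ?_ ?_ ?_ ?_ ?_ h1
        · show (c.1 - 1 + c.2 - q.2.1 - q.2.2) % 2 = 1
          omega
        · show ((c.1 - 1 : ℤ) : ℝ) < (c.1 : ℝ) + 1 / 2 + (-(1 / 2) + u / 4)
          push_cast
          linarith
        · show (c.1 : ℝ) + 1 / 2 + (-(1 / 2) + u / 4) < ((c.1 - 1 : ℤ) : ℝ) + 1
          push_cast
          linarith
        · show (c.2 : ℝ) < (c.2 : ℝ) + 1 / 2 + (v + e)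
          linarith
        · show (c.2 : ℝ) + 1 / 2 + (v + e) < (c.2 : ℝ) + 1
          linarith
      · obtain ⟨e, he1, he2, he3⟩ := adj v1 v2 (b := u / 4) (by linarith) (by linarith)
        have h1 := key (1 / 2 + u / 4) (v + e) (by
          have : v + e - v = e := by ring
          rw [this, he3]
          nlinarith)
        refine no_cell (c := (c.1 + 1, c.2)) ?_ ?_ ?_ ?_ ?_ h1
        · show (c.1 + 1 + c.2 - q.2.1 - q.2.2) % 2 = 1
          omega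
        · show ((c.1 + 1 : ℤ) : ℝ) < (c.1 : ℝ) + 1 / 2 + (1 / 2 + u / 4)
          push_cast
          linarith
        · show (c.1 : ℝ) + 1 / 2 + (1 / 2 + u / 4) < ((c.1 + 1 : ℤ) : ℝ) + 1
          push_cast
          linarith
        · show (c.2 : ℝ) < (c.2 : ℝ) + 1 / 2 + (v + e)
          linarith
        · show (c.2 : ℝ) + 1 / 2 + (v + e) < (c.2 : ℝ) + 1
          linarith
    have hv0 : v = 0 := by
      by_contra hne
      rcases lt_or_gt_of_ne hne with hlt | hgt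
      · obtain ⟨e, he1, he2, he3⟩ := adj u1 u2 (b := -v / 4) (by linarith) (by linarith)
        have h1 := key (u + e) (-(1 / 2) + v / 4) (by
          have : u + e - u = e := by ring
          rw [this, he3]
          nlinarith)
        refine no_cell (c := (c.1, c.2 - 1)) ?_ ?_ ?_ ?_ ?_ h1
        · show (c.1 + (c.2 - 1) - q.2.1 - q.2.2) % 2 = 1
          omega
        · show (c.1 : ℝ) < (c.1 : ℝ) + 1 / 2 + (u + e)
          linarith
        · show (c.1 : ℝ) + 1 / 2 + (u + e) < (c.1 : ℝ) + 1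
          linarith
        · show ((c.2 - 1 : ℤ) : ℝ) < (c.2 : ℝ) + 1 / 2 + (-(1 / 2) + v / 4)
          push_cast
          linarith
        · show (c.2 : ℝ) + 1 / 2 + (-(1 / 2) + v / 4) < ((c.2 - 1 : ℤ) : ℝ) + 1
          push_cast
          linarith
      · obtain ⟨e, he1, he2, he3⟩ := adj u1 u2 (b := v / 4) (by linarith) (by linarith)
        have h1 := key (u + e) (1 / 2 + v / 4) (by
          have : u + e - u = e := by ring
          rw [this, he3]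
          nlinarith)
        refine no_cell (c := (c.1, c.2 + 1)) ?_ ?_ ?_ ?_ ?_ h1
        · show (c.1 + (c.2 + 1) - q.2.1 - q.2.2) % 2 = 1
          omega
        · show (c.1 : ℝ) < (c.1 : ℝ) + 1 / 2 + (u + e)
          linarith
        · show (c.1 : ℝ) + 1 / 2 + (u + e) < (c.1 : ℝ) + 1
          linarith
        · show ((c.2 + 1 : ℤ) : ℝ) < (c.2 : ℝ) + 1 / 2 + (1 / 2 + v / 4)
          push_cast
          linarith
        · show (c.2 : ℝ) + 1 / 2 + (1 / 2 + v / 4) < ((c.2 + 1 : ℤ) : ℝ) + 1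
          push_cast
          linarith
    apply ext2
    · rw [cnt_zero, x0, hu0, add_zero]
    · rw [cnt_one, x1, hv0, add_zero]
  · rintro ⟨f, hf, rfl⟩ y hy
    rw [mem_TT]
    refine ⟨f, hf, ?_⟩
    rw [cnt_zero, cnt_one] at hy
    have h0 := abs_lt_of_sq_lt_sq (a := y 0 - (((q.2 + f).1 : ℝ) + 1 / 2)) (b := 1 / 2)
      (by nlinarith [sq_nonneg (y 1 - (((q.2 + f).2 : ℝ) + 1 / 2))]) (by norm_num)
    have h1 := abs_lt_of_sq_lt_sq (a := y 1 - (((q.2 + f).2 : ℝ) + 1 / 2)) (b := 1 / 2)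
      (by nlinarith [sq_nonneg (y 0 - (((q.2 + f).1 : ℝ) + 1 / 2))]) (by norm_num)
    rw [abs_lt] at h0 h1
    refine ⟨?_, ?_, ?_, ?_⟩ <;> linarith [h0.1, h0.2, h1.1, h1.2]

private theorem rt_add (p q : ℤ × ℤ) : rt (p + q) = rt p + rt q := by
  simp [rt]
  ring

private theorem rt_iter_add (k : ℕ) (p q : ℤ × ℤ) : rt^[k] (p + q) = rt^[k] p + rt^[k] q := by
  induction k with
  | zero => rfl
  | succ k ih =>
    rw [Function.iterate_succ_apply', Function.iterate_succ_apply', Function.iterate_succ_apply',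
      ih, rt_add]

private theorem gb_add (k : Fin 8) (p q : ℤ × ℤ) : gb k (p + q) = gb k p + gb k q := by
  unfold gb
  split_ifs
  · exact rt_iter_add _ _ _
  · exact rt_iter_add _ (p.2, p.1) (q.2, q.1)

private theorem Fb_mul : ∀ k g : Fin 8, Fb (mul k g) = (Fb g).map (gb k) := by decide +kernel

private theorem nb : ∀ g : Fin 8, (∃ f ∈ Fb g, f + (1, 1) ∈ Fb g) ∧ ∃ f ∈ Fb g, f + (1, -1) ∈ Fb g := by
  decide +kernel

private theorem inj_dec : ∀ g g' : Fin 8, ∀ f' ∈ Fb g',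
    (∀ f ∈ Fb g, f - ((Fb g).headD (0, 0) - f') ∈ Fb g') → g = g' ∧ f' = (Fb g).headD (0, 0) := by
  decide +kernel

private theorem head_mem : ∀ g : Fin 8, (Fb g).headD (0, 0) ∈ Fb g := by decide +kernel

private theorem pl_eq {q q' : Pl}
    (h : ∀ c : ℤ × ℤ, (∃ f ∈ Fb q.1, c = q.2 + f) → ∃ f ∈ Fb q'.1, c = q'.2 + f) : q = q' := by
  obtain ⟨f0, hf0⟩ : ∃ f0, f0 = (Fb q.1).headD (0, 0) := ⟨_, rfl⟩
  obtain ⟨f', hf', he⟩ := h (q.2 + f0) ⟨f0, by rw [hf0]; exact head_mem q.1, rfl⟩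
  have h1 := inj_dec q.1 q'.1 f' hf' (by
    intro f hf
    obtain ⟨f'', hf'', he'⟩ := h (q.2 + f) ⟨f, hf, rfl⟩
    rw [← hf0]
    have e1 : f'' = f - (f0 - f') := by
      have e2 : f'' = q.2 + f - q'.2 := by rw [he']; abel
      have e3 : q.2 = q'.2 + f' - f0 := by rw [← he]; abel
      rw [e2, e3]
      abel
    rw [← e1]
    exact hf'')
  rw [← hf0] at h1
  rw [h1.2] at he
  exact Prod.ext h1.1 (add_right_cancel he)

private theorem two_sq {m n : ℤ} (h : m ^ 2 + n ^ 2 = 2) : (m = 1 ∨ m = -1) ∧ (n = 1 ∨ n = -1) := by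
  have m1 : m ≤ 1 := by nlinarith [sq_nonneg n]
  have m2 : -1 ≤ m := by nlinarith [sq_nonneg n]
  have n1 : n ≤ 1 := by nlinarith [sq_nonneg m]
  have n2 : -1 ≤ n := by nlinarith [sq_nonneg m]
  interval_cases m <;> interval_cases n <;> simp_all

/-- the linear part is one of the eight isometries -/
private theorem lin_part (K : Eu 2 ≃ₗᵢ[ℝ] Eu 2) {a b : ℤ × ℤ} (ha : K (vec (1, 1)) = vec a)
    (hb : K (vec (1, -1)) = vec b) : ∃ k : Fin 8, ∀ p : ℤ × ℤ, K (vec p) = vec (gb k p) := by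
  obtain ⟨m, n⟩ := a
  obtain ⟨m', n'⟩ := b
  have hlin : ∀ p : ℤ × ℤ, K (vec p) = (((p.1 : ℝ) + p.2) / 2) • vec (m, n) +
      (((p.1 : ℝ) - p.2) / 2) • vec (m', n') := by
    intro p
    have e : vec p = (((p.1 : ℝ) + p.2) / 2) • vec (1, 1) + (((p.1 : ℝ) - p.2) / 2) • vec (1, -1) := by
      apply ext2
      · show (p.1 : ℝ) = ((p.1 : ℝ) + p.2) / 2 * ((1 : ℤ) : ℝ) + ((p.1 : ℝ) - p.2) / 2 * ((1 : ℤ) : ℝ)
        push_cast
        ring
      · show (p.2 : ℝ) = ((p.1 : ℝ) + p.2) / 2 * ((1 : ℤ) : ℝ) + ((p.1 : ℝ) - p.2) / 2 * ((-1 : ℤ) : ℝ)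
        push_cast
        ring
    rw [e, map_add, map_smul, map_smul, ha, hb]
  have hl0 : ∀ p : ℤ × ℤ, K (vec p) 0 = ((p.1 : ℝ) + p.2) / 2 * m + ((p.1 : ℝ) - p.2) / 2 * m' :=
    fun p => by rw [hlin p]; rfl
  have hl1 : ∀ p : ℤ × ℤ, K (vec p) 1 = ((p.1 : ℝ) + p.2) / 2 * n + ((p.1 : ℝ) - p.2) / 2 * n' :=
    fun p => by rw [hlin p]; rfl
  have hn : ∀ p : ℤ × ℤ, (K (vec p) 0) ^ 2 + (K (vec p) 1) ^ 2 = (p.1 : ℝ) ^ 2 + (p.2 : ℝ) ^ 2 := by
    intro p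
    rw [← nsq, K.norm_map, nsq]
    rfl
  have n1 : m ^ 2 + n ^ 2 = 2 := by
    have h := hn (1, 1)
    rw [hl0, hl1] at h
    push_cast at h
    have h2 : (m : ℝ) ^ 2 + (n : ℝ) ^ 2 = 2 := by linarith
    exact_mod_cast h2
  have n2 : m' ^ 2 + n' ^ 2 = 2 := by
    have h := hn (1, -1)
    rw [hl0, hl1] at h
    push_cast at h
    have h2 : (m' : ℝ) ^ 2 + (n' : ℝ) ^ 2 = 2 := by linarith
    exact_mod_cast h2
  have n3 : (m + m') ^ 2 + (n + n') ^ 2 = 4 := by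
    have h := hn (2, 0)
    rw [hl0, hl1] at h
    push_cast at h
    have h2 : ((m : ℝ) + m') ^ 2 + ((n : ℝ) + n') ^ 2 = 4 := by linarith
    exact_mod_cast h2
  have fin : ∀ k : Fin 8, (∀ p : ℤ × ℤ,
      ((p.1 : ℝ) + p.2) / 2 * m + ((p.1 : ℝ) - p.2) / 2 * m' = ((gb k p).1 : ℝ) ∧
      ((p.1 : ℝ) + p.2) / 2 * n + ((p.1 : ℝ) - p.2) / 2 * n' = ((gb k p).2 : ℝ)) →
      ∃ k : Fin 8, ∀ p : ℤ × ℤ, K (vec p) = vec (gb k p) := by
    intro k hk
    refine ⟨k, fun p => ext2 ?_ ?_⟩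
    · rw [hl0, (hk p).1]
      rfl
    · rw [hl1, (hk p).2]
      rfl
  have g0 : ∀ p : ℤ × ℤ, gb 0 p = (p.1, p.2) := fun p => rfl
  have g1 : ∀ p : ℤ × ℤ, gb 1 p = (-p.2, p.1) := fun p => rfl
  have g2 : ∀ p : ℤ × ℤ, gb 2 p = (-p.1, -p.2) := fun p => rfl
  have g3 : ∀ p : ℤ × ℤ, gb 3 p = (p.2, -p.1) := fun p => by
    show (-(-p.2), -p.1) = _
    rw [neg_neg]
  have g4 : ∀ p : ℤ × ℤ, gb 4 p = (p.2, p.1) := fun p => rfl
  have g5 : ∀ p : ℤ × ℤ, gb 5 p = (-p.1, p.2) := fun p => rfl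
  have g6 : ∀ p : ℤ × ℤ, gb 6 p = (-p.2, -p.1) := fun p => rfl
  have g7 : ∀ p : ℤ × ℤ, gb 7 p = (p.1, -p.2) := fun p => by
    show (-(-p.1), -p.2) = _
    rw [neg_neg]
  obtain ⟨hm, hn1⟩ := two_sq n1
  obtain ⟨hm', hn1'⟩ := two_sq n2
  clear hlin hl0 hl1 hn ha hb n1 n2
  rcases hm with rfl | rfl <;> rcases hn1 with rfl | rfl <;> rcases hm' with rfl | rfl <;>
    rcases hn1' with rfl | rfl <;>
    first
    | (exfalso; revert n3; norm_num; done)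
    | (refine fin 0 fun p => ?_; rw [g0]; constructor <;> push_cast <;> ring1)
    | (refine fin 1 fun p => ?_; rw [g1]; constructor <;> push_cast <;> ring1)
    | (refine fin 2 fun p => ?_; rw [g2]; constructor <;> push_cast <;> ring1)
    | (refine fin 3 fun p => ?_; rw [g3]; constructor <;> push_cast <;> ring1)
    | (refine fin 4 fun p => ?_; rw [g4]; constructor <;> push_cast <;> ring1)
    | (refine fin 5 fun p => ?_; rw [g5]; constructor <;> push_cast <;> ring1)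
    | (refine fin 6 fun p => ?_; rw [g6]; constructor <;> push_cast <;> ring1)
    | (refine fin 7 fun p => ?_; rw [g7]; constructor <;> push_cast <;> ring1)

theorem disc_of_isom {P P' : Set Pl} (h : Tiling P) (_ : Tiling P') (g : Eu 2 ≃ᵢ Eu 2)
    (hg : realize P' = (fun A => g '' A) '' realize P) :
    ∃ (k : Fin 8) (z : ℤ × ℤ), P' = act k z '' P := by
  -- images of centres
  have himg : ∀ q q' : Pl, TT q' = g '' TT q → ∀ f ∈ Fb q.1, ∃ f' ∈ Fb q'.1,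
      g (cnt (q.2 + f)) = cnt (q'.2 + f') := by
    intro q q' hqq f hf
    apply ctr_iff.1
    rw [hqq, ctr_image]
    exact ctr_iff.2 ⟨f, hf, rfl⟩
  have hex : ∀ q ∈ P, ∃ q' ∈ P', TT q' = g '' TT q := by
    intro q hq
    have h1 : g '' TT q ∈ realize P' := by
      rw [hg]
      exact ⟨TT q, ⟨q, hq, rfl⟩, rfl⟩
    obtain ⟨q', h2, hq'⟩ := h1
    exact ⟨q', h2, hq'⟩
  obtain ⟨q0, ⟨hq0, _⟩, _⟩ := h (0, 0)
  obtain ⟨q0', _, hq0'⟩ := hex q0 hq0
  obtain ⟨K, hK⟩ : ∃ K : Eu 2 ≃ₗᵢ[ℝ] Eu 2, ∀ x v : Eu 2, g (x + v) = g x + K v :=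
    ⟨_, fun x v => isom_add g x v⟩
  have hdiff : ∀ f ∈ Fb q0.1, ∀ v : ℤ × ℤ, f + v ∈ Fb q0.1 → ∃ w : ℤ × ℤ, K (vec v) = vec w := by
    intro f hf v hfv
    obtain ⟨f1, _, h1⟩ := himg q0 q0' hq0' f hf
    obtain ⟨f2, _, h2⟩ := himg q0 q0' hq0' (f + v) hfv
    refine ⟨f2 - f1, ?_⟩
    rw [← add_assoc, cnt_add, hK, h1] at h2
    have e : q0'.2 + f2 = q0'.2 + f1 + (f2 - f1) := by abel
    rw [e, cnt_add (q0'.2 + f1)] at h2
    exact add_left_cancel h2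
  obtain ⟨⟨f1, hf1, hf1'⟩, f2, hf2, hf2'⟩ := nb q0.1
  obtain ⟨a, ha⟩ := hdiff f1 hf1 _ hf1'
  obtain ⟨b, hb⟩ := hdiff f2 hf2 _ hf2'
  obtain ⟨k, hk⟩ := lin_part K ha hb
  obtain ⟨f3, _, h3⟩ := himg q0 q0' hq0' f1 hf1
  obtain ⟨z, hz⟩ : ∃ z, z = q0'.2 + f3 - gb k (q0.2 + f1) := ⟨_, rfl⟩
  have hcnt : ∀ c : ℤ × ℤ, g (cnt c) = cnt (gb k c + z) := by
    intro c
    obtain ⟨v, hv⟩ : ∃ v, v = c - (q0.2 + f1) := ⟨_, rfl⟩
    have e1 : c = q0.2 + f1 + v := by rw [hv]; abel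
    rw [e1, cnt_add, hK, h3, hk, ← cnt_add, gb_add, hz]
    congr 1
    abel
  have hact : ∀ q q' : Pl, TT q' = g '' TT q → q' = act k z q := by
    intro q q' hqq
    apply pl_eq
    rintro c ⟨f', hf', rfl⟩
    have h1 : Ctr (TT q') (cnt (q'.2 + f')) := ctr_iff.2 ⟨f', hf', rfl⟩
    rw [hqq] at h1
    rw [← g.apply_symm_apply (cnt (q'.2 + f')), ctr_image, ctr_iff] at h1
    obtain ⟨f, hf, h2⟩ := h1
    have h4 : cnt (q'.2 + f') = cnt (gb k (q.2 + f) + z) := by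
      rw [← hcnt, ← h2, g.apply_symm_apply]
    have h5 := cnt_inj h4
    refine ⟨gb k f, ?_, ?_⟩
    · show gb k f ∈ Fb (mul k q.1)
      rw [Fb_mul]
      exact List.mem_map.2 ⟨f, hf, rfl⟩
    · show q'.2 + f' = gb k q.2 + z + gb k f
      rw [h5, gb_add]
      abel
  refine ⟨k, z, ?_⟩
  ext q'
  constructor
  · intro hq'
    have h1 : TT q' ∈ (fun A => g '' A) '' realize P := by
      rw [← hg]
      exact ⟨q', hq', rfl⟩
    obtain ⟨_, ⟨q, hq, rfl⟩, he⟩ := h1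
    exact ⟨q, hq, (hact q q' he.symm).symm⟩
  · rintro ⟨q, hq, rfl⟩
    obtain ⟨q', hq', he⟩ := hex q hq
    rw [← hact q q' he]
    exact hq'

end AlefS
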