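import Pool.Agent.AlefS.Defs
import Pool.Agent.AlefC.Cells

/-!
# The fourteen squares of the tile
-/

set_option autoImplicit false

namespace AlefS

open TilDich

theorem mem_T0 (S : Finset (ℤ × ℤ)) (h1 : ∀ f ∈ F0, f ∈ S) (h2 : ∀ c ∈ S, c ∈ F0) (x : Eu 2) :
    x ∈ T0 ↔ ∃ c ∈ S, (c.1 : ℝ) ≤ x 0 ∧ x 0 ≤ c.1 + 1 ∧ (c.2 : ℝ) ≤ x 1 ∧ x 1 ≤ c.2 + 1 := by
  have hF : Fb 0 = F0 := by decide +kernel
  have e : ∀ f : ℤ × ℤ, ((0, 0) : ℤ × ℤ) + f = f := fun f => by ext <;> simp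
  simp only [T0, TT, hF, Set.mem_iUnion, exists_prop, e]
  constructor
  · rintro ⟨f, hf, h⟩
    exact ⟨f, h1 f hf, h⟩
  · rintro ⟨c, hc, h⟩
    exact ⟨c, h2 c hc, h⟩

end AlefS
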