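import Pool.Agent.AlefS.CkrS

/-!
# Certificates: local rules of the exact covers of the small grid
-/

set_option autoImplicit false

namespace AlefS.S

theorem ra1 : chkP [(0, (0, 0))]
    [(0, (4, 2)), (7, (-4, -2))]
    [1064, 1125, 935, 937, 874, 876, 996, 931, 1130, 1192, 1192, 1192, 1192, 1192, 1192, 1130,
      1192, 1192, 1192, 1192, 1192, 1192, 867, 1130, 1192, 1192, 1192, 1192, 1192, 1192, 996, 996,
      1192, 935, 937, 874, 876, 996, 931, 1130, 1192, 1192, 1192, 1192, 1192, 1192, 1130, 1192,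
      1192, 1192, 1192, 1192, 1192, 867, 1130, 1192, 1192, 1192, 1192, 1192, 1192, 996, 996, 1127,
      1062, 1255, 1318, 1061, 870, 1062, 1125, 1192, 1188, 1192, 1192, 1256, 1192, 1192] = true := by
  decide +kernel

theorem ra2 : chkP [(0, (0, 0))]
    [(0, (4, 2)), (7, (-2, 2))]
    [1064, 1002, 1125, 1130, 1257, 1192, 1257, 1192, 1257, 1192, 1192, 1130, 1257, 1192, 1257,
      1192, 1257, 1192, 1068, 1068, 1130, 1002, 1195, 1195, 1002, 1125, 1192, 1130, 1257, 1192,
      1257, 1192, 1257, 1192, 1192, 1068, 1068] = true := by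
  decide +kernel

theorem rb1 : chkP [(0, (0, 0)), (0, (4, 2))]
    [(0, (8, 4))]
    [1195, 1132, 1134, 1071, 1128, 1192, 1383, 1388, 1450, 1450, 1450, 1450, 1450, 1450, 1450,
      1388, 1450, 1450, 1450, 1450, 1450, 1450, 1383, 1450, 1446, 1450, 1450, 1388, 1450, 1450,
      1192, 1383, 1388, 1450, 1450, 1450, 1450, 1450, 1450, 1450, 1388, 1450, 1450, 1450, 1450,
      1450, 1450, 1383, 1450, 1446, 1450, 1450, 1388, 1450, 1450] = true := by
  decide +kernel

theorem rb2 : chkP [(0, (0, 0)), (0, (4, 2))]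
    [(0, (-4, -2))]
    [1064, 935, 808, 806, 869, 935, 808, 806, 869] = true := by
  decide +kernel

theorem rc : chkP [(0, (0, 0)), (0, (4, 2))]
    [(0, (-1, 3))]
    [1195, 1132] = true := by
  decide +kernel

theorem rc2 : chkP [(2, (0, 0)), (2, (4, 2))]
    [(2, (1, -3))]
    [1063] = true := by
  decide +kernel

theorem rd : chkP [(0, (0, 0)), (0, (4, 2))]
    [(0, (1, -3)), (7, (2, -2))]
    [1064] = true := by
  decide +kernel

theorem re1 : chkP [(0, (0, 0)), (0, (4, 2)), (7, (2, -2))]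
    [(7, (6, 0))]
    [1192, 1125, 1188] = true := by
  decide +kernel

theorem re2 : chkP [(0, (0, 0)), (0, (4, 2)), (7, (2, -2))]
    [(7, (-2, -4))]
    [1195, 1132, 1192, 1125, 1188, 1125, 1188, 996, 931, 935] = true := by
  decide +kernel

theorem re3 : chkP [(0, (0, 0)), (0, (4, 2)), (7, (2, -2))]
    [(5, (1, -6))]
    [1125, 1191, 1191] = true := by
  decide +kernel

theorem re4 : chkP [(0, (0, 0)), (0, (4, 2)), (7, (2, -2))]
    [(2, (3, -8))]
    [1191, 1125, 1188, 1125, 1188, 1186] = true := by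
  decide +kernel

end AlefS.S
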