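import Pool.Agent.AlefS.SymS
import Pool.Agent.AlefT.Chk

/-!
# The checker for the small grid
-/

set_option autoImplicit false

namespace AlefS.S

open AlefS AlefT.H0

/-! ### the checker -/

/-- linear code of a cell -/
def lamP (p : ℤ × ℤ) : ℤ := 64 * p.1 + p.2

/-- mask of a placement -/
def mkP (q : Pl) : ℕ := bits ((Fs q.1).map fun f => (lamP (q.2 + f) + 2050).toNat)

/-- identifier of a placement -/
def idnP (q : Pl) : ℕ := 8192 * q.1.val + (lamP q.2 + 2050).toNat

/-- the 112 placements covering the cell with code 0, as relative masks -/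
def KtP : List (ℕ × ℕ) :=
  (List.finRange 8).flatMap fun g => (Fs g).map fun f =>
    (bits ((Fs g).map fun f' => (lamP f' - lamP f + 1050).toNat), 8192 * g.val + (1050 - lamP f).toNat)

/-- shifting a table of relative masks -/
def shf (c : ℕ) : List (ℕ × ℕ) → List (ℕ × ℕ)
  | [] => []
  | t :: l => (t.1 <<< c, t.2 + c) :: shf c l

theorem mem_shf (c : ℕ) (l : List (ℕ × ℕ)) (t : ℕ × ℕ) :
    t ∈ shf c l ↔ ∃ s ∈ l, t = (s.1 <<< c, s.2 + c) := by
  induction l with
  | nil => simp [shf]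
  | cons a l ih =>
    rw [shf, List.mem_cons, ih]
    simp

/-- all coordinates at most `n` -/
def bx (n : ℤ) (p : ℤ × ℤ) : Prop := -n ≤ p.1 ∧ p.1 ≤ n ∧ -n ≤ p.2 ∧ p.2 ≤ n

instance (n : ℤ) (p : ℤ × ℤ) : Decidable (bx n p) := by unfold bx; infer_instance

theorem lam_inj {p q : ℤ × ℤ} (hp : bx 31 p) (hq : bx 31 q) (h : lamP p = lamP q) : p = q := by
  unfold bx at hp hq
  unfold lamP at h
  ext
  · omega
  · omega

theorem lam_nonneg {p : ℤ × ℤ} (hp : bx 31 p) : 0 ≤ lamP p + 2050 ∧ lamP p + 2050 < 8192 := by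
  unfold bx at hp
  unfold lamP
  omega

theorem bx_add {g : Fin 8} {p f : ℤ × ℤ} (hp : bx 23 p) (hf : f ∈ Fs g) : bx 31 (p + f) := by
  have := Fs_bound g f hf
  unfold bx at *
  simp only [Prod.fst_add, Prod.snd_add]
  omega

/-- codes of valid cells -/
def vldP (c : ℕ) : Prop := ∃ p : ℤ × ℤ, bx 15 p ∧ (c : ℤ) = lamP p + 1000

/-- Boolean test for valid codes -/
def vldbP (c : ℕ) : Bool :=
  Nat.ble (c / 64) 30 && (Nat.ble 25 (c % 64) && Nat.ble (c % 64) 55)

theorem vldP_of {c : ℕ} (h : vldbP c = true) : vldP c := by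
  unfold vldbP at h
  simp only [Bool.and_eq_true, Nat.ble_eq] at h
  refine ⟨((c / 64 : ℕ) - 15, (c % 64 : ℕ) - 40), ?_, ?_⟩
  · unfold bx
    simp only
    omega
  · unfold lamP
    simp only
    omega

theorem planeP_sound {P : Set Pl} (hP : TilingS P) (FP : List Pl) (hFbx : ∀ q ∈ FP, bx 31 q.2)
    (hF : ∀ q ∈ FP, q ∉ P) (cert st : List ℕ) (hc : ∀ c ∈ cert, vldbP c = true)
    (hr : run (fun c => shf c KtP) 1050 (FP.map idnP) cert st = true)
    (occ : ℕ) (hocc : occ ∈ st) (L : List Pl) (hL : ∀ q ∈ L, q ∈ P ∧ bx 23 q.2)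
    (h : occ = uni (L.map mkP)) : False := by
  set Tr : Set ℕ := {m | ∃ q ∈ P, bx 23 q.2 ∧ m = mkP q} with hTr
  refine run_sound _ 1050 (FP.map idnP) Tr vldP ?_ ?_ cert st (fun c hcc => vldP_of (hc c hcc)) hr
    occ hocc (L.map mkP) ?_ h
  · rintro c ⟨p, hp, hcp⟩
    obtain ⟨q, ⟨hq, hqc⟩, _⟩ := hP p
    set f := p - q.2 with hf
    have hfb := Fs_bound q.1 f hqc
    have hq2 : q.2 = p - f := by rw [hf]; abel
    have hqb : bx 23 q.2 := by
      rw [hq2]
      unfold bx at *
      simp only [Prod.fst_sub, Prod.snd_sub]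
      omega
    have hlam : ∀ x y : ℤ × ℤ, lamP (x + y) = lamP x + lamP y := by
      intro x y; unfold lamP; simp only [Prod.fst_add, Prod.snd_add]; ring
    have hlams : ∀ x y : ℤ × ℤ, lamP (x - y) = lamP x - lamP y := by
      intro x y; unfold lamP; simp only [Prod.fst_sub, Prod.snd_sub]; ring
    have hmk : mkP q = bits ((Fs q.1).map fun f' => (lamP f' - lamP f + 1050).toNat) <<< c := by
      rw [bits_shift, List.map_map]
      unfold mkP
      congr 1
      apply List.map_congr_left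
      intro f' hf'
      have hb := lam_nonneg (bx_add hqb hf')
      have hfb' := Fs_bound q.1 f' hf'
      show (lamP (q.2 + f') + 2050).toNat = (lamP f' - lamP f + 1050).toNat + c
      have e1 : lamP (q.2 + f') = (c : ℤ) - 1000 - lamP f + lamP f' := by
        rw [hlam, hq2, hlams, hcp]; ring
      have e2 : 0 ≤ lamP f' - lamP f + 1050 := by
        unfold lamP; omega
      rw [e1] at hb ⊢
      omega
    have hid : idnP q = 8192 * q.1.val + (1050 - lamP f).toNat + c := by
      unfold idnP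
      have e1 : lamP q.2 = (c : ℤ) - 1000 - lamP f := by
        rw [hq2, hlams, hcp]; ring
      have e2 : 0 ≤ 1050 - lamP f := by unfold lamP; omega
      have hb : bx 31 q.2 := by unfold bx at *; omega
      have hb' := lam_nonneg hb
      rw [e1] at hb' ⊢
      omega
    refine ⟨(mkP q, idnP q), ?_, ⟨q, hq, hqb, rfl⟩, ?_, ?_⟩
    · rw [mem_shf]
      refine ⟨(bits ((Fs q.1).map fun f' => (lamP f' - lamP f + 1050).toNat),
        8192 * q.1.val + (1050 - lamP f).toNat), ?_, ?_⟩
      · unfold KtP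
        rw [List.mem_flatMap]
        exact ⟨q.1, List.mem_finRange _, List.mem_map.mpr ⟨f, hqc, rfl⟩⟩
      · rw [hmk, hid]
    · intro hmem
      obtain ⟨q0, hq0, he⟩ := List.mem_map.mp hmem
      have hb0 := lam_nonneg (hFbx q0 hq0)
      have hb : bx 31 q.2 := by unfold bx at *; omega
      have hb' := lam_nonneg hb
      unfold idnP at he
      have e1 : q0.1.val = q.1.val := by omega
      have e2 : lamP q0.2 = lamP q.2 := by omega
      have : q0 = q := Prod.ext (Fin.ext e1) (lam_inj (hFbx q0 hq0) hb e2)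
      exact hF q0 hq0 (this ▸ hq)
    · unfold mkP
      rw [testBit_bits, List.mem_map]
      refine ⟨f, hqc, ?_⟩
      rw [hq2, sub_add_cancel]
      omega
  · rintro m ⟨q, hq, hqb, rfl⟩ m' ⟨q', hq', hqb', rfl⟩ hne
    obtain ⟨i, hi, hi'⟩ := exists_bit hne
    unfold mkP at hi hi'
    rw [testBit_bits, List.mem_map] at hi hi'
    obtain ⟨f, hf, hfi⟩ := hi
    obtain ⟨f', hf', hfi'⟩ := hi'
    have b1 := lam_nonneg (bx_add hqb hf)
    have b2 := lam_nonneg (bx_add hqb' hf')
    have : q.2 + f = q'.2 + f' := by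
      refine lam_inj (bx_add hqb hf) (bx_add hqb' hf') ?_
      omega
    rw [hP.eq_of_common hq hq' hf hf' this]
  · intro m hm
    obtain ⟨q, hq, rfl⟩ := List.mem_map.mp hm
    exact ⟨q, (hL q hq).1, (hL q hq).2, rfl⟩

/-- the Boolean check of one refutation -/
def chkP (L FP : List Pl) (cert : List ℕ) : Bool :=
  L.all (fun q => decide (bx 23 q.2)) && FP.all (fun q => decide (bx 31 q.2)) &&
    (cert.all vldbP && run (fun c => shf c KtP) 1050 (FP.map idnP) cert [uni (L.map mkP)])

theorem refuteP {L FP : List Pl} {cert : List ℕ} (h : chkP L FP cert = true) {P : Set Pl}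
    (hP : TilingS P) (hL : ∀ q ∈ L, q ∈ P) (hF : ∀ q ∈ FP, q ∉ P) : False := by
  unfold chkP at h
  simp only [Bool.and_eq_true, List.all_eq_true, decide_eq_true_eq] at h
  obtain ⟨⟨h1, h2⟩, h3, h4⟩ := h
  exact planeP_sound hP FP h2 hF cert _ h3 h4 _ List.mem_cons_self L
    (fun q hq => ⟨hL q hq, h1 q hq⟩) rfl

end AlefS.S
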