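import Pool.Agent.AlefS.Cells

/-!
# The complement of a finite union of unit squares without holes is connected
-/

set_option autoImplicit false

namespace AlefS

open TilDich

/-- union of closed unit squares -/
def un (S : Finset (ℤ × ℤ)) : Set (Eu 2) :=
  {x | ∃ c ∈ S, (c.1 : ℝ) ≤ x 0 ∧ x 0 ≤ c.1 + 1 ∧ (c.2 : ℝ) ≤ x 1 ∧ x 1 ≤ c.2 + 1}

/-- point with given coordinates -/
def pt (a b : ℝ) : Eu 2 := WithLp.toLp 2 ![a, b]

/-- centre of a cell -/
noncomputable def ce (p : ℤ × ℤ) : Eu 2 := pt (p.1 + 1 / 2) (p.2 + 1 / 2)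

theorem pt0 (a b : ℝ) : (pt a b) 0 = a := rfl

theorem pt1 (a b : ℝ) : (pt a b) 1 = b := rfl

theorem seg_coord {x z y : Eu 2} (h : y ∈ segment ℝ x z) : ∃ a b : ℝ, 0 ≤ a ∧ 0 ≤ b ∧ a + b = 1 ∧
    y 0 = a * x 0 + b * z 0 ∧ y 1 = a * x 1 + b * z 1 := by
  obtain ⟨a, b, ha, hb, hab, rfl⟩ := h
  exact ⟨a, b, ha, hb, hab, rfl, rfl⟩

theorem to_centre {S : Finset (ℤ × ℤ)} {x : Eu 2} (hx : x ∉ un S) :
    (⌊x 0⌋, ⌊x 1⌋) ∉ S ∧ JoinedIn (un S)ᶜ x (ce (⌊x 0⌋, ⌊x 1⌋)) := by
  have i1 := Int.floor_le (x 0)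
  have i2 := Int.lt_floor_add_one (x 0)
  have j1 := Int.floor_le (x 1)
  have j2 := Int.lt_floor_add_one (x 1)
  generalize ⌊x 0⌋ = i at *
  generalize ⌊x 1⌋ = j at *
  have hS : (i, j) ∉ S := fun h => hx ⟨(i, j), h, i1, i2.le, j1, j2.le⟩
  refine ⟨hS, JoinedIn.of_segment_subset ?_⟩
  rintro y hy ⟨c, hc, h1, h2, h3, h4⟩
  obtain ⟨a, b, ha, hb, hab, y0, y1⟩ := seg_coord hy
  rw [ce, pt0] at y0
  rw [ce, pt1] at y1
  simp only at y0 y1
  rcases hb.lt_or_eq with hb' | hb'
  · have ha' : a = 1 - b := by linarith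
    have k1 : (i : ℝ) < y 0 := by
      rw [y0, ha']
      nlinarith
    have k2 : y 0 < i + 1 := by
      rw [y0, ha']
      nlinarith
    have k3 : (j : ℝ) < y 1 := by
      rw [y1, ha']
      nlinarith
    have k4 : y 1 < j + 1 := by
      rw [y1, ha']
      nlinarith
    have m1 : c.1 < i + 1 := by
      have : (c.1 : ℝ) < ((i + 1 : ℤ) : ℝ) := by
        push_cast
        linarith
      exact_mod_cast this
    have m2 : i < c.1 + 1 := by
      have : (i : ℝ) < ((c.1 + 1 : ℤ) : ℝ) := by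
        push_cast
        linarith
      exact_mod_cast this
    have m3 : c.2 < j + 1 := by
      have : (c.2 : ℝ) < ((j + 1 : ℤ) : ℝ) := by
        push_cast
        linarith
      exact_mod_cast this
    have m4 : j < c.2 + 1 := by
      have : (j : ℝ) < ((c.2 + 1 : ℤ) : ℝ) := by
        push_cast
        linarith
      exact_mod_cast this
    have e : c = (i, j) := by
      ext
      · show c.1 = i
        omega
      · show c.2 = j
        omega
    rw [e] at hc
    exact hS hc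
  · have ha' : a = 1 := by linarith
    rw [← hb', ha'] at y0 y1
    apply hx
    refine ⟨c, hc, ?_, ?_, ?_, ?_⟩ <;> linarith

theorem step_aux {S : Finset (ℤ × ℤ)} {p q : ℤ × ℤ} (hp : p ∉ S) (hq : q ∉ S)
    (h : (q.1 = p.1 + 1 ∧ q.2 = p.2) ∨ (q.1 = p.1 ∧ q.2 = p.2 + 1)) :
    JoinedIn (un S)ᶜ (ce p) (ce q) := by
  apply JoinedIn.of_segment_subset
  rintro y hy ⟨c, hc, h1, h2, h3, h4⟩
  obtain ⟨a, b, ha, hb, hab, y0, y1⟩ := seg_coord hy
  rw [ce, ce, pt0, pt0] at y0
  rw [ce, ce, pt1, pt1] at y1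
  have ha' : a = 1 - b := by linarith
  rcases h with ⟨e1, e2⟩ | ⟨e1, e2⟩
  · rw [e1, ha'] at y0
    rw [e2, ha'] at y1
    push_cast at y0
    have k0 : y 0 = p.1 + 1 / 2 + b := by rw [y0]; ring
    have k1 : y 1 = p.2 + 1 / 2 := by rw [y1]; ring
    have m1 : c.1 < p.1 + 2 := by
      have : (c.1 : ℝ) < ((p.1 + 2 : ℤ) : ℝ) := by
        push_cast
        linarith
      exact_mod_cast this
    have m2 : p.1 < c.1 + 1 := by
      have : (p.1 : ℝ) < ((c.1 + 1 : ℤ) : ℝ) := by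
        push_cast
        linarith
      exact_mod_cast this
    have m3 : c.2 < p.2 + 1 := by
      have : (c.2 : ℝ) < ((p.2 + 1 : ℤ) : ℝ) := by
        push_cast
        linarith
      exact_mod_cast this
    have m4 : p.2 < c.2 + 1 := by
      have : (p.2 : ℝ) < ((c.2 + 1 : ℤ) : ℝ) := by
        push_cast
        linarith
      exact_mod_cast this
    have e : c = p ∨ c = q := by
      by_cases hh : c.1 = p.1
      · left
        ext
        · exact hh
        · omega
      · right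
        ext
        · omega
        · omega
    rcases e with rfl | rfl
    · exact hp hc
    · exact hq hc
  · rw [e1, ha'] at y0
    rw [e2, ha'] at y1
    push_cast at y1
    have k0 : y 0 = p.1 + 1 / 2 := by rw [y0]; ring
    have k1 : y 1 = p.2 + 1 / 2 + b := by rw [y1]; ring
    have m1 : c.1 < p.1 + 1 := by
      have : (c.1 : ℝ) < ((p.1 + 1 : ℤ) : ℝ) := by
        push_cast
        linarith
      exact_mod_cast this
    have m2 : p.1 < c.1 + 1 := by
      have : (p.1 : ℝ) < ((c.1 + 1 : ℤ) : ℝ) := by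
        push_cast
        linarith
      exact_mod_cast this
    have m3 : c.2 < p.2 + 2 := by
      have : (c.2 : ℝ) < ((p.2 + 2 : ℤ) : ℝ) := by
        push_cast
        linarith
      exact_mod_cast this
    have m4 : p.2 < c.2 + 1 := by
      have : (p.2 : ℝ) < ((c.2 + 1 : ℤ) : ℝ) := by
        push_cast
        linarith
      exact_mod_cast this
    have e : c = p ∨ c = q := by
      by_cases hh : c.2 = p.2
      · left
        ext
        · omega
        · exact hh
      · right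
        ext
        · omega
        · omega
    rcases e with rfl | rfl
    · exact hp hc
    · exact hq hc

/-- adjacent cells -/
def adj (p q : ℤ × ℤ) : Prop :=
  ((q.1 = p.1 + 1 ∧ q.2 = p.2) ∨ (q.1 = p.1 ∧ q.2 = p.2 + 1)) ∨
    ((p.1 = q.1 + 1 ∧ p.2 = q.2) ∨ (p.1 = q.1 ∧ p.2 = q.2 + 1))

instance (p q : ℤ × ℤ) : Decidable (adj p q) := by
  unfold adj
  infer_instance

theorem step {S : Finset (ℤ × ℤ)} {p q : ℤ × ℤ} (hp : p ∉ S) (hq : q ∉ S) (h : adj p q) :
    JoinedIn (un S)ᶜ (ce p) (ce q) := by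
  rcases h with h | h
  · exact step_aux hp hq h
  · exact (step_aux hq hp h).symm

/-- cells outside of the box `[a, b) × [c, d)` -/
def outb (a b c d : ℤ) (p : ℤ × ℤ) : Prop := p.1 < a ∨ b ≤ p.1 ∨ p.2 < c ∨ d ≤ p.2

theorem ce_mem {S : Finset (ℤ × ℤ)} {p : ℤ × ℤ} (h0 : p ∉ S) : ce p ∈ (un S)ᶜ := by
  rintro ⟨q, hq, h1, h2, h3, h4⟩
  rw [ce, pt0] at h1 h2
  rw [ce, pt1] at h3 h4
  have m1 : q.1 < p.1 + 1 := by
    have : (q.1 : ℝ) < ((p.1 + 1 : ℤ) : ℝ) := by
      push_cast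
      linarith
    exact_mod_cast this
  have m2 : p.1 < q.1 + 1 := by
    have : (p.1 : ℝ) < ((q.1 + 1 : ℤ) : ℝ) := by
      push_cast
      linarith
    exact_mod_cast this
  have m3 : q.2 < p.2 + 1 := by
    have : (q.2 : ℝ) < ((p.2 + 1 : ℤ) : ℝ) := by
      push_cast
      linarith
    exact_mod_cast this
  have m4 : p.2 < q.2 + 1 := by
    have : (p.2 : ℝ) < ((q.2 + 1 : ℤ) : ℝ) := by
      push_cast
      linarith
    exact_mod_cast this
  have e : q = p := by
    ext <;> omega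
  rw [e] at hq
  exact h0 hq

theorem vert {S : Finset (ℤ × ℤ)} {x : ℤ} (h0 : ∀ y : ℤ, (x, y) ∉ S) (y y' : ℤ) :
    JoinedIn (un S)ᶜ (ce (x, y)) (ce (x, y')) := by
  have up : ∀ (n : ℕ) (y : ℤ), JoinedIn (un S)ᶜ (ce (x, y)) (ce (x, y + n)) := by
    intro n
    induction n with
    | zero =>
      intro y
      have e : y + ((0 : ℕ) : ℤ) = y := by simp
      rw [e]
      exact JoinedIn.refl (ce_mem (h0 _))
    | succ n ih =>
      intro y
      refine (ih y).trans (step (h0 _) (h0 _) (Or.inl (Or.inr ⟨rfl, ?_⟩)))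
      show y + ((n + 1 : ℕ) : ℤ) = y + n + 1
      push_cast
      ring
  rcases le_total y y' with h | h
  · have := up (y' - y).toNat y
    rwa [Int.toNat_of_nonneg (by omega), add_sub_cancel] at this
  · have := up (y - y').toNat y'
    rw [Int.toNat_of_nonneg (by omega), add_sub_cancel] at this
    exact this.symm

theorem hori {S : Finset (ℤ × ℤ)} {y : ℤ} (h0 : ∀ x : ℤ, (x, y) ∉ S) (x x' : ℤ) :
    JoinedIn (un S)ᶜ (ce (x, y)) (ce (x', y)) := by
  have up : ∀ (n : ℕ) (x : ℤ), JoinedIn (un S)ᶜ (ce (x, y)) (ce (x + n, y)) := by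
    intro n
    induction n with
    | zero =>
      intro x
      have e : x + ((0 : ℕ) : ℤ) = x := by simp
      rw [e]
      exact JoinedIn.refl (ce_mem (h0 _))
    | succ n ih =>
      intro x
      refine (ih x).trans (step (h0 _) (h0 _) (Or.inl (Or.inl ⟨?_, rfl⟩)))
      show x + ((n + 1 : ℕ) : ℤ) = x + n + 1
      push_cast
      ring
  rcases le_total x x' with h | h
  · have := up (x' - x).toNat x
    rwa [Int.toNat_of_nonneg (by omega), add_sub_cancel] at this
  · have := up (x - x').toNat x'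
    rw [Int.toNat_of_nonneg (by omega), add_sub_cancel] at this
    exact this.symm

theorem outside {S : Finset (ℤ × ℤ)} {a b c d : ℤ} (hS : ∀ p, outb a b c d p → p ∉ S)
    {p : ℤ × ℤ} (hp : outb a b c d p) : JoinedIn (un S)ᶜ (ce p) (ce (b, d)) := by
  obtain ⟨x, y⟩ := p
  have hb : ∀ y : ℤ, (b, y) ∉ S := fun y => hS _ (Or.inr (Or.inl le_rfl))
  have hd : ∀ x : ℤ, (x, d) ∉ S := fun x => hS _ (Or.inr (Or.inr (Or.inr le_rfl)))
  rcases hp with h | h | h | h
  · exact (vert (fun y => hS _ (Or.inl h)) y d).trans (hori hd x b)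
  · exact (vert (fun y => hS _ (Or.inr (Or.inl h))) y d).trans (hori hd x b)
  · exact (hori (fun x => hS _ (Or.inr (Or.inr (Or.inl h)))) x b).trans (vert hb y d)
  · exact (hori (fun x => hS _ (Or.inr (Or.inr (Or.inr h)))) x b).trans (vert hb y d)

/-- every cell of the list has a neighbour which is later in the list or outside of the box -/
def chainc (a b c d : ℤ) : List (ℤ × ℤ) → Prop
  | [] => True
  | p :: L => ((∃ q ∈ L, adj p q) ∨ ∃ q ∈ [(p.1 + 1, p.2), (p.1 - 1, p.2), (p.1, p.2 + 1),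
      (p.1, p.2 - 1)], outb a b c d q) ∧ chainc a b c d L

instance (a b c d : ℤ) (p : ℤ × ℤ) : Decidable (outb a b c d p) := by
  unfold outb
  infer_instance

instance chaincDec (a b c d : ℤ) : ∀ L, Decidable (chainc a b c d L)
  | [] => isTrue trivial
  | p :: L => by
    have := chaincDec a b c d L
    unfold chainc
    infer_instance

theorem chainc_join {S : Finset (ℤ × ℤ)} {a b c d : ℤ} (hS : ∀ p, outb a b c d p → p ∉ S) :
    ∀ L : List (ℤ × ℤ), chainc a b c d L → (∀ p ∈ L, p ∉ S) →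
      ∀ p ∈ L, JoinedIn (un S)ᶜ (ce p) (ce (b, d))
  | [], _, _ => by simp
  | p :: L, h, hL => by
    have ih := chainc_join hS L h.2 fun q hq => hL q (List.mem_cons_of_mem _ hq)
    have hp := hL p List.mem_cons_self
    intro q hq
    rcases List.mem_cons.1 hq with rfl | hq
    · rcases h.1 with ⟨r, hr, ha⟩ | ⟨r, hr, ho⟩
      · exact (step hp (hL r (List.mem_cons_of_mem _ hr)) ha).trans (ih r hr)
      · refine (step hp (hS r ho) ?_).trans (outside hS ho)
        simp only [List.mem_cons, List.not_mem_nil, or_false] at hr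
        rcases hr with rfl | rfl | rfl | rfl
        · exact Or.inl (Or.inl ⟨rfl, rfl⟩)
        · exact Or.inr (Or.inl ⟨by simp, rfl⟩)
        · exact Or.inl (Or.inr ⟨rfl, rfl⟩)
        · exact Or.inr (Or.inr ⟨rfl, by simp⟩)
    · exact ih q hq

/-- the complement of a finite union of unit squares is connected if all cells of the box which are
not in the union can be listed as in `chainc` -/
theorem compl_connected (S : Finset (ℤ × ℤ)) (a b c d : ℤ)
    (hS : ∀ p ∈ S, a ≤ p.1 ∧ p.1 < b ∧ c ≤ p.2 ∧ p.2 < d) (L : List (ℤ × ℤ))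
    (hL : chainc a b c d L) (hLS : ∀ p ∈ L, p ∉ S)
    (hcov : ∀ x ∈ Finset.Ico a b, ∀ y ∈ Finset.Ico c d, (x, y) ∈ S ∨ (x, y) ∈ L)
    (T : Set (Eu 2)) (hT : ∀ x : Eu 2, x ∈ T ↔
      ∃ c ∈ S, (c.1 : ℝ) ≤ x 0 ∧ x 0 ≤ c.1 + 1 ∧ (c.2 : ℝ) ≤ x 1 ∧ x 1 ≤ c.2 + 1) :
    IsConnected Tᶜ := by
  have e : T = un S := by
    ext x
    exact hT x
  have hS' : ∀ p, outb a b c d p → p ∉ S := by
    intro p hp h
    have := hS p h
    unfold outb at hp
    omega
  rw [e]
  refine IsPathConnected.isConnected ⟨ce (b, d), ce_mem (hS' _ (Or.inr (Or.inl le_rfl))), ?_⟩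
  intro x hx
  obtain ⟨h1, h2⟩ := to_centre hx
  refine (h2.trans ?_).symm
  by_cases ho : outb a b c d (⌊x 0⌋, ⌊x 1⌋)
  · exact outside hS' ho
  · unfold outb at ho
    push Not at ho
    have h3 := hcov ⌊x 0⌋ (Finset.mem_Ico.2 ⟨ho.1, ho.2.1⟩) ⌊x 1⌋
      (Finset.mem_Ico.2 ⟨ho.2.2.1, ho.2.2.2⟩)
    exact chainc_join hS' L hL hLS _ (h3.resolve_left h1)

end AlefS
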