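import Pool.Agent.AlefS.Defs

/-!
# The tile made of fourteen squares is contractible, its complement is path connected
-/

set_option autoImplicit false

namespace AlefS.Contr

open TilDich Set

section Gen

variable {E : Type*} [NormedAddCommGroup E] [NormedSpace ℝ E]

open Classical in
/-- a convex closed set which meets a closed contractible set in one point may be added -/
theorem contr_step {A B : Set E} (hA : IsClosed A) (hB : IsClosed B) (hc : Convex ℝ B) {p : E}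
    (hp : A ∩ B = {p}) (h : ContractibleSpace A) : ContractibleSpace ↥(A ∪ B) := by
  have hpA : p ∈ A := (hp.symm ▸ mem_singleton p : p ∈ A ∩ B).1
  have hpB : p ∈ B := (hp.symm ▸ mem_singleton p : p ∈ A ∩ B).2
  have hu : ∀ x, x ∈ A → x ∈ B → x = p := fun x h1 h2 => by
    have : x ∈ A ∩ B := ⟨h1, h2⟩
    rw [hp] at this
    exact this
  set G : ℝ × E → E := fun q => if q.2 ∈ A then q.2 else (1 - q.1) • q.2 + q.1 • p with hG
  have hGA : ∀ t x, x ∈ A → G (t, x) = x := fun t x hx => by simp [hG, hx]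
  have hGB : ∀ t x, x ∈ B → G (t, x) = (1 - t) • x + t • p := fun t x hx => by
    by_cases h1 : x ∈ A
    · rw [hGA t x h1, hu x h1 hx, ← add_smul]
      simp
    · simp [hG, h1]
  have hcont : ContinuousOn G ((univ ×ˢ A) ∪ (univ ×ˢ B)) := by
    refine ContinuousOn.union_of_isClosed ?_ ?_ (isClosed_univ.prod hA) (isClosed_univ.prod hB)
    · refine continuous_snd.continuousOn.congr ?_
      rintro ⟨t, x⟩ ⟨-, hx⟩
      exact hGA t x hx
    · have h2 : Continuous fun q : ℝ × E => (1 - q.1) • q.2 + q.1 • p := by fun_prop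
      refine h2.continuousOn.congr ?_
      rintro ⟨t, x⟩ ⟨-, hx⟩
      exact hGB t x hx
  have hmem : ∀ t x, 0 ≤ t → t ≤ 1 → x ∈ A ∪ B → G (t, x) ∈ A ∪ B := by
    intro t x h0 h1 hx
    rcases hx with hx | hx
    · rw [hGA t x hx]; exact Or.inl hx
    · rw [hGB t x hx]
      exact Or.inr (hc hx hpB (by linarith) h0 (by ring))
  have hmemA : ∀ x, x ∈ A ∪ B → G (1, x) ∈ A := by
    intro x hx
    rcases hx with hx | hx
    · rw [hGA 1 x hx]; exact hx
    · rw [hGB 1 x hx]; simpa using hpA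
  let r : C(↥(A ∪ B), A) := ⟨fun x => ⟨G (1, x), hmemA x x.2⟩, by
    refine Continuous.subtype_mk ?_ _
    refine hcont.comp_continuous (by fun_prop) fun x => ?_
    rcases x.2 with hx | hx
    · exact Or.inl ⟨mem_univ _, hx⟩
    · exact Or.inr ⟨mem_univ _, hx⟩⟩
  let i : C(A, ↥(A ∪ B)) := ⟨fun x => ⟨x, Or.inl x.2⟩, by fun_prop⟩
  have h1 : (ContinuousMap.id ↥(A ∪ B)).Homotopic (i.comp r) := by
    refine ⟨⟨⟨fun q => ⟨G ((q.1 : ℝ), (q.2 : E)), hmem _ _ q.1.2.1 q.1.2.2 q.2.2⟩, ?_⟩, ?_, ?_⟩⟩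
    · refine Continuous.subtype_mk ?_ _
      refine hcont.comp_continuous (by fun_prop) fun x => ?_
      rcases x.2.2 with hx | hx
      · exact Or.inl ⟨mem_univ _, hx⟩
      · exact Or.inr ⟨mem_univ _, hx⟩
    · intro x
      apply Subtype.ext
      show G (((0 : unitInterval) : ℝ), (x : E)) = x
      rcases x.2 with hx | hx
      · exact hGA _ _ hx
      · rw [hGB _ _ hx]; simp
    · intro x
      apply Subtype.ext
      show G (((1 : unitInterval) : ℝ), (x : E)) = G (1, (x : E))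
      norm_num
  rw [contractible_iff_id_nullhomotopic]
  obtain ⟨y, hy⟩ := (((id_nullhomotopic A).comp_left r).comp_right i)
  exact ⟨y, h1.trans hy⟩

end Gen

/-- the union of the squares of a list of cells -/
def UU (L : List (ℤ × ℤ)) : Set (Eu 2) := ⋃ f ∈ L, sq f

theorem UU_cons (c : ℤ × ℤ) (L : List (ℤ × ℤ)) : UU (c :: L) = UU L ∪ sq c := by
  unfold UU
  ext x
  simp only [mem_iUnion, List.mem_cons, exists_prop, mem_union]
  constructor
  · rintro ⟨f, rfl | hf, hx⟩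
    · exact Or.inr hx
    · exact Or.inl ⟨f, hf, hx⟩
  · rintro (⟨f, hf, hx⟩ | hx)
    · exact ⟨f, Or.inr hf, hx⟩
    · exact ⟨c, Or.inl rfl, hx⟩

theorem sq_closed (c : ℤ × ℤ) : IsClosed (sq c) := by
  have h0 : Continuous fun x : Eu 2 => x 0 := by fun_prop
  have h1 : Continuous fun x : Eu 2 => x 1 := by fun_prop
  have e : sq c = {x : Eu 2 | (c.1 : ℝ) ≤ x 0} ∩ ({x : Eu 2 | x 0 ≤ (c.1 : ℝ) + 1} ∩
      ({x : Eu 2 | (c.2 : ℝ) ≤ x 1} ∩ {x : Eu 2 | x 1 ≤ (c.2 : ℝ) + 1})) := rfl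
  rw [e]
  exact (isClosed_le continuous_const h0).inter ((isClosed_le h0 continuous_const).inter
    ((isClosed_le continuous_const h1).inter (isClosed_le h1 continuous_const)))

theorem sq_convex (c : ℤ × ℤ) : Convex ℝ (sq c) := by
  intro x hx y hy a b ha hb hab
  obtain ⟨x1, x2, x3, x4⟩ := hx
  obtain ⟨y1, y2, y3, y4⟩ := hy
  have e0 : (a • x + b • y) 0 = a * x 0 + b * y 0 := rfl
  have e1 : (a • x + b • y) 1 = a * x 1 + b * y 1 := rfl
  have hc1 : (a + b) * (c.1 : ℝ) = c.1 := by rw [hab, one_mul]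
  have hc2 : (a + b) * (c.2 : ℝ) = c.2 := by rw [hab, one_mul]
  refine ⟨?_, ?_, ?_, ?_⟩
  · rw [e0]; linarith [mul_nonneg ha (sub_nonneg.2 x1), mul_nonneg hb (sub_nonneg.2 y1)]
  · rw [e0]; linarith [mul_nonneg ha (sub_nonneg.2 x2), mul_nonneg hb (sub_nonneg.2 y2)]
  · rw [e1]; linarith [mul_nonneg ha (sub_nonneg.2 x3), mul_nonneg hb (sub_nonneg.2 y3)]
  · rw [e1]; linarith [mul_nonneg ha (sub_nonneg.2 x4), mul_nonneg hb (sub_nonneg.2 y4)]

theorem UU_closed (L : List (ℤ × ℤ)) : IsClosed (UU L) := by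
  induction L with
  | nil => simp [UU]
  | cons c L ih => rw [UU_cons]; exact ih.union (sq_closed c)

/-- the two cells have a common point -/
def tch (c d : ℤ × ℤ) : Bool := decide ((c.1 - d.1).natAbs ≤ 1) && decide ((c.2 - d.2).natAbs ≤ 1)

/-- the two cells have exactly a corner in common -/
def dgl (c d : ℤ × ℤ) : Bool := decide ((c.1 - d.1).natAbs = 1) && decide ((c.2 - d.2).natAbs = 1)

theorem tch_of {c d : ℤ × ℤ} {x : Eu 2} (h : x ∈ sq c) (h' : x ∈ sq d) : tch c d = true := by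
  obtain ⟨x1, x2, x3, x4⟩ := h
  obtain ⟨y1, y2, y3, y4⟩ := h'
  have h1 : (c.1 : ℝ) ≤ d.1 + 1 := by linarith
  have h2 : (d.1 : ℝ) ≤ c.1 + 1 := by linarith
  have h3 : (c.2 : ℝ) ≤ d.2 + 1 := by linarith
  have h4 : (d.2 : ℝ) ≤ c.2 + 1 := by linarith
  have h1' : c.1 ≤ d.1 + 1 := by exact_mod_cast h1
  have h2' : d.1 ≤ c.1 + 1 := by exact_mod_cast h2
  have h3' : c.2 ≤ d.2 + 1 := by exact_mod_cast h3
  have h4' : d.2 ≤ c.2 + 1 := by exact_mod_cast h4
  simp only [tch, Bool.and_eq_true, decide_eq_true_eq]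
  omega

theorem dgl_pt {c d : ℤ × ℤ} (h : dgl c d = true) : ∃ p : Eu 2, sq c ∩ sq d = {p} := by
  simp only [dgl, Bool.and_eq_true, decide_eq_true_eq] at h
  have hx : ∃ u : ℝ, ∀ t : ℝ, ((c.1 : ℝ) ≤ t ∧ t ≤ c.1 + 1 ∧ (d.1 : ℝ) ≤ t ∧ t ≤ d.1 + 1) ↔ t = u := by
    rcases (by omega : c.1 = d.1 + 1 ∨ d.1 = c.1 + 1) with e | e
    · refine ⟨c.1, fun t => ?_⟩
      have e' : (c.1 : ℝ) = d.1 + 1 := by exact_mod_cast e
      constructor
      · rintro ⟨a, -, -, b⟩; linarith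
      · rintro rfl; refine ⟨?_, ?_, ?_, ?_⟩ <;> linarith
    · refine ⟨d.1, fun t => ?_⟩
      have e' : (d.1 : ℝ) = c.1 + 1 := by exact_mod_cast e
      constructor
      · rintro ⟨-, a, b, -⟩; linarith
      · rintro rfl; refine ⟨?_, ?_, ?_, ?_⟩ <;> linarith
  have hy : ∃ v : ℝ, ∀ t : ℝ, ((c.2 : ℝ) ≤ t ∧ t ≤ c.2 + 1 ∧ (d.2 : ℝ) ≤ t ∧ t ≤ d.2 + 1) ↔ t = v := by
    rcases (by omega : c.2 = d.2 + 1 ∨ d.2 = c.2 + 1) with e | e
    · refine ⟨c.2, fun t => ?_⟩
      have e' : (c.2 : ℝ) = d.2 + 1 := by exact_mod_cast e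
      constructor
      · rintro ⟨a, -, -, b⟩; linarith
      · rintro rfl; refine ⟨?_, ?_, ?_, ?_⟩ <;> linarith
    · refine ⟨d.2, fun t => ?_⟩
      have e' : (d.2 : ℝ) = c.2 + 1 := by exact_mod_cast e
      constructor
      · rintro ⟨-, a, b, -⟩; linarith
      · rintro rfl; refine ⟨?_, ?_, ?_, ?_⟩ <;> linarith
  obtain ⟨u, hu⟩ := hx
  obtain ⟨v, hv⟩ := hy
  refine ⟨WithLp.toLp 2 ![u, v], ?_⟩
  ext x
  simp only [mem_inter_iff, mem_singleton_iff, sq, mem_ofPred_eq]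
  constructor
  · rintro ⟨⟨a1, a2, a3, a4⟩, b1, b2, b3, b4⟩
    have e0 := (hu (x 0)).1 ⟨a1, a2, b1, b2⟩
    have e1 := (hv (x 1)).1 ⟨a3, a4, b3, b4⟩
    ext i
    fin_cases i
    · exact e0
    · exact e1
  · rintro rfl
    have e0 := (hu u).2 rfl
    have e1 := (hv v).2 rfl
    exact ⟨⟨e0.1, e0.2.1, e1.1, e1.2.1⟩, e0.2.2.1, e0.2.2.2, e1.2.2.1, e1.2.2.2⟩

/-- each cell of the list touches exactly one of the later ones, in a corner -/
def good : List (ℤ × ℤ) → Bool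
  | [] => false
  | c :: L => L.isEmpty || (good L && decide ((L.filter fun d => tch c d).length = 1) &&
      (L.filter fun d => tch c d).all fun d => dgl c d)

theorem contr_good (L : List (ℤ × ℤ)) (h : good L = true) : ContractibleSpace (UU L) := by
  induction L with
  | nil => simp [good] at h
  | cons c L ih =>
    simp only [good, Bool.or_eq_true, Bool.and_eq_true, decide_eq_true_eq, List.isEmpty_iff] at h
    rcases h with rfl | ⟨⟨h1, h2⟩, h3⟩
    · have e : UU [c] = sq c := by rw [UU_cons]; simp [UU]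
      rw [e]
      refine (sq_convex c).contractibleSpace ?_
      refine ⟨WithLp.toLp 2 ![(c.1 : ℝ), (c.2 : ℝ)], ?_⟩
      refine ⟨?_, ?_, ?_, ?_⟩ <;> simp
    · obtain ⟨d, hd⟩ := List.length_eq_one_iff.1 h2
      have hdL : d ∈ L.filter fun d => tch c d := by rw [hd]; simp
      have hdl : dgl c d = true := by
        have := List.all_eq_true.1 h3 d hdL
        simpa using this
      obtain ⟨p, hp⟩ := dgl_pt hdl
      rw [UU_cons]
      refine contr_step (UU_closed L) (sq_closed c) (sq_convex c) (p := p) ?_ (ih h1)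
      rw [← hp]
      ext x
      constructor
      · rintro ⟨hx, hxc⟩
        refine ⟨hxc, ?_⟩
        simp only [UU, mem_iUnion, exists_prop] at hx
        obtain ⟨f, hf, hxf⟩ := hx
        have hmem : f ∈ L.filter fun d => tch c d := List.mem_filter.2 ⟨hf, tch_of hxc hxf⟩
        rw [hd, List.mem_singleton] at hmem
        rwa [← hmem]
      · rintro ⟨hxc, hxd⟩
        refine ⟨?_, hxc⟩
        simp only [UU, mem_iUnion, exists_prop]
        exact ⟨d, (List.mem_filter.1 hdL).1, hxd⟩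

/-- the cells of the tile in a good order -/
def F1 : List (ℤ × ℤ) :=
  [(2, 4), (1, 3), (-3, 3), (-2, 4), (-1, 3), (0, 2), (2, 0), (-1, 1), (2, -2), (1, -1), (-3, -1),
   (-2, -2), (-1, -1), (0, 0)]

theorem T0_eq (L : List (ℤ × ℤ)) (h : ∀ f, f ∈ Fb 0 ↔ f ∈ L) : T0 = UU L := by
  unfold T0 TT UU
  ext x
  simp only [mem_iUnion, exists_prop]
  constructor
  · rintro ⟨f, hf, hx⟩
    refine ⟨f, (h f).1 hf, ?_⟩
    have e : ((0, 0) : ℤ × ℤ) + f = f := by simp
    rwa [e] at hx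
  · rintro ⟨f, hf, hx⟩
    refine ⟨f, (h f).2 hf, ?_⟩
    have e : ((0, 0) : ℤ × ℤ) + f = f := by simp
    rwa [e]

theorem F1_mem (f : ℤ × ℤ) : f ∈ Fb 0 ↔ f ∈ F1 := by
  have h1 : ∀ f ∈ Fb 0, f ∈ F1 := by decide
  have h2 : ∀ f ∈ F1, f ∈ Fb 0 := by decide
  exact ⟨h1 f, h2 f⟩

/-- the tile is contractible -/
theorem contr_T0 : ContractibleSpace T0 := by
  rw [T0_eq F1 F1_mem]
  exact contr_good F1 (by decide)

/-! ### The complement is path connected -/

/-- the centre of a cell -/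
noncomputable def cen (d : ℤ × ℤ) : Eu 2 := WithLp.toLp 2 ![(d.1 : ℝ) + 1 / 2, (d.2 : ℝ) + 1 / 2]

theorem not_T0 {x : Eu 2} (h : ∀ f ∈ F1, x ∉ sq f) : x ∈ T0ᶜ := by
  rw [T0_eq F1 F1_mem]
  intro hx
  simp only [UU, mem_iUnion, exists_prop] at hx
  obtain ⟨f, hf, hxf⟩ := hx
  exact h f hf hxf

theorem int_eq {d f : ℤ} {t : ℝ} (h1 : (d : ℝ) < t) (h2 : t < d + 1) (h3 : (f : ℝ) ≤ t)
    (h4 : t ≤ f + 1) : f = d := by
  have a : (f : ℝ) < d + 1 := lt_of_le_of_lt h3 h2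
  have b : (d : ℝ) < f + 1 := lt_of_lt_of_le h1 h4
  have a' : f < d + 1 := by exact_mod_cast a
  have b' : d < f + 1 := by exact_mod_cast b
  omega

/-- every point of a free cell is joined with the centre -/
theorem join_cen {d : ℤ × ℤ} (hd : d ∉ F1) {x : Eu 2} (hx : x ∈ sq d) (hT : x ∈ T0ᶜ) :
    JoinedIn T0ᶜ (cen d) x := by
  refine JoinedIn.of_segment_subset ?_
  rintro y ⟨a, b, ha, hb, hab, rfl⟩
  obtain ⟨x1, x2, x3, x4⟩ := hx
  rcases eq_or_lt_of_le ha with rfl | ha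
  · have hb1 : b = 1 := by linarith
    rw [hb1]
    simpa using hT
  · refine not_T0 fun f hf hxf => hd ?_
    obtain ⟨y1, y2, y3, y4⟩ := hxf
    have e0 : (a • cen d + b • x) 0 = a * ((d.1 : ℝ) + 1 / 2) + b * x 0 := rfl
    have e1 : (a • cen d + b • x) 1 = a * ((d.2 : ℝ) + 1 / 2) + b * x 1 := rfl
    rw [e0] at y1 y2
    rw [e1] at y3 y4
    have hc1 : (a + b) * (d.1 : ℝ) = d.1 := by rw [hab, one_mul]
    have hc2 : (a + b) * (d.2 : ℝ) = d.2 := by rw [hab, one_mul]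
    have q1 : f.1 = d.1 := by
      refine int_eq (t := a * ((d.1 : ℝ) + 1 / 2) + b * x 0) ?_ ?_ y1 y2
      · linarith [mul_nonneg hb (sub_nonneg.2 x1)]
      · linarith [mul_nonneg hb (sub_nonneg.2 x2)]
    have q2 : f.2 = d.2 := by
      refine int_eq (t := a * ((d.2 : ℝ) + 1 / 2) + b * x 1) ?_ ?_ y3 y4
      · linarith [mul_nonneg hb (sub_nonneg.2 x3)]
      · linarith [mul_nonneg hb (sub_nonneg.2 x4)]
    have e : f = d := Prod.ext q1 q2
    rwa [← e]

theorem cen_mem {d : ℤ × ℤ} : cen d ∈ sq d := by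
  have e0 : (cen d) 0 = (d.1 : ℝ) + 1 / 2 := rfl
  have e1 : (cen d) 1 = (d.2 : ℝ) + 1 / 2 := rfl
  refine ⟨?_, ?_, ?_, ?_⟩
  · rw [e0]; linarith
  · rw [e0]; linarith
  · rw [e1]; linarith
  · rw [e1]; linarith

/-- the centres of two free neighbours are joined -/
theorem join_h {d : ℤ × ℤ} (hd : d ∉ F1) (hd' : (d.1 + 1, d.2) ∉ F1) :
    JoinedIn T0ᶜ (cen d) (cen (d.1 + 1, d.2)) := by
  set m : Eu 2 := WithLp.toLp 2 ![(d.1 : ℝ) + 1, (d.2 : ℝ) + 1 / 2] with hm
  have e0 : m 0 = (d.1 : ℝ) + 1 := rfl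
  have e1 : m 1 = (d.2 : ℝ) + 1 / 2 := rfl
  have hmT : m ∈ T0ᶜ := by
    refine not_T0 fun f hf hxf => ?_
    obtain ⟨y1, y2, y3, y4⟩ := hxf
    rw [e0] at y1 y2
    rw [e1] at y3 y4
    have q2 : f.2 = d.2 := by
      refine int_eq (t := (d.2 : ℝ) + 1 / 2) ?_ ?_ y3 y4 <;> linarith
    have a1 : f.1 ≤ d.1 + 1 := by exact_mod_cast y1
    have a2' : (d.1 : ℝ) ≤ f.1 := by linarith
    have a2 : d.1 ≤ f.1 := by exact_mod_cast a2'
    rcases (by omega : f.1 = d.1 ∨ f.1 = d.1 + 1) with q1 | q1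
    · exact hd ((Prod.ext q1 q2 : f = d) ▸ hf)
    · exact hd' ((Prod.ext q1 q2 : f = (d.1 + 1, d.2)) ▸ hf)
  have h1 : m ∈ sq d := by
    refine ⟨?_, ?_, ?_, ?_⟩
    · rw [e0]; linarith
    · rw [e0]
    · rw [e1]; linarith
    · rw [e1]; linarith
  have h2 : m ∈ sq (d.1 + 1, d.2) := by
    refine ⟨?_, ?_, ?_, ?_⟩
    · rw [e0]; push_cast; linarith
    · rw [e0]; push_cast; linarith
    · rw [e1]; push_cast; linarith
    · rw [e1]; push_cast; linarith
  exact (join_cen hd h1 hmT).trans (join_cen hd' h2 hmT).symm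

/-- the centres of two free neighbours are joined -/
theorem join_v {d : ℤ × ℤ} (hd : d ∉ F1) (hd' : (d.1, d.2 + 1) ∉ F1) :
    JoinedIn T0ᶜ (cen d) (cen (d.1, d.2 + 1)) := by
  set m : Eu 2 := WithLp.toLp 2 ![(d.1 : ℝ) + 1 / 2, (d.2 : ℝ) + 1] with hm
  have e0 : m 0 = (d.1 : ℝ) + 1 / 2 := rfl
  have e1 : m 1 = (d.2 : ℝ) + 1 := rfl
  have hmT : m ∈ T0ᶜ := by
    refine not_T0 fun f hf hxf => ?_
    obtain ⟨y1, y2, y3, y4⟩ := hxf
    rw [e0] at y1 y2
    rw [e1] at y3 y4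
    have q1 : f.1 = d.1 := by
      refine int_eq (t := (d.1 : ℝ) + 1 / 2) ?_ ?_ y1 y2 <;> linarith
    have a1 : f.2 ≤ d.2 + 1 := by exact_mod_cast y3
    have a2' : (d.2 : ℝ) ≤ f.2 := by linarith
    have a2 : d.2 ≤ f.2 := by exact_mod_cast a2'
    rcases (by omega : f.2 = d.2 ∨ f.2 = d.2 + 1) with q2 | q2
    · exact hd ((Prod.ext q1 q2 : f = d) ▸ hf)
    · exact hd' ((Prod.ext q1 q2 : f = (d.1, d.2 + 1)) ▸ hf)
  have h1 : m ∈ sq d := by
    refine ⟨?_, ?_, ?_, ?_⟩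
    · rw [e0]; linarith
    · rw [e0]; linarith
    · rw [e1]; linarith
    · rw [e1]
  have h2 : m ∈ sq (d.1, d.2 + 1) := by
    refine ⟨?_, ?_, ?_, ?_⟩
    · rw [e0]; push_cast; linarith
    · rw [e0]; push_cast; linarith
    · rw [e1]; push_cast; linarith
    · rw [e1]; push_cast; linarith
  exact (join_cen hd h1 hmT).trans (join_cen hd' h2 hmT).symm

/-- a cell outside the bounding box -/
def outb (d : ℤ × ℤ) : Bool := decide (d.1 ≤ -4) || decide (3 ≤ d.1) || decide (5 ≤ d.2) ||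
  decide (d.2 ≤ -3)

theorem F1_in {d : ℤ × ℤ} (h : d ∈ F1) : outb d = false := by
  revert d
  decide

theorem free_of {d : ℤ × ℤ} (h : outb d = true) : d ∉ F1 := fun h' => by
  rw [F1_in h'] at h
  exact absurd h (by simp)

theorem line_h {y : ℤ} (hy : 5 ≤ y ∨ y ≤ -3) (x : ℤ) (n : ℕ) :
    JoinedIn T0ᶜ (cen (x, y)) (cen (x + n, y)) := by
  have hf : ∀ x : ℤ, (x, y) ∉ F1 := fun x => free_of (by
    simp only [outb, Bool.or_eq_true, decide_eq_true_eq]; omega)
  induction n with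
  | zero =>
    simp only [Nat.cast_zero, add_zero]
    have h0 : JoinedIn T0ᶜ (cen (x, y)) (cen ((x, y).1 + 1, (x, y).2)) := join_h (hf x) (hf _)
    exact h0.trans h0.symm
  | succ n ih =>
    have h0 : JoinedIn T0ᶜ (cen (x + n, y)) (cen ((x + n, y).1 + 1, (x + n, y).2)) :=
      join_h (hf _) (hf _)
    have e : ((x + (n + 1 : ℕ), y) : ℤ × ℤ) = ((x + n, y).1 + 1, (x + n, y).2) := by
      push_cast
      simp only [Prod.mk.injEq, and_true]
      ring
    rw [e]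
    exact ih.trans h0

theorem line_v {x : ℤ} (hx : 3 ≤ x ∨ x ≤ -4) (y : ℤ) (n : ℕ) :
    JoinedIn T0ᶜ (cen (x, y)) (cen (x, y + n)) := by
  have hf : ∀ y : ℤ, (x, y) ∉ F1 := fun y => free_of (by
    simp only [outb, Bool.or_eq_true, decide_eq_true_eq]; omega)
  induction n with
  | zero =>
    simp only [Nat.cast_zero, add_zero]
    have h0 : JoinedIn T0ᶜ (cen (x, y)) (cen ((x, y).1, (x, y).2 + 1)) := join_v (hf y) (hf _)
    exact h0.trans h0.symm
  | succ n ih =>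
    have h0 : JoinedIn T0ᶜ (cen (x, y + n)) (cen ((x, y + n).1, (x, y + n).2 + 1)) :=
      join_v (hf _) (hf _)
    have e : ((x, y + (n + 1 : ℕ)) : ℤ × ℤ) = ((x, y + n).1, (x, y + n).2 + 1) := by
      push_cast
      simp only [Prod.mk.injEq, true_and]
      ring
    rw [e]
    exact ih.trans h0

theorem lineH {y : ℤ} (hy : 5 ≤ y ∨ y ≤ -3) (x x' : ℤ) :
    JoinedIn T0ᶜ (cen (x, y)) (cen (x', y)) := by
  rcases le_total x x' with h | h
  · have := line_h hy x (x' - x).toNat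
    rwa [Int.toNat_of_nonneg (by omega), add_sub_cancel] at this
  · have := line_h hy x' (x - x').toNat
    rw [Int.toNat_of_nonneg (by omega), add_sub_cancel] at this
    exact this.symm

theorem lineV {x : ℤ} (hx : 3 ≤ x ∨ x ≤ -4) (y y' : ℤ) :
    JoinedIn T0ᶜ (cen (x, y)) (cen (x, y')) := by
  rcases le_total y y' with h | h
  · have := line_v hx y (y' - y).toNat
    rwa [Int.toNat_of_nonneg (by omega), add_sub_cancel] at this
  · have := line_v hx y' (y - y').toNat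
    rw [Int.toNat_of_nonneg (by omega), add_sub_cancel] at this
    exact this.symm

theorem join_out {d : ℤ × ℤ} (h : outb d = true) : JoinedIn T0ᶜ (cen d) (cen (3, 5)) := by
  simp only [outb, Bool.or_eq_true, decide_eq_true_eq] at h
  obtain ⟨x, y⟩ := d
  simp only at h
  by_cases hy : 5 ≤ y ∨ y ≤ -3
  · exact (lineH hy x 3).trans (lineV (Or.inl le_rfl) y 5)
  · have hx : 3 ≤ x ∨ x ≤ -4 := by omega
    exact (lineV hx y 5).trans (lineH (Or.inl le_rfl) x 3)

/-- the cell is free and joined with the outside by at most `n` steps -/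
def rch : ℕ → ℤ × ℤ → Bool
  | 0, d => outb d
  | n + 1, d => decide (d ∉ F1) && (outb d || rch n (d.1 + 1, d.2) || rch n (d.1 - 1, d.2) ||
      rch n (d.1, d.2 + 1) || rch n (d.1, d.2 - 1))

theorem rch_free (n : ℕ) (d : ℤ × ℤ) (h : rch n d = true) : d ∉ F1 := by
  cases n with
  | zero => exact free_of h
  | succ n =>
    simp only [rch, Bool.and_eq_true, decide_eq_true_eq] at h
    exact h.1

theorem join_rch (n : ℕ) (d : ℤ × ℤ) (h : rch n d = true) : JoinedIn T0ᶜ (cen d) (cen (3, 5)) := by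
  induction n generalizing d with
  | zero => exact join_out h
  | succ n ih =>
    simp only [rch, Bool.and_eq_true, Bool.or_eq_true, decide_eq_true_eq] at h
    obtain ⟨hd, (((h | h) | h) | h) | h⟩ := h
    · exact join_out h
    · exact (join_h hd (rch_free _ _ h)).trans (ih _ h)
    · have hf := rch_free _ _ h
      have e : (((d.1 - 1, d.2).1 + 1, (d.1 - 1, d.2).2) : ℤ × ℤ) = d := by
        ext <;> simp
      have h1 := join_h (d := (d.1 - 1, d.2)) hf (by rw [e]; exact hd)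
      rw [e] at h1
      exact h1.symm.trans (ih _ h)
    · exact (join_v hd (rch_free _ _ h)).trans (ih _ h)
    · have hf := rch_free _ _ h
      have e : (((d.1, d.2 - 1).1, (d.1, d.2 - 1).2 + 1) : ℤ × ℤ) = d := by
        ext <;> simp
      have h1 := join_v (d := (d.1, d.2 - 1)) hf (by rw [e]; exact hd)
      rw [e] at h1
      exact h1.symm.trans (ih _ h)

theorem rch_box : ∀ i : Fin 6, ∀ j : Fin 7, ((i.val : ℤ) - 3, (j.val : ℤ) - 2) ∈ F1 ∨
    rch 3 ((i.val : ℤ) - 3, (j.val : ℤ) - 2) = true := by decide +kernel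

theorem join_free {d : ℤ × ℤ} (h : d ∉ F1) : JoinedIn T0ᶜ (cen d) (cen (3, 5)) := by
  by_cases ho : outb d = true
  · exact join_out ho
  · simp only [outb, Bool.or_eq_true, decide_eq_true_eq, not_or, not_le] at ho
    obtain ⟨x, y⟩ := d
    simp only at ho
    have e : ((x, y) : ℤ × ℤ) = ((((⟨(x + 3).toNat, by omega⟩ : Fin 6).val : ℤ) - 3,
        ((⟨(y + 2).toNat, by omega⟩ : Fin 7).val : ℤ) - 2) : ℤ × ℤ) := by
      simp only [Prod.mk.injEq]
      omega
    rcases rch_box ⟨(x + 3).toNat, by omega⟩ ⟨(y + 2).toNat, by omega⟩ with h1 | h1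
    · rw [← e] at h1
      exact absurd h1 h
    · rw [← e] at h1
      exact join_rch 3 _ h1

/-- the complement of the tile is path connected: the tile has no holes -/
theorem compl_T0 : IsPathConnected T0ᶜ := by
  have h35 : ((3, 5) : ℤ × ℤ) ∉ F1 := free_of (by decide)
  refine ⟨cen (3, 5), (join_free h35).source_mem, fun {x} hx => ?_⟩
  have hs : x ∈ sq (⌊x 0⌋, ⌊x 1⌋) :=
    ⟨Int.floor_le _, (Int.lt_floor_add_one _).le, Int.floor_le _, (Int.lt_floor_add_one _).le⟩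
  have hf : (⌊x 0⌋, ⌊x 1⌋) ∉ F1 := by
    intro h
    refine hx ?_
    rw [T0_eq F1 F1_mem]
    simp only [UU, mem_iUnion, exists_prop]
    exact ⟨_, h, hs⟩
  exact (join_free hf).symm.trans (join_cen hf hs hx)

end AlefS.Contr
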