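import Pool.Agent.TilDich.Geo5

/-!
# A connected union of fourteen squares with exactly countably many tilings: definitions

`P0` is a 14-omino (a tree of cells), `F0` its image under `(x, y) ↦ (x - y, x + y)`.  The tile is
the union of the fourteen closed unit squares with lower left corners in `F0`.
-/

set_option autoImplicit false

namespace AlefS

open TilDich

/-- quarter turn -/
def rt (p : ℤ × ℤ) : ℤ × ℤ := (-p.2, p.1)

/-- the fourteen cells of the 14-omino -/
def P0 : List (ℤ × ℤ) :=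
  [(-2, 0), (-2, 1), (-1, 0), (0, -2), (0, -1), (0, 0), (0, 1), (0, 3), (1, -1), (1, 1), (1, 2),
   (1, 3), (2, 1), (3, 1)]

/-- the fourteen cells of the tile -/
def F0 : List (ℤ × ℤ) :=
  [(-2, -2), (-3, -1), (-1, -1), (2, -2), (1, -1), (0, 0), (-1, 1), (-3, 3), (2, 0), (0, 2),
   (-1, 3), (-2, 4), (1, 3), (2, 4)]

/-- the eight isometries of the small grid (`k < 4`: quarter turns, `k ≥ 4`: the reflection
`(x, y) ↦ (x, -y)` followed by `k - 4` quarter turns) -/
def gs (k : Fin 8) (p : ℤ × ℤ) : ℤ × ℤ := rt^[k.val % 4] (if k.val < 4 then p else (p.1, -p.2))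

/-- the eight isometries of the big grid (`k < 4`: quarter turns, `k ≥ 4`: the reflection
`(x, y) ↦ (y, x)` followed by `k - 4` quarter turns) -/
def gb (k : Fin 8) (p : ℤ × ℤ) : ℤ × ℤ := rt^[k.val % 4] (if k.val < 4 then p else (p.2, p.1))

/-- composition of the eight isometries -/
def mul (k g : Fin 8) : Fin 8 :=
  ⟨(k.val % 4 + (if k.val < 4 then g.val % 4 else 4 - g.val % 4)) % 4 +
    4 * ((k.val / 4 + g.val / 4) % 2), by omega⟩

/-- the eight images of the 14-omino -/
def Fs (g : Fin 8) : List (ℤ × ℤ) := P0.map (gs g)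

/-- the eight images of the tile -/
def Fb (g : Fin 8) : List (ℤ × ℤ) := F0.map (gb g)

/-- placements: type of the image and position -/
abbrev Pl := Fin 8 × (ℤ × ℤ)

/-- exact covers of the small grid by images of the 14-omino -/
def TilingS (P : Set Pl) : Prop := ∀ c : ℤ × ℤ, ∃! q : Pl, q ∈ P ∧ c - q.2 ∈ Fs q.1

/-- exact covers of the big grid by images of the tile -/
def Tiling (P : Set Pl) : Prop := ∀ c : ℤ × ℤ, ∃! q : Pl, q ∈ P ∧ c - q.2 ∈ Fb q.1

/-- isometries of the small grid act on placements -/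
def acts (k : Fin 8) (z : ℤ × ℤ) (q : Pl) : Pl := (mul k q.1, gs k q.2 + z)

/-- isometries of the big grid act on placements -/
def act (k : Fin 8) (z : ℤ × ℤ) (q : Pl) : Pl := (mul k q.1, gb k q.2 + z)

/-- closed unit square with lower left corner `c` -/
def sq (c : ℤ × ℤ) : Set (Eu 2) :=
  {x | (c.1 : ℝ) ≤ x 0 ∧ x 0 ≤ c.1 + 1 ∧ (c.2 : ℝ) ≤ x 1 ∧ x 1 ≤ c.2 + 1}

/-- the tile of a placement: union of fourteen squares -/
def TT (q : Pl) : Set (Eu 2) := ⋃ f ∈ Fb q.1, sq (q.2 + f)

/-- the tiling of the plane of an exact cover -/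
def realize (P : Set Pl) : Set (Set (Eu 2)) := TT '' P

/-- monohedral tilings with prototile `T` -/
def Mono (T : Set (Eu 2)) (𝒯 : Set (Set (Eu 2))) : Prop :=
  (∀ A ∈ 𝒯, ∃ e : Eu 2 ≃ᵢ Eu 2, A = e '' T) ∧ ⋃₀ 𝒯 = Set.univ ∧
    𝒯.Pairwise fun A B => Disjoint (interior A) (interior B)

/-- the prototile -/
def T0 : Set (Eu 2) := TT (0, (0, 0))

end AlefS
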