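import Pool.Agent.AlefS.Defs

/-!
# The exact cover of the small grid with one wall
-/

set_option autoImplicit false

namespace AlefS

/-- the coordinate transversal to the wall -/
def ss (p : ℤ × ℤ) : ℤ := 2 * p.2 - p.1

/-- the coordinate of the lattice cover -/
def tt (p : ℤ × ℤ) : ℤ := p.1 + 5 * p.2

/-- the cover with a wall in the coordinates -/
def UW (g : Fin 8) (s t : ℤ) : Prop :=
  (g = 5 ∧ s = 0 ∧ t % 14 = 0) ∨ (g = 7 ∧ s = 7 ∧ t % 14 = 7) ∨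
    (g = 0 ∧ 13 ≤ s ∧ t % 14 = 1) ∨ (g = 2 ∧ s ≤ -6 ∧ t % 14 = 6)

instance (g : Fin 8) (s t : ℤ) : Decidable (UW g s t) := by unfold UW; infer_instance

/-- the cover with a wall -/
def W : Set Pl := {q | UW q.1 (ss q.2) (tt q.2)}

/-- candidates -/
def cand : List (Fin 8 × (ℤ × ℤ)) :=
  (List.finRange 8).flatMap fun g => (Fs g).map fun a => (g, a)

/-- solutions at given coordinates -/
def sol (s t : ℤ) : List (Fin 8 × (ℤ × ℤ)) :=
  cand.filter fun x => decide (UW x.1 (s - ss x.2) (t - tt x.2))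

theorem mem_sol (s t : ℤ) (g : Fin 8) (a : ℤ × ℤ) :
    (g, a) ∈ sol s t ↔ a ∈ Fs g ∧ UW g (s - ss a) (t - tt a) := by
  unfold sol cand
  rw [List.mem_filter, List.mem_flatMap, decide_eq_true_iff]
  constructor
  · rintro ⟨⟨g', _, h⟩, hu⟩
    obtain ⟨a', ha', he⟩ := List.mem_map.1 h
    have h1 : g' = g := congrArg Prod.fst he
    have h2 : a' = a := congrArg Prod.snd he
    subst h1
    subst h2
    exact ⟨ha', hu⟩
  · rintro ⟨ha, hu⟩
    exact ⟨⟨g, List.mem_finRange g, List.mem_map.2 ⟨a, ha, rfl⟩⟩, hu⟩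

theorem uw_mod (g : Fin 8) (s t : ℤ) : UW g s t ↔ UW g s (t % 14) := by
  unfold UW
  rw [Int.emod_emod_of_dvd t (dvd_refl 14)]

theorem mid : ∀ k : Fin 40, ∀ r : Fin 14, ((k.val : ℤ) - 15 + r.val) % 7 = 0 →
    (sol ((k.val : ℤ) - 15) r.val).length = 1 := by decide +kernel

theorem Fs_bound : ∀ g : Fin 8, ∀ a ∈ Fs g, -8 ≤ ss a ∧ ss a ≤ 8 := by decide +kernel

theorem Fs0_ex : ∀ r : Fin 14, ∃ a ∈ Fs 0, ((r.val : ℤ) - tt a) % 14 = 1 := by decide +kernel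

theorem Fs0_un : ∀ a ∈ Fs 0, ∀ b ∈ Fs 0, (tt a - tt b) % 14 = 0 → a = b := by decide +kernel

theorem Fs2_ex : ∀ r : Fin 14, ∃ a ∈ Fs 2, ((r.val : ℤ) - tt a) % 14 = 6 := by decide +kernel

theorem Fs2_un : ∀ a ∈ Fs 2, ∀ b ∈ Fs 2, (tt a - tt b) % 14 = 0 → a = b := by decide +kernel

theorem one (s t : ℤ) (hst : (s + t) % 7 = 0) :
    ∃! x : Fin 8 × (ℤ × ℤ), x.2 ∈ Fs x.1 ∧ UW x.1 (s - ss x.2) (t - tt x.2) := by
  by_cases hm : -15 ≤ s ∧ s < 25
  · obtain ⟨k, hk⟩ : ∃ k : Fin 40, (k.val : ℤ) - 15 = s := ⟨⟨(s + 15).toNat, by omega⟩, by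
      show (((s + 15).toNat : ℕ) : ℤ) - 15 = s
      omega⟩
    obtain ⟨r, hr⟩ : ∃ r : Fin 14, (r.val : ℤ) = t % 14 := ⟨⟨(t % 14).toNat, by omega⟩, by
      show (((t % 14).toNat : ℕ) : ℤ) = t % 14
      omega⟩
    have h1 := mid k r (by omega)
    rw [hk] at h1
    obtain ⟨x, hx⟩ := List.length_eq_one_iff.1 h1
    have key : ∀ (g : Fin 8) (a : ℤ × ℤ), UW g (s - ss a) (t - tt a) ↔
        UW g (s - ss a) ((r.val : ℤ) - tt a) := by
      intro g a
      rw [uw_mod g _ (t - tt a), uw_mod g _ ((r.val : ℤ) - tt a), hr]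
      have e : (t - tt a) % 14 = (t % 14 - tt a) % 14 := by omega
      rw [e]
    refine ⟨x, ?_, ?_⟩
    · have h2 : (x.1, x.2) ∈ sol s r.val := by rw [hx]; exact List.mem_singleton.2 rfl
      have h3 := (mem_sol s r.val x.1 x.2).1 h2
      exact ⟨h3.1, (key x.1 x.2).2 h3.2⟩
    · rintro ⟨g, a⟩ h2
      have h3 := (mem_sol s r.val g a).2 ⟨h2.1, (key g a).1 h2.2⟩
      rw [hx] at h3
      exact List.mem_singleton.1 h3
  · by_cases hp : 25 ≤ s
    · obtain ⟨a, ha, har⟩ := Fs0_ex ⟨(t % 14).toNat, by omega⟩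
      have hr : (((t % 14).toNat : ℕ) : ℤ) = t % 14 := by omega
      simp only [hr] at har
      have hb := Fs_bound 0 a ha
      refine ⟨(0, a), ⟨ha, Or.inr (Or.inr (Or.inl ⟨rfl, by show 13 ≤ s - ss a; omega, by
        show (t - tt a) % 14 = 1; omega⟩))⟩, ?_⟩
      rintro ⟨g, b⟩ ⟨hb1, hb2⟩
      have hb3 := Fs_bound g b hb1
      simp only at hb1 hb2 hb3
      rcases hb2 with ⟨_, h, _⟩ | ⟨_, h, _⟩ | ⟨hg, h, h'⟩ | ⟨_, h, _⟩
      · omega
      · omega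
      · subst hg
        rw [Fs0_un a ha b hb1 (by omega)]
      · omega
    · obtain ⟨a, ha, har⟩ := Fs2_ex ⟨(t % 14).toNat, by omega⟩
      have hr : (((t % 14).toNat : ℕ) : ℤ) = t % 14 := by omega
      simp only [hr] at har
      have hb := Fs_bound 2 a ha
      refine ⟨(2, a), ⟨ha, Or.inr (Or.inr (Or.inr ⟨rfl, by show s - ss a ≤ -6; omega, by
        show (t - tt a) % 14 = 6; omega⟩))⟩, ?_⟩
      rintro ⟨g, b⟩ ⟨hb1, hb2⟩
      have hb3 := Fs_bound g b hb1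
      simp only at hb1 hb2 hb3
      rcases hb2 with ⟨_, h, _⟩ | ⟨_, h, _⟩ | ⟨_, h, _⟩ | ⟨hg, h, h'⟩
      · omega
      · omega
      · omega
      · subst hg
        rw [Fs2_un a ha b hb1 (by omega)]

theorem W_tiling : TilingS W := by
  intro c
  obtain ⟨⟨g, f⟩, ⟨hf, hu⟩, huq⟩ := one (ss c) (tt c) (by unfold ss tt; omega)
  have hs : ∀ x y : ℤ × ℤ, ss (x - y) = ss x - ss y := by
    intro x y
    simp only [ss, Prod.fst_sub, Prod.snd_sub]
    ring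
  have ht : ∀ x y : ℤ × ℤ, tt (x - y) = tt x - tt y := by
    intro x y
    simp only [tt, Prod.fst_sub, Prod.snd_sub]
    ring
  refine ⟨(g, c - f), ⟨?_, ?_⟩, ?_⟩
  · show UW g (ss (c - f)) (tt (c - f))
    rw [hs, ht]
    exact hu
  · show c - (c - f) ∈ Fs g
    rw [sub_sub_cancel]
    exact hf
  · rintro ⟨g', z⟩ ⟨hq, hc⟩
    have h1 := huq (g', c - z) ⟨hc, by
      show UW g' (ss c - ss (c - z)) (tt c - tt (c - z))
      rw [← hs, ← ht, sub_sub_cancel]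
      exact hq⟩
    have h2 : g' = g := congrArg Prod.fst h1
    have h3 : c - z = f := congrArg Prod.snd h1
    rw [h2, ← h3, sub_sub_cancel]

end AlefS
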