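import Pool.Agent.AlefS.Prod
import Pool.Agent.AlefS.Two

/-!
# Infinitely many inequivalent exact covers
-/

set_option autoImplicit false

namespace AlefS

/-- even layer: the cover with one wall; odd layer: its translate by `14 n` -/
def Fam (n : ℕ) : Set Pl :=
  {q | ∃ p : ℤ × ℤ, (q.2 = ph p ∧ UW q.1 (ss p) (tt p)) ∨
    (q.2 = ph p + (1, 0) ∧ UW q.1 (ss p - 14 * n) (tt p))}

theorem shift_tiling (t : ℤ × ℤ) {P : Set Pl} (hP : TilingS P) :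
    TilingS {q : Pl | (q.1, q.2 - t) ∈ P} := by
  intro c
  obtain ⟨q, ⟨hq, hc⟩, hu⟩ := hP (c - t)
  refine ⟨(q.1, q.2 + t), ⟨?_, ?_⟩, ?_⟩
  · show (q.1, q.2 + t - t) ∈ P
    rw [add_sub_cancel_right]
    exact hq
  · show c - (q.2 + t) ∈ Fs q.1
    rw [add_comm, ← sub_sub]
    exact hc
  · rintro q' ⟨h1, h2⟩
    have h3 := hu (q'.1, q'.2 - t) ⟨h1, by
      show c - t - (q'.2 - t) ∈ Fs q'.1
      rw [sub_sub_sub_cancel_right]
      exact h2⟩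
    rw [← h3]
    show q' = (q'.1, q'.2 - t + t)
    rw [sub_add_cancel]

theorem fam_tiling (n : ℕ) : Tiling (Fam n) := by
  rw [tiling_iff]
  intro r
  have i0 : ∀ p p' : ℤ × ℤ, ph p + ((0 : ℤ), (0 : ℤ)) = ph p' → p = p' := by
    rintro ⟨x, y⟩ ⟨x', y'⟩ h
    simp only [ph, Prod.mk.injEq, Prod.mk_add_mk] at h
    obtain ⟨h1, h2⟩ := h
    ext
    · show x = x'
      omega
    · show y = y'
      omega
  have i1 : ∀ p p' : ℤ × ℤ, ph p + ((1 : ℤ), (0 : ℤ)) = ph p' + (1, 0) → p = p' := by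
    rintro p p' h
    exact i0 p p' (by rw [add_right_cancel h]; simp)
  have i2 : ∀ p p' : ℤ × ℤ, ph p + ((1 : ℤ), (0 : ℤ)) ≠ ph p' := by
    rintro ⟨x, y⟩ ⟨x', y'⟩ h
    simp only [ph, Prod.mk.injEq, Prod.mk_add_mk] at h
    obtain ⟨h1, h2⟩ := h
    omega
  fin_cases r
  · have e : lay 0 (Fam n) = W := by
      ext q
      obtain ⟨g, z⟩ := q
      show (∃ p : ℤ × ℤ, (ph z + ((0 : ℤ), (0 : ℤ)) = ph p ∧ UW g (ss p) (tt p)) ∨
        (ph z + ((0 : ℤ), (0 : ℤ)) = ph p + (1, 0) ∧ UW g (ss p - 14 * n) (tt p))) ↔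
        UW g (ss z) (tt z)
      constructor
      · rintro ⟨p, ⟨h, hu⟩ | ⟨h, _⟩⟩
        · rw [i0 z p h]
          exact hu
        · exfalso
          refine i2 p z ?_
          rw [← h]
          simp
      · intro h
        exact ⟨z, Or.inl ⟨by simp, h⟩⟩
    show TilingS (lay 0 (Fam n))
    rw [e]
    exact W_tiling
  · have e : lay 1 (Fam n) = {q : Pl | (q.1, q.2 - ((-10 * n : ℤ), (2 * n : ℤ))) ∈ W} := by
      ext q
      obtain ⟨g, x, y⟩ := q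
      show (∃ p : ℤ × ℤ, (ph (x, y) + ((1 : ℤ), (0 : ℤ)) = ph p ∧ UW g (ss p) (tt p)) ∨
        (ph (x, y) + ((1 : ℤ), (0 : ℤ)) = ph p + (1, 0) ∧ UW g (ss p - 14 * n) (tt p))) ↔
        UW g (2 * (y - 2 * n) - (x - -10 * n)) ((x - -10 * n) + 5 * (y - 2 * n))
      have e1 : 2 * (y - 2 * (n : ℤ)) - (x - -10 * n) = ss (x, y) - 14 * n := by
        show _ = 2 * y - x - 14 * (n : ℤ)
        ring
      have e2 : (x - -10 * (n : ℤ)) + 5 * (y - 2 * n) = tt (x, y) := by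
        show _ = x + 5 * y
        ring
      rw [e1, e2]
      constructor
      · rintro ⟨p, ⟨h, _⟩ | ⟨h, hu⟩⟩
        · exact absurd h (i2 (x, y) p)
        · rw [i1 _ p h]
          exact hu
      · intro h
        exact ⟨(x, y), Or.inr ⟨rfl, h⟩⟩
    show TilingS (lay 1 (Fam n))
    rw [e]
    exact shift_tiling _ W_tiling

theorem mem0 {n : ℕ} {g : Fin 8} {p : ℤ × ℤ} (h : UW g (ss p) (tt p)) :
    ((g, ph p) : Pl) ∈ Fam n := ⟨p, Or.inl ⟨rfl, h⟩⟩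

theorem mem1 {n : ℕ} {g : Fin 8} {p : ℤ × ℤ} (h : UW g (ss p - 14 * n) (tt p)) :
    ((g, ph p + (1, 0)) : Pl) ∈ Fam n := ⟨p, Or.inr ⟨rfl, h⟩⟩

theorem row5 {n : ℕ} {x y : ℤ} (h : ((5, (x, y)) : Pl) ∈ Fam n) :
    ((x + y) % 2 = 0 ∧ y - 3 * x = 0) ∨ ((x + y) % 2 = 1 ∧ y - 3 * x = 28 * n - 3) := by
  obtain ⟨⟨a, b⟩, h⟩ := h
  simp only [ph, ss, tt, UW, Prod.mk.injEq, Prod.mk_add_mk] at h
  rcases h with ⟨⟨h1, h2⟩, h3⟩ | ⟨⟨h1, h2⟩, h3⟩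
  · have h4 : 2 * b - a = 0 := by
      rcases h3 with ⟨_, h, _⟩ | ⟨h, _⟩ | ⟨h, _⟩ | ⟨h, _⟩
      · exact h
      · exact absurd h (by decide)
      · exact absurd h (by decide)
      · exact absurd h (by decide)
    left
    omega
  · have h4 : 2 * b - a - 14 * n = 0 := by
      rcases h3 with ⟨_, h, _⟩ | ⟨h, _⟩ | ⟨h, _⟩ | ⟨h, _⟩
      · exact h
      · exact absurd h (by decide)
      · exact absurd h (by decide)
      · exact absurd h (by decide)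
    right
    omega

theorem row7 {n : ℕ} {x y : ℤ} (h : ((7, (x, y)) : Pl) ∈ Fam n) :
    ((x + y) % 2 = 0 ∧ y - 3 * x = 14) ∨ ((x + y) % 2 = 1 ∧ y - 3 * x = 28 * n + 11) := by
  obtain ⟨⟨a, b⟩, h⟩ := h
  simp only [ph, ss, tt, UW, Prod.mk.injEq, Prod.mk_add_mk] at h
  rcases h with ⟨⟨h1, h2⟩, h3⟩ | ⟨⟨h1, h2⟩, h3⟩
  · have h4 : 2 * b - a = 7 := by
      rcases h3 with ⟨h, _⟩ | ⟨_, h, _⟩ | ⟨h, _⟩ | ⟨h, _⟩
      · exact absurd h (by decide)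
      · exact h
      · exact absurd h (by decide)
      · exact absurd h (by decide)
    left
    omega
  · have h4 : 2 * b - a - 14 * n = 7 := by
      rcases h3 with ⟨h, _⟩ | ⟨_, h, _⟩ | ⟨h, _⟩ | ⟨h, _⟩
      · exact absurd h (by decide)
      · exact h
      · exact absurd h (by decide)
      · exact absurd h (by decide)
    right
    omega

theorem absent {n : ℕ} {g : Fin 8} {p : ℤ × ℤ} (hg : g ≠ 0 ∧ g ≠ 2 ∧ g ≠ 5 ∧ g ≠ 7) :
    ((g, p) : Pl) ∉ Fam n := by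
  rintro ⟨q, ⟨_, h⟩ | ⟨_, h⟩⟩
  · rcases h with ⟨h, _⟩ | ⟨h, _⟩ | ⟨h, _⟩ | ⟨h, _⟩
    · exact hg.2.2.1 h
    · exact hg.2.2.2 h
    · exact hg.1 h
    · exact hg.2.1 h
  · rcases h with ⟨h, _⟩ | ⟨h, _⟩ | ⟨h, _⟩ | ⟨h, _⟩
    · exact hg.2.2.1 h
    · exact hg.2.2.2 h
    · exact hg.1 h
    · exact hg.2.1 h

theorem zero_mem (m : ℕ) (j : ℤ) : ((0, (-13 + 2 * j, -13 + 6 * j)) : Pl) ∈ Fam m := by
  have h : ((0, ph (-13 + 4 * j, 2 * j)) : Pl) ∈ Fam m := by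
    refine mem0 (Or.inr (Or.inr (Or.inl ⟨rfl, ?_, ?_⟩)))
    · show 13 ≤ 2 * (2 * j) - (-13 + 4 * j)
      omega
    · show (-13 + 4 * j + 5 * (2 * j)) % 14 = 1
      omega
  have e : ph (-13 + 4 * j, 2 * j) = (-13 + 2 * j, -13 + 6 * j) := by
    ext
    · show -13 + 4 * j - 2 * j = -13 + 2 * j
      ring
    · show -13 + 4 * j + 2 * j = -13 + 6 * j
      ring
  rwa [e] at h

theorem five_mem (m : ℕ) : ((5, (0, 0)) : Pl) ∈ Fam m :=
  mem0 (p := (0, 0)) (Or.inl ⟨rfl, rfl, rfl⟩)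

theorem five_mem' (m : ℕ) : ((5, (1 - 12 * m, -8 * m)) : Pl) ∈ Fam m := by
  have h : ((5, ph (-10 * m, 2 * m) + (1, 0)) : Pl) ∈ Fam m := by
    refine mem1 (Or.inl ⟨rfl, ?_, ?_⟩)
    · show 2 * (2 * (m : ℤ)) - (-10 * m) - 14 * m = 0
      ring
    · show (-10 * (m : ℤ) + 5 * (2 * m)) % 14 = 0
      omega
  have e : ph (-10 * (m : ℤ), 2 * (m : ℤ)) + (1, 0) = (1 - 12 * (m : ℤ), -8 * (m : ℤ)) := by
    ext
    · show -10 * (m : ℤ) - 2 * m + 1 = 1 - 12 * m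
      ring
    · show -10 * (m : ℤ) + 2 * m + 0 = -8 * m
      ring
  rwa [e] at h

theorem gb0 (p : ℤ × ℤ) : gb 0 p = (p.1, p.2) := rfl

theorem gb2 (p : ℤ × ℤ) : gb 2 p = (-p.1, -p.2) := rfl

theorem gb5 (p : ℤ × ℤ) : gb 5 p = (-p.1, p.2) := rfl

theorem gb7 (p : ℤ × ℤ) : gb 7 p = (- -p.1, -p.2) := rfl

theorem fam_ne (m n : ℕ) (hmn : m ≠ n) :
    ¬ ∃ (k : Fin 8) (z : ℤ × ℤ), Fam n = act k z '' Fam m := by
  rintro ⟨k, ⟨z1, z2⟩, h⟩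
  have im : ∀ (g : Fin 8) (p : ℤ × ℤ), ((g, p) : Pl) ∈ Fam m →
      ((mul k g, gb k p + (z1, z2)) : Pl) ∈ Fam n := by
    intro g p hq
    rw [h]
    exact ⟨_, hq, rfl⟩
  have h0 := im _ _ (zero_mem m 0)
  have h5 := im _ _ (five_mem m)
  have h5' := im _ _ (five_mem' m)
  have hz := fun j => im _ _ (zero_mem m j)
  have hk : k = 0 ∨ k = 1 ∨ k = 2 ∨ k = 3 ∨ k = 4 ∨ k = 5 ∨ k = 6 ∨ k = 7 := by omega
  rcases hk with rfl | rfl | rfl | rfl | rfl | rfl | rfl | rfl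
  · rw [gb0] at h5 h5'
    have a := row5 (x := 0 + z1) (y := 0 + z2) h5
    have b := row5 (x := 1 - 12 * m + z1) (y := -8 * m + z2) h5'
    omega
  · exact absurd h0 (absent (by decide))
  · rw [gb2] at h5 h5'
    have a := row7 (x := -0 + z1) (y := -0 + z2) h5
    have b := row7 (x := -(1 - 12 * m) + z1) (y := -(-8 * m) + z2) h5'
    omega
  · exact absurd h0 (absent (by decide))
  · exact absurd h0 (absent (by decide))
  · simp only [gb5] at hz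
    have a := row5 (x := -(-13 + 2 * 0) + z1) (y := -13 + 6 * 0 + z2) (hz 0)
    have b := row5 (x := -(-13 + 2 * 1) + z1) (y := -13 + 6 * 1 + z2) (hz 1)
    omega
  · exact absurd h0 (absent (by decide))
  · simp only [gb7] at hz
    have a := row7 (x := - -(-13 + 2 * 0) + z1) (y := -(-13 + 6 * 0) + z2) (hz 0)
    have b := row7 (x := - -(-13 + 2 * 1) + z1) (y := -(-13 + 6 * 1) + z2) (hz 1)
    omega

theorem infinite_family : ∃ P : ℕ → Set Pl, (∀ n, Tiling (P n)) ∧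
    ∀ m n, m ≠ n → ¬ ∃ (k : Fin 8) (z : ℤ × ℤ), P n = act k z '' P m :=
  ⟨Fam, fam_tiling, fam_ne⟩

end AlefS
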