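import Pool.Agent.AlefS.Defs

/-!
# The exact covers by the tile are the pairs of exact covers by the 14-omino
-/

set_option autoImplicit false

namespace AlefS

/-- rotation by 45 degrees and scaling by the square root of two -/
def ph (p : ℤ × ℤ) : ℤ × ℤ := (p.1 - p.2, p.1 + p.2)

/-- the placements of the layer `r` -/
def emb (r : Fin 2) (q : Pl) : Pl := (q.1, ph q.2 + ((r.val : ℤ), 0))

/-- the layer `r` of a set of placements -/
def lay (r : Fin 2) (P : Set Pl) : Set Pl := {q | emb r q ∈ P}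

theorem Fb_ph : ∀ g : Fin 8, Fb g = (Fs g).map ph := by decide +kernel

theorem emb_inj {r r' : Fin 2} {q q' : Pl} (h : emb r q = emb r' q') : r = r' ∧ q = q' := by
  obtain ⟨g, x, y⟩ := q
  obtain ⟨g', x', y'⟩ := q'
  simp only [emb, ph, Prod.mk.injEq, Prod.mk_add_mk] at h
  obtain ⟨h1, h2, h3⟩ := h
  have hr : r.val = r'.val := by
    have := r.isLt
    have := r'.isLt
    omega
  have hr' : r = r' := Fin.ext hr
  subst hr'
  refine ⟨rfl, ?_⟩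
  subst h1
  have h4 : x = x' := by omega
  have h5 : y = y' := by omega
  rw [h4, h5]

theorem emb_ex (q : Pl) : ∃ (r : Fin 2) (q' : Pl), q = emb r q' := by
  obtain ⟨g, x, y⟩ := q
  rcases Int.emod_two_eq_zero_or_one (x + y) with h | h
  · refine ⟨0, (g, ((x + y) / 2, (y - x) / 2)), ?_⟩
    simp only [emb, ph, Prod.mk.injEq, Prod.mk_add_mk, true_and]
    constructor
    · show x = _ + (((0 : Fin 2).val : ℕ) : ℤ)
      have : (((0 : Fin 2).val : ℕ) : ℤ) = 0 := rfl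
      omega
    · omega
  · refine ⟨1, (g, ((x + y - 1) / 2, (y - x + 1) / 2)), ?_⟩
    simp only [emb, ph, Prod.mk.injEq, Prod.mk_add_mk, true_and]
    constructor
    · show x = _ + (((1 : Fin 2).val : ℕ) : ℤ)
      have : (((1 : Fin 2).val : ℕ) : ℤ) = 1 := rfl
      omega
    · omega

theorem pt_ex (c : ℤ × ℤ) : ∃ (r : Fin 2) (d : ℤ × ℤ), c = ph d + ((r.val : ℤ), 0) := by
  obtain ⟨r, q, h⟩ := emb_ex (0, c)
  exact ⟨r, q.2, congrArg Prod.snd h⟩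

theorem cov (r : Fin 2) (d : ℤ × ℤ) (q : Pl) :
    ph d + ((r.val : ℤ), 0) - q.2 ∈ Fb q.1 ↔ ∃ q', q = emb r q' ∧ d - q'.2 ∈ Fs q'.1 := by
  rw [Fb_ph, List.mem_map]
  constructor
  · rintro ⟨f, hf, h⟩
    refine ⟨(q.1, d - f), ?_, ?_⟩
    · obtain ⟨g, x, y⟩ := q
      obtain ⟨d1, d2⟩ := d
      obtain ⟨f1, f2⟩ := f
      simp only [emb, ph, Prod.mk.injEq, Prod.mk_add_mk, Prod.mk_sub_mk, true_and] at h ⊢
      constructor <;> omega
    · have : d - (d - f) = f := by abel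
      rw [this]
      exact hf
  · rintro ⟨q', rfl, h⟩
    refine ⟨d - q'.2, h, ?_⟩
    obtain ⟨g, x, y⟩ := q'
    obtain ⟨d1, d2⟩ := d
    simp only [emb, ph, Prod.mk.injEq, Prod.mk_add_mk, Prod.mk_sub_mk]
    constructor <;> ring

theorem cov_unique (r : Fin 2) (d : ℤ × ℤ) (P : Set Pl) :
    (∃! q : Pl, q ∈ P ∧ ph d + ((r.val : ℤ), 0) - q.2 ∈ Fb q.1) ↔
      ∃! q : Pl, q ∈ lay r P ∧ d - q.2 ∈ Fs q.1 := by
  constructor
  · rintro ⟨q, ⟨hq, hc⟩, hu⟩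
    obtain ⟨q', rfl, hq'⟩ := (cov r d q).1 hc
    refine ⟨q', ⟨hq, hq'⟩, ?_⟩
    rintro q'' ⟨h1, h2⟩
    exact (emb_inj (hu (emb r q'') ⟨h1, (cov r d _).2 ⟨q'', rfl, h2⟩⟩)).2
  · rintro ⟨q, ⟨hq, hc⟩, hu⟩
    refine ⟨emb r q, ⟨hq, (cov r d _).2 ⟨q, rfl, hc⟩⟩, ?_⟩
    rintro q' ⟨h1, h2⟩
    obtain ⟨q'', rfl, h3⟩ := (cov r d q').1 h2
    rw [hu q'' ⟨h1, h3⟩]

theorem tiling_iff (P : Set Pl) : Tiling P ↔ ∀ r, TilingS (lay r P) := by
  constructor
  · intro h r d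
    exact (cov_unique r d P).1 (h _)
  · intro h c
    obtain ⟨r, d, rfl⟩ := pt_ex c
    exact (cov_unique r d P).2 (h r d)

theorem eq_lay (P : Set Pl) : P = emb 0 '' lay 0 P ∪ emb 1 '' lay 1 P := by
  ext q
  constructor
  · intro hq
    obtain ⟨r, q', rfl⟩ := emb_ex q
    fin_cases r
    · exact Or.inl ⟨q', hq, rfl⟩
    · exact Or.inr ⟨q', hq, rfl⟩
  · rintro (⟨q', h, rfl⟩ | ⟨q', h, rfl⟩)
    · exact h
    · exact h

theorem countable_of (h : {P : Set Pl | TilingS P}.Countable) :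
    {P : Set Pl | Tiling P}.Countable := by
  refine ((h.prod h).image fun x => emb 0 '' x.1 ∪ emb 1 '' x.2).mono ?_
  intro P hP
  exact ⟨(lay 0 P, lay 1 P), ⟨(tiling_iff P).1 hP 0, (tiling_iff P).1 hP 1⟩, (eq_lay P).symm⟩

end AlefS
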