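import Pool.Agent.AlefS.SqIso
import Pool.Agent.AlefS.Edge

/-!
# Tilings of the plane by axis-parallel unit squares: the squares in grid position
-/

set_option autoImplicit false

namespace AlefS

open TilDich

theorem fl_cell {i j : Fin 2} (hij : i ≠ j) (x v : Eu 2) : fl (x - v) ∈ cellF ↔
    (v i ≤ x i ∧ x i < v i + 1) ∧ v j ≤ x j ∧ x j < v j + 1 := by
  have key : ∀ k : Fin 2, fl (x - v) k = 0 ↔ (v k ≤ x k ∧ x k < v k + 1) := by
    intro k
    show ⌊x k - v k⌋ = 0 ↔ _
    rw [Int.floor_eq_zero_iff, Set.mem_Ico]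
    constructor
    · rintro ⟨h1, h2⟩
      exact ⟨by linarith, by linarith⟩
    · rintro ⟨h1, h2⟩
      exact ⟨by linarith, by linarith⟩
  rw [← key, ← key, cellF, Finset.mem_singleton]
  constructor
  · intro h
    have e : ∀ k : Fin 2, (![0, 0] : Fin 2 → ℤ) k = 0 := by
      intro k
      fin_cases k <;> rfl
    rw [h]
    exact ⟨e i, e j⟩
  · rintro ⟨h1, h2⟩
    have h3 : ∀ k : Fin 2, fl (x - v) k = 0 := by
      intro k
      have key2 : ∀ i j : Fin 2, i ≠ j → ∀ k : Fin 2, k = i ∨ k = j := by decide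
      rcases key2 i j hij k with rfl | rfl
      · exact h1
      · exact h2
    funext k
    rw [h3]
    fin_cases k <;> rfl

/-- point with coordinates `a` in direction `i` and `b` in direction `j` -/
noncomputable def pt (i j : Fin 2) (a b : ℝ) : Eu 2 := ev i a + ev j b

theorem pt_i {i j : Fin 2} (hij : i ≠ j) (a b : ℝ) : pt i j a b i = a := by
  show (ev i a : Eu 2) i + (ev j b : Eu 2) i = a
  rw [ev_same, ev_ne hij, add_zero]

theorem pt_j {i j : Fin 2} (hij : i ≠ j) (a b : ℝ) : pt i j a b j = b := by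
  show (ev i a : Eu 2) j + (ev j b : Eu 2) j = b
  rw [ev_same, ev_ne hij.symm, zero_add]

variable {V : Set (Eu 2)}

theorem cover_pt (hV : HO cellF V) {i j : Fin 2} (hij : i ≠ j) (a b : ℝ) :
    ∃ v ∈ V, a - 1 < v i ∧ v i ≤ a ∧ b - 1 < v j ∧ v j ≤ b := by
  obtain ⟨v, ⟨hv, h⟩, _⟩ := hV (pt i j a b)
  rw [fl_cell hij, pt_i hij, pt_j hij] at h
  exact ⟨v, hv, by linarith [h.1.2], h.1.1, by linarith [h.2.2], h.2.1⟩

theorem class_eq (hV : HO cellF V) {i j : Fin 2} (hij : i ≠ j) {v w : Eu 2} (hv : v ∈ V)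
    (hw : w ∈ V) {s : ℝ} (h1 : v j ≤ s) (h2 : s < v j + 1) (h3 : w j ≤ s) (h4 : s < w j + 1) :
    Int.fract (v i) = Int.fract (w i) := by
  refine class_line' hV i (ev j s) (v i) (w i) v w hv ?_ hw ?_
  · rw [fl_cell hij]
    have e1 : (ev j s + ev i (v i) : Eu 2) i = v i := by
      show (ev j s : Eu 2) i + (ev i (v i) : Eu 2) i = _
      rw [ev_same, ev_ne hij, zero_add]
    have e2 : (ev j s + ev i (v i) : Eu 2) j = s := by
      show (ev j s : Eu 2) j + (ev i (v i) : Eu 2) j = _
      rw [ev_same, ev_ne hij.symm, add_zero]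
    rw [e1, e2]
    exact ⟨⟨le_refl _, by linarith⟩, h1, h2⟩
  · rw [fl_cell hij]
    have e1 : (ev j s + ev i (w i) : Eu 2) i = w i := by
      show (ev j s : Eu 2) i + (ev i (w i) : Eu 2) i = _
      rw [ev_same, ev_ne hij, zero_add]
    have e2 : (ev j s + ev i (w i) : Eu 2) j = s := by
      show (ev j s : Eu 2) j + (ev i (w i) : Eu 2) j = _
      rw [ev_same, ev_ne hij.symm, add_zero]
    rw [e1, e2]
    exact ⟨⟨le_refl _, by linarith⟩, h3, h4⟩

/-- all squares which meet the strip `n ≤ x j < n + 1` have integral coordinate `i` -/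
def LI (V : Set (Eu 2)) (i j : Fin 2) (n : ℤ) : Prop :=
  ∀ v ∈ V, (n : ℝ) - 1 < v j → v j < n + 1 → Int.fract (v i) = 0

theorem int_of_fract {r : ℝ} (h : Int.fract r = 0) : ∃ n : ℤ, r = n := by
  rw [Int.fract, sub_eq_zero] at h
  exact ⟨_, h⟩

theorem LI_of (hV : HO cellF V) {i j : Fin 2} (hij : i ≠ j) {a b : ℤ} {v : Eu 2} (hv : v ∈ V)
    (ha : v i = a) (hb : v j = b) : LI V i j b := by
  intro w hw h1 h2
  have h3 : Int.fract (v i) = Int.fract (w i) := by
    refine class_eq hV hij hv hw (s := max (v j) (w j)) (le_max_left _ _) ?_ (le_max_right _ _) ?_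
    · rw [max_lt_iff, hb]
      constructor <;> linarith
    · rw [max_lt_iff, hb]
      constructor <;> linarith
  rw [← h3, ha, Int.fract_intCast]

theorem of_LI (hV : HO cellF V) {i j : Fin 2} (hij : i ≠ j) {a b : ℤ} (h1 : LI V i j b)
    (h2 : LI V j i a) : ∃ v ∈ V, v i = a ∧ v j = b := by
  obtain ⟨v, hv, a1, a2, a3, a4⟩ := cover_pt hV hij (a : ℝ) (b : ℝ)
  obtain ⟨m, hm⟩ := int_of_fract (h1 v hv a3 (by linarith))
  obtain ⟨n, hn⟩ := int_of_fract (h2 v hv a1 (by linarith))
  refine ⟨v, hv, ?_, ?_⟩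
  · rw [hm] at a1 a2 ⊢
    have b1 : a - 1 < m := by exact_mod_cast a1
    have b2 : m ≤ a := by
      have : (m : ℝ) ≤ a := a2
      exact_mod_cast this
    have : m = a := by omega
    rw [this]
  · rw [hn] at a3 a4 ⊢
    have b1 : b - 1 < n := by exact_mod_cast a3
    have b2 : n ≤ b := by
      have : (n : ℝ) ≤ b := a4
      exact_mod_cast this
    have : n = b := by omega
    rw [this]

theorem fract_add_one' (r : ℝ) (u : ℝ) (h : Int.fract u = Int.fract r) (h1 : r < u)
    (h2 : u ≤ r + 1) : u = r + 1 := by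
  obtain ⟨n, hn⟩ := Int.fract_eq_fract.1 h
  have b1 : (0 : ℝ) < n := by linarith
  have b2 : (n : ℝ) ≤ 1 := by linarith
  have c1 : (0 : ℤ) < n := by exact_mod_cast b1
  have c2 : n ≤ (1 : ℤ) := by exact_mod_cast b2
  have : n = 1 := by omega
  rw [this] at hn
  push_cast at hn
  linarith

/-- if the squares over one column are shifted then every row next to an integral row is
integral -/
theorem LI_next (hV : HO cellF V) {i j : Fin 2} (hij : i ≠ j) {a a0 b : ℤ} (ha : ¬ LI V j i a)
    (hb : LI V i j b) (h0 : LI V j i a0) : LI V i j (b + 1) ∧ LI V i j (b - 1) := by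
  have ha' : ∃ v ∈ V, (a : ℝ) - 1 < v i ∧ v i < a + 1 ∧ Int.fract (v j) ≠ 0 := by
    by_contra hcon
    apply ha
    intro v hv h1 h2
    by_contra h3
    exact hcon ⟨v, hv, h1, h2, h3⟩
  obtain ⟨v, hv, v1, v2, v3⟩ := ha'
  obtain ⟨X, hX⟩ : ∃ X : ℝ, X = max (v i) a := ⟨_, rfl⟩
  have X1 : v i ≤ X := by rw [hX]; exact le_max_left _ _
  have X2 : X < v i + 1 := by
    rw [hX, max_lt_iff]
    constructor <;> linarith
  -- the square over `(X, b)`
  obtain ⟨u, hu, u1, u2, u3, u4⟩ := cover_pt hV hij X (b : ℝ)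
  have fu : Int.fract (u j) = Int.fract (v j) :=
    class_eq hV hij.symm hu hv (s := X) u2 (by linarith) X1 X2
  have hub : u j < b := by
    rcases lt_or_eq_of_le u4 with h | h
    · exact h
    · exfalso
      apply v3
      rw [← fu, h, Int.fract_intCast]
  have u0 : Int.fract (u i) = 0 := hb u hu u3 (by linarith)
  -- the next one
  obtain ⟨w, hw, w1, w2, w3, w4⟩ := cover_pt hV hij X (u j + 1)
  have fw : Int.fract (w j) = Int.fract (u j) :=
    class_eq hV hij.symm hw hu (s := X) w2 (by linarith) u2 (by linarith)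
  have hwj : w j = u j + 1 := fract_add_one' _ _ fw (by linarith) w4
  have w0 : Int.fract (w i) = 0 := hb w hw (by linarith) (by linarith)
  constructor
  · obtain ⟨y, hy, y1, y2, y3, y4⟩ := cover_pt hV hij (a0 : ℝ) ((b : ℝ) + 1)
    obtain ⟨n, hn⟩ := int_of_fract (h0 y hy y1 (by linarith))
    have hyj : y j = ((b + 1 : ℤ) : ℝ) := by
      rw [hn] at y3 y4 ⊢
      have c1 : (b : ℤ) < n := by
        have : (b : ℝ) < n := by linarith
        exact_mod_cast this
      have c2 : n ≤ b + 1 := by
        have : (n : ℝ) ≤ b + 1 := y4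
        exact_mod_cast this
      have : n = b + 1 := by omega
      rw [this]
    have hyj' : y j = (b : ℝ) + 1 := by rw [hyj]; push_cast; ring
    have fy : Int.fract (y i) = Int.fract (w i) :=
      class_eq hV hij hy hw (s := (b : ℝ) + 1) (by linarith) (by linarith) (by linarith)
        (by linarith)
    obtain ⟨m, hm⟩ := int_of_fract (fy.trans w0)
    exact LI_of hV hij hy hm hyj
  · obtain ⟨y, hy, y1, y2, y3, y4⟩ := cover_pt hV hij (a0 : ℝ) ((b : ℝ) - 1)
    obtain ⟨n, hn⟩ := int_of_fract (h0 y hy y1 (by linarith))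
    have hyj : y j = ((b - 1 : ℤ) : ℝ) := by
      rw [hn] at y3 y4 ⊢
      have c1 : b - 2 < n := by
        have : (b : ℝ) - 2 < n := by linarith
        exact_mod_cast this
      have c2 : n ≤ b - 1 := by
        have : (n : ℝ) ≤ b - 1 := y4
        exact_mod_cast this
      have : n = b - 1 := by omega
      rw [this]
    have hyj' : y j = (b : ℝ) - 1 := by rw [hyj]; push_cast; ring
    have fy : Int.fract (y i) = Int.fract (u i) :=
      class_eq hV hij hy hu (s := u j) (by linarith) (by linarith) (by linarith) (by linarith)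
    obtain ⟨m, hm⟩ := int_of_fract (fy.trans u0)
    exact LI_of hV hij hy hm hyj

theorem LI_all (hV : HO cellF V) {i j : Fin 2} (hij : i ≠ j) {a a0 b0 : ℤ} (ha : ¬ LI V j i a)
    (hb : LI V i j b0) (h0 : LI V j i a0) (b : ℤ) : LI V i j b := by
  have h1 : ∀ n : ℕ, LI V i j (b0 + n) := by
    intro n
    induction n with
    | zero => simpa using hb
    | succ n ih =>
      have := (LI_next hV hij ha ih h0).1
      push_cast
      rw [← add_assoc]
      exact this
  have h2 : ∀ n : ℕ, LI V i j (b0 - n) := by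
    intro n
    induction n with
    | zero => simpa using hb
    | succ n ih =>
      have := (LI_next hV hij ha ih h0).2
      push_cast
      rw [← sub_sub]
      exact this
  rcases le_total b0 b with h | h
  · have := h1 (b - b0).toNat
    rwa [Int.toNat_of_nonneg (by omega), add_sub_cancel] at this
  · have := h2 (b0 - b).toNat
    rwa [Int.toNat_of_nonneg (by omega), sub_sub_cancel] at this

/-- a predicate on the integers which holds at `0` but not at `b` changes between neighbours -/
theorem jump (p : ℤ → Prop) (h0 : p 0) {b : ℤ} (hb : ¬ p b) :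
    ∃ n : ℤ, p n ∧ (¬ p (n + 1) ∨ ¬ p (n - 1)) := by
  by_contra hcon
  push Not at hcon
  apply hb
  have h1 : ∀ n : ℕ, p n := by
    intro n
    induction n with
    | zero => exact h0
    | succ n ih =>
      push_cast
      exact (hcon _ ih).1
  have h2 : ∀ n : ℕ, p (-n) := by
    intro n
    induction n with
    | zero => simpa using h0
    | succ n ih =>
      have := (hcon _ ih).2
      push_cast
      rw [neg_add]
      exact this
  rcases le_total 0 b with h | h
  · have := h1 b.toNat
    rwa [Int.toNat_of_nonneg h] at this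
  · have := h2 (-b).toNat
    rwa [Int.toNat_of_nonneg (by omega), neg_neg] at this

theorem mem_iff (hV : HO cellF V) (c : ℤ × ℤ) : gz c ∈ V ↔ LI V 0 1 c.2 ∧ LI V 1 0 c.1 := by
  constructor
  · intro h
    exact ⟨LI_of hV (by decide) h (gz0 c) (gz1 c), LI_of hV (by decide) h (gz1 c) (gz0 c)⟩
  · rintro ⟨h1, h2⟩
    obtain ⟨v, hv, e0, e1⟩ := of_LI hV (by decide) h1 h2
    have : v = gz c := ext2 e0 e1
    rwa [← this]

/-- either all grid squares belong to the tiling, or there is a full row (or column) of grid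
squares such that no grid square of a neighbouring row (column) belongs to the tiling -/
theorem rows (hV : HO cellF V) (h0 : gz (0, 0) ∈ V) : (∀ c, gz c ∈ V) ∨
    ∃ (d : Fin 4) (z : ℤ × ℤ), (∀ c, co d (c - z) = 0 → gz c ∈ V) ∧
      ∀ c, co d (c - z) = 1 → gz c ∉ V := by
  obtain ⟨r0, c0⟩ := (mem_iff hV (0, 0)).1 h0
  by_cases hr : ∃ b, ¬ LI V 0 1 b
  · obtain ⟨b, hb⟩ := hr
    have hc : ∀ a, LI V 1 0 a := LI_all hV (by decide) hb c0 r0
    right
    obtain ⟨n, hn, h | h⟩ := jump (LI V 0 1) r0 hb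
    · refine ⟨0, (0, n), ?_, ?_⟩
      · intro c h1
        have h2 : c.2 - n = 0 := h1
        have h3 : c.2 = n := by omega
        rw [mem_iff hV, h3]
        exact ⟨hn, hc _⟩
      · intro c h1 h4
        have h2 : c.2 - n = 1 := h1
        have h3 : c.2 = n + 1 := by omega
        rw [mem_iff hV, h3] at h4
        exact h h4.1
    · refine ⟨2, (0, n), ?_, ?_⟩
      · intro c h1
        have h2 : -(c.2 - n) = 0 := h1
        have h3 : c.2 = n := by omega
        rw [mem_iff hV, h3]
        exact ⟨hn, hc _⟩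
      · intro c h1 h4
        have h2 : -(c.2 - n) = 1 := h1
        have h3 : c.2 = n - 1 := by omega
        rw [mem_iff hV, h3] at h4
        exact h h4.1
  · push Not at hr
    by_cases hc : ∃ a, ¬ LI V 1 0 a
    · obtain ⟨a, ha⟩ := hc
      right
      obtain ⟨n, hn, h | h⟩ := jump (LI V 1 0) c0 ha
      · refine ⟨3, (n, 0), ?_, ?_⟩
        · intro c h1
          have h2 : c.1 - n = 0 := h1
          have h3 : c.1 = n := by omega
          rw [mem_iff hV, h3]
          exact ⟨hr _, hn⟩
        · intro c h1 h4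
          have h2 : c.1 - n = 1 := h1
          have h3 : c.1 = n + 1 := by omega
          rw [mem_iff hV, h3] at h4
          exact h h4.2
      · refine ⟨1, (n, 0), ?_, ?_⟩
        · intro c h1
          have h2 : -(c.1 - n) = 0 := h1
          have h3 : c.1 = n := by omega
          rw [mem_iff hV, h3]
          exact ⟨hr _, hn⟩
        · intro c h1 h4
          have h2 : -(c.1 - n) = 1 := h1
          have h3 : c.1 = n - 1 := by omega
          rw [mem_iff hV, h3] at h4
          exact h h4.2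
    · push Not at hc
      left
      intro c
      rw [mem_iff hV]
      exact ⟨hr _, hc _⟩

end AlefS
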