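import Pool.Agent.AlefS.Defs

/-!
# Isometries which map one unit square to an axis-parallel unit square
-/

set_option autoImplicit false

namespace AlefS

open TilDich

/-- the single cell -/
def cellF : Finset (Fin 2 → ℤ) := {![0, 0]}

theorem cell_nonempty : cellF.Nonempty := ⟨![0, 0], by simp [cellF]⟩

/-- closed unit square with lower left corner `v` -/
def usq (v : Eu 2) : Set (Eu 2) :=
  {x | v 0 ≤ x 0 ∧ x 0 ≤ v 0 + 1 ∧ v 1 ≤ x 1 ∧ x 1 ≤ v 1 + 1}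

theorem tile_usq (v : Eu 2) : tile cellF v = usq v := by
  ext x
  rw [mem_tile]
  constructor
  · rintro ⟨f, hf, h⟩
    have h0 := h 0
    have h1 := h 1
    rw [cellF, Finset.mem_singleton] at hf
    subst hf
    have e0 : ((![0, 0] : Fin 2 → ℤ) 0 : ℝ) = 0 := by simp
    have e1 : ((![0, 0] : Fin 2 → ℤ) 1 : ℝ) = 0 := by simp
    rw [e0] at h0
    rw [e1] at h1
    exact ⟨by linarith [h0.1], by linarith [h0.2], by linarith [h1.1], by linarith [h1.2]⟩
  · rintro ⟨h1, h2, h3, h4⟩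
    refine ⟨![0, 0], by simp [cellF], ?_⟩
    intro i
    fin_cases i
    · show (((0 : ℤ) : ℝ)) ≤ x 0 - v 0 ∧ x 0 - v 0 ≤ ((0 : ℤ) : ℝ) + 1
      push_cast
      constructor <;> linarith
    · show (((0 : ℤ) : ℝ)) ≤ x 1 - v 1 ∧ x 1 - v 1 ≤ ((0 : ℤ) : ℝ) + 1
      push_cast
      constructor <;> linarith

/-- the grid point as a vector -/
noncomputable def gz (c : ℤ × ℤ) : Eu 2 := WithLp.toLp 2 ![(c.1 : ℝ), (c.2 : ℝ)]

theorem gz0 (c : ℤ × ℤ) : gz c 0 = c.1 := rfl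

theorem gz1 (c : ℤ × ℤ) : gz c 1 = c.2 := rfl

theorem sq_usq (c : ℤ × ℤ) : sq c = usq (gz c) := rfl

theorem ext2 {x y : Eu 2} (h0 : x 0 = y 0) (h1 : x 1 = y 1) : x = y := by
  ext i
  fin_cases i
  · exact h0
  · exact h1

theorem usq_inj {v w : Eu 2} (h : usq v = usq w) : v = w := by
  rw [← tile_usq, ← tile_usq] at h
  exact tile_inj cell_nonempty h

theorem gz_inj {c d : ℤ × ℤ} (h : gz c = gz d) : c = d := by
  have h0 : gz c 0 = gz d 0 := by rw [h]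
  have h1 : gz c 1 = gz d 1 := by rw [h]
  rw [gz0, gz0] at h0
  rw [gz1, gz1] at h1
  exact Prod.ext (Int.cast_injective (α := ℝ) h0) (Int.cast_injective (α := ℝ) h1)

theorem sq_inj {c d : ℤ × ℤ} (h : sq c = sq d) : c = d := gz_inj (usq_inj h)

/-- vector with given coordinates -/
noncomputable def v2 (a b : ℝ) : Eu 2 := WithLp.toLp 2 ![a, b]

theorem v20 (a b : ℝ) : v2 a b 0 = a := rfl

theorem v21 (a b : ℝ) : v2 a b 1 = b := rfl

theorem add0 (x y : Eu 2) (i : Fin 2) : (x + y) i = x i + y i := rfl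

theorem sub0 (x y : Eu 2) (i : Fin 2) : (x - y) i = x i - y i := rfl

/-- linear part -/
noncomputable def KK (e : Eu 2 ≃ᵢ Eu 2) : Eu 2 ≃ₗᵢ[ℝ] Eu 2 :=
  e.toRealAffineIsometryEquiv.linearIsometryEquiv

theorem KK_add (e : Eu 2 ≃ᵢ Eu 2) (x u : Eu 2) : e (x + u) = e x + KK e u := isom_add e x u

theorem mem_usq_c (v u : Eu 2) : v + v2 (1 / 2) (1 / 2) + u ∈ usq v ↔ |u 0| ≤ 1 / 2 ∧ |u 1| ≤ 1 / 2 := by
  have e0 : (v + v2 (1 / 2) (1 / 2) + u) 0 = v 0 + 1 / 2 + u 0 := rfl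
  have e1 : (v + v2 (1 / 2) (1 / 2) + u) 1 = v 1 + 1 / 2 + u 1 := rfl
  rw [abs_le, abs_le]
  show (v 0 ≤ (v + v2 (1 / 2) (1 / 2) + u) 0 ∧ (v + v2 (1 / 2) (1 / 2) + u) 0 ≤ v 0 + 1 ∧
    v 1 ≤ (v + v2 (1 / 2) (1 / 2) + u) 1 ∧ (v + v2 (1 / 2) (1 / 2) + u) 1 ≤ v 1 + 1) ↔ _
  rw [e0, e1]
  constructor
  · rintro ⟨h1, h2, h3, h4⟩
    exact ⟨⟨by linarith, by linarith⟩, by linarith, by linarith⟩
  · rintro ⟨⟨h1, h2⟩, h3, h4⟩
    exact ⟨by linarith, by linarith, by linarith, by linarith⟩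

/-- the eight linear maps -/
def Is8 (K : Eu 2 ≃ₗᵢ[ℝ] Eu 2) (k : Fin 8) : Prop :=
  (∀ u : Eu 2, (|K u 0| ≤ 1 / 2 ∧ |K u 1| ≤ 1 / 2) ↔ (|u 0| ≤ 1 / 2 ∧ |u 1| ≤ 1 / 2)) ∧
    ∀ p : ℤ × ℤ, K (gz p) = gz (gb k p)

/-- a linear isometry which permutes the diagonals of the square -/
theorem lin8 (K : Eu 2 ≃ₗᵢ[ℝ] Eu 2) (h1 : ∀ i, |K (v2 1 1) i| = 1) (h2 : ∀ i, |K (v2 1 (-1)) i| = 1) :
    ∃ k : Fin 8, Is8 K k := by
  obtain ⟨a, ha⟩ : ∃ a, a = K (v2 1 0) := ⟨_, rfl⟩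
  obtain ⟨b, hb⟩ : ∃ b, b = K (v2 0 1) := ⟨_, rfl⟩
  have hK : ∀ u : Eu 2, ∀ i, K u i = u 0 * a i + u 1 * b i := by
    intro u i
    have e : u = u 0 • v2 1 0 + u 1 • v2 0 1 := by
      apply ext2
      · show u 0 = u 0 * 1 + u 1 * 0
        ring
      · show u 1 = u 0 * 0 + u 1 * 1
        ring
    have e2 : K u = u 0 • a + u 1 • b := by
      rw [ha, hb, ← map_smul, ← map_smul, ← map_add, ← e]
    rw [e2]
    rfl
  have hn : ∀ u : Eu 2, (K u 0) * (K u 0) + (K u 1) * (K u 1) = u 0 * u 0 + u 1 * u 1 := by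
    intro u
    rw [← inner_two, ← inner_two, K.inner_map_map]
  have na := hn (v2 1 0)
  have nb := hn (v2 0 1)
  rw [← ha] at na
  rw [← hb] at nb
  simp only [v20, v21] at na nb
  have c1 : ∀ i, a i + b i = 1 ∨ a i + b i = -1 := by
    intro i
    have h := h1 i
    rw [hK, v20, v21, one_mul, one_mul] at h
    rcases abs_choice (a i + b i) with h' | h'
    · left; rw [← h']; exact h
    · right; rw [h'] at h; linarith
  have c2 : ∀ i, a i - b i = 1 ∨ a i - b i = -1 := by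
    intro i
    have h := h2 i
    rw [hK, v20, v21, one_mul, neg_one_mul, ← sub_eq_add_neg] at h
    rcases abs_choice (a i - b i) with h' | h'
    · left; rw [← h']; exact h
    · right; rw [h'] at h; linarith
  have c3 : ∀ i, (a i = 1 ∧ b i = 0) ∨ (a i = -1 ∧ b i = 0) ∨ (a i = 0 ∧ b i = 1) ∨
      (a i = 0 ∧ b i = -1) := by
    intro i
    rcases c1 i with h | h <;> rcases c2 i with h' | h'
    · exact Or.inl ⟨by linarith, by linarith⟩
    · exact Or.inr (Or.inr (Or.inl ⟨by linarith, by linarith⟩))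
    · exact Or.inr (Or.inr (Or.inr ⟨by linarith, by linarith⟩))
    · exact Or.inr (Or.inl ⟨by linarith, by linarith⟩)
  rcases c3 0 with ⟨a0, b0⟩ | ⟨a0, b0⟩ | ⟨a0, b0⟩ | ⟨a0, b0⟩ <;>
    rcases c3 1 with ⟨a1, b1⟩ | ⟨a1, b1⟩ | ⟨a1, b1⟩ | ⟨a1, b1⟩ <;>
    first
      | (exfalso; rw [a0, a1] at na; norm_num at na; done)
      | (exfalso; rw [b0, b1] at nb; norm_num at nb; done)
      | skip
  · -- (1,0),(0,1)
    refine ⟨0, ?_, ?_⟩
    · intro u; rw [hK, hK, a0, b0, a1, b1]; simp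
    · intro p
      apply ext2
      · rw [hK, a0, b0, gz0, gz1, gz0]; simp [gb]
      · rw [hK, a1, b1, gz0, gz1, gz1]; simp [gb]
  · -- (1,0),(0,-1) : (u0,-u1)
    refine ⟨7, ?_, ?_⟩
    · intro u; rw [hK, hK, a0, b0, a1, b1]; simp
    · intro p
      apply ext2
      · rw [hK, a0, b0, gz0, gz1, gz0]; simp [gb, rt]
      · rw [hK, a1, b1, gz0, gz1, gz1]; simp [gb, rt]
  · -- (-1,0),(0,1)
    refine ⟨5, ?_, ?_⟩
    · intro u; rw [hK, hK, a0, b0, a1, b1]; simp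
    · intro p
      apply ext2
      · rw [hK, a0, b0, gz0, gz1, gz0]; simp [gb, rt]
      · rw [hK, a1, b1, gz0, gz1, gz1]; simp [gb, rt]
  · -- (-1,0),(0,-1)
    refine ⟨2, ?_, ?_⟩
    · intro u; rw [hK, hK, a0, b0, a1, b1]; simp
    · intro p
      apply ext2
      · rw [hK, a0, b0, gz0, gz1, gz0]; simp [gb, rt]
      · rw [hK, a1, b1, gz0, gz1, gz1]; simp [gb, rt]
  · -- (0,1),(1,0)
    refine ⟨4, ?_, ?_⟩
    · intro u; rw [hK, hK, a0, b0, a1, b1]; simp [and_comm]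
    · intro p
      apply ext2
      · rw [hK, a0, b0, gz0, gz1, gz0]; simp [gb]
      · rw [hK, a1, b1, gz0, gz1, gz1]; simp [gb]
  · -- (0,1),(-1,0) : (u1,-u0)
    refine ⟨3, ?_, ?_⟩
    · intro u; rw [hK, hK, a0, b0, a1, b1]; simp [and_comm]
    · intro p
      apply ext2
      · rw [hK, a0, b0, gz0, gz1, gz0]; simp [gb, rt]
      · rw [hK, a1, b1, gz0, gz1, gz1]; simp [gb, rt]
  · -- (0,-1),(1,0) : (-u1,u0)
    refine ⟨1, ?_, ?_⟩
    · intro u; rw [hK, hK, a0, b0, a1, b1]; simp [and_comm]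
    · intro p
      apply ext2
      · rw [hK, a0, b0, gz0, gz1, gz0]; simp [gb, rt]
      · rw [hK, a1, b1, gz0, gz1, gz1]; simp [gb, rt]
  · -- (0,-1),(-1,0)
    refine ⟨6, ?_, ?_⟩
    · intro u; rw [hK, hK, a0, b0, a1, b1]; simp [and_comm]
    · intro p
      apply ext2
      · rw [hK, a0, b0, gz0, gz1, gz0]; simp [gb, rt]
      · rw [hK, a1, b1, gz0, gz1, gz1]; simp [gb, rt]

/-- an isometry which maps a grid square to an axis-parallel unit square acts on all grid squares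
as one of the eight isometries followed by a translation -/
theorem isom_usq (e : Eu 2 ≃ᵢ Eu 2) {c : ℤ × ℤ} {v : Eu 2} (h : e '' sq c = usq v) :
    ∃ (k : Fin 8) (w : Eu 2), ∀ p : ℤ × ℤ, e '' sq p = usq (w + gz (gb k p)) := by
  have hd : ∀ x y : Eu 2, x ∈ sq c → y ∈ sq c → ∀ i, |e y i - e x i| ≤ 1 := by
    intro x y hx hy
    have h1 : e x ∈ usq v := by rw [← h]; exact ⟨x, hx, rfl⟩
    have h2 : e y ∈ usq v := by rw [← h]; exact ⟨y, hy, rfl⟩
    obtain ⟨a1, a2, a3, a4⟩ := h1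
    obtain ⟨b1, b2, b3, b4⟩ := h2
    intro i
    rw [abs_le]
    fin_cases i
    · show -1 ≤ e y 0 - e x 0 ∧ e y 0 - e x 0 ≤ 1
      constructor <;> linarith
    · show -1 ≤ e y 1 - e x 1 ∧ e y 1 - e x 1 ≤ 1
      constructor <;> linarith
  have hdiag : ∀ u : Eu 2, u 0 * u 0 + u 1 * u 1 = 2 → (∀ i, |KK e u i| ≤ 1) →
      ∀ i, |KK e u i| = 1 := by
    intro u hu hle
    have hn : (KK e u 0) * (KK e u 0) + (KK e u 1) * (KK e u 1) = 2 := by
      rw [← inner_two, (KK e).inner_map_map, inner_two, hu]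
    have h0 := hle 0
    have h1 := hle 1
    have s0 : (KK e u 0) * (KK e u 0) = |KK e u 0| * |KK e u 0| := (abs_mul_abs_self _).symm
    have s1 : (KK e u 1) * (KK e u 1) = |KK e u 1| * |KK e u 1| := (abs_mul_abs_self _).symm
    have p0 := abs_nonneg (KK e u 0)
    have p1 := abs_nonneg (KK e u 1)
    intro i
    fin_cases i
    · show |KK e u 0| = 1
      nlinarith
    · show |KK e u 1| = 1
      nlinarith
  have k1 : ∀ i, |KK e (v2 1 1) i| = 1 := by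
    apply hdiag
    · rw [v20, v21]; norm_num
    · intro i
      have := hd (gz c) (gz c + v2 1 1) ?_ ?_ i
      · rw [KK_add, add0, add_sub_cancel_left] at this
        exact this
      · exact ⟨le_refl _, by rw [gz0]; linarith, le_refl _, by rw [gz1]; linarith⟩
      · refine ⟨?_, ?_, ?_, ?_⟩
        · rw [add0, gz0, v20]; linarith
        · rw [add0, gz0, v20]
        · rw [add0, gz1, v21]; linarith
        · rw [add0, gz1, v21]
  have k2 : ∀ i, |KK e (v2 1 (-1)) i| = 1 := by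
    apply hdiag
    · rw [v20, v21]; norm_num
    · intro i
      have := hd (gz c + v2 0 1) (gz c + v2 0 1 + v2 1 (-1)) ?_ ?_ i
      · rw [KK_add, add0, add_sub_cancel_left] at this
        exact this
      · refine ⟨?_, ?_, ?_, ?_⟩
        · rw [add0, gz0, v20]; linarith
        · rw [add0, gz0, v20]; linarith
        · rw [add0, gz1, v21]; linarith
        · rw [add0, gz1, v21]
      · refine ⟨?_, ?_, ?_, ?_⟩
        · rw [add0, add0, gz0, v20, v20]; linarith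
        · rw [add0, add0, gz0, v20, v20]; linarith
        · rw [add0, add0, gz1, v21, v21]; linarith
        · rw [add0, add0, gz1, v21, v21]; linarith
  obtain ⟨k, hk1, hk2⟩ := lin8 (KK e) k1 k2
  refine ⟨k, e (v2 (1 / 2) (1 / 2)) - v2 (1 / 2) (1 / 2), fun p => ?_⟩
  have ep : e (v2 (1 / 2) (1 / 2) + gz p) = e (v2 (1 / 2) (1 / 2)) + gz (gb k p) := by
    rw [KK_add, hk2]
  ext y
  obtain ⟨u, hu⟩ : ∃ u, u = (KK e).symm (y - e (v2 (1 / 2) (1 / 2) + gz p)) := ⟨_, rfl⟩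
  have hu' : KK e u = y - e (v2 (1 / 2) (1 / 2) + gz p) := by rw [hu, LinearIsometryEquiv.apply_symm_apply]
  have hy : y = e (v2 (1 / 2) (1 / 2) + gz p + u) := by
    rw [KK_add, hu']
    abel
  have hy2 : y = e (v2 (1 / 2) (1 / 2)) - v2 (1 / 2) (1 / 2) + gz (gb k p) + v2 (1 / 2) (1 / 2) +
      KK e u := by
    rw [hu', ep]
    abel
  constructor
  · rintro ⟨x, hx, hxy⟩
    have hx' : x = gz p + v2 (1 / 2) (1 / 2) + u := by
      apply e.injective
      rw [hxy, hy]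
      congr 1
      abel
    rw [hx', sq_usq, mem_usq_c] at hx
    rw [hy2, mem_usq_c]
    exact (hk1 u).2 hx
  · intro h'
    rw [hy2, mem_usq_c] at h'
    refine ⟨gz p + v2 (1 / 2) (1 / 2) + u, ?_, ?_⟩
    · rw [sq_usq, mem_usq_c]
      exact (hk1 u).1 h'
    · rw [hy]
      congr 1
      abel

/-- an isometry which maps a grid square to a grid square acts on all grid squares as an isometry
of the grid -/
theorem isom_sq (e : Eu 2 ≃ᵢ Eu 2) {c d : ℤ × ℤ} (h : e '' sq c = sq d) :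
    ∃ (k : Fin 8) (z : ℤ × ℤ), ∀ p : ℤ × ℤ, e '' sq p = sq (gb k p + z) := by
  rw [sq_usq d] at h
  obtain ⟨k, w, hw⟩ := isom_usq e h
  have h1 := hw c
  rw [h] at h1
  have h2 := usq_inj h1
  refine ⟨k, d - gb k c, fun p => ?_⟩
  rw [hw, sq_usq]
  congr 1
  have h3 : w = gz d - gz (gb k c) := by rw [h2]; abel
  rw [h3]
  apply ext2
  · rw [add0, sub0, gz0, gz0, gz0, gz0]
    push_cast [Prod.fst_add, Prod.fst_sub]
    ring
  · rw [add0, sub0, gz1, gz1, gz1, gz1]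
    push_cast [Prod.snd_add, Prod.snd_sub]
    ring

end AlefS
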