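import Pool.Agent.AlefS.Defs

set_option autoImplicit false

namespace AlefS

open TilDich

/-! (a) classification of the exact covers of the small grid -/
theorem countable_tilingsS : {P : Set Pl | TilingS P}.Countable := sorry

/-! (b1) alignment: monohedral tilings come from exact covers -/
theorem disc_of_real {𝒯 : Set (Set (Eu 2))} (h : Mono T0 𝒯) :
    ∃ (g : Eu 2 ≃ᵢ Eu 2) (P : Set Pl), Tiling P ∧ (fun A => g '' A) '' 𝒯 = realize P := sorry

/-! (b2) exact covers give monohedral tilings -/
theorem real_of_disc {P : Set Pl} (h : Tiling P) : Mono T0 (realize P) := sorry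

/-! (b3) isometric ones are equivalent -/
theorem disc_of_isom {P P' : Set Pl} (h : Tiling P) (h' : Tiling P') (g : Eu 2 ≃ᵢ Eu 2)
    (hg : realize P' = (fun A => g '' A) '' realize P) :
    ∃ (k : Fin 8) (z : ℤ × ℤ), P' = act k z '' P := sorry

end AlefS
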