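import Pool.Agent.AlefS.Defs

/-!
# Symmetries of the exact covers of the small grid
-/

set_option autoImplicit false

namespace AlefS.S

open AlefS

theorem gs_apply (g : Fin 8) (p : ℤ × ℤ) : gs g p =
    (match g with
      | 0 => (p.1, p.2)
      | 1 => (-p.2, p.1)
      | 2 => (-p.1, -p.2)
      | 3 => (p.2, -p.1)
      | 4 => (p.1, -p.2)
      | 5 => (p.2, p.1)
      | 6 => (-p.1, p.2)
      | 7 => (-p.2, -p.1)) := by
  fin_cases g <;> simp [gs, rt, Function.iterate_succ_apply']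

theorem gs_add (g : Fin 8) (p q : ℤ × ℤ) : gs g (p + q) = gs g p + gs g q := by
  rw [gs_apply, gs_apply, gs_apply]
  fin_cases g <;> ext <;> simp <;> ring

theorem gs_sub (g : Fin 8) (p q : ℤ × ℤ) : gs g (p - q) = gs g p - gs g q := by
  have := gs_add g (p - q) q
  rw [sub_add_cancel] at this
  rw [this, add_sub_cancel_right]

theorem gs_inj (g : Fin 8) : Function.Injective (gs g) := by
  intro p q h
  rw [gs_apply, gs_apply] at h
  have h1 := congrArg Prod.fst h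
  have h2 := congrArg Prod.snd h
  fin_cases g <;> simp only at h1 h2 <;> ext <;> omega

theorem gs_mul (k g : Fin 8) (p : ℤ × ℤ) : gs (mul k g) p = gs k (gs g p) := by
  fin_cases k <;> fin_cases g <;>
    simp [gs, rt, mul, Function.iterate_succ_apply']

theorem mul_zero8 (k : Fin 8) : mul k 0 = k := by revert k; decide

theorem zero_mul8 (k : Fin 8) : mul 0 k = k := by revert k; decide

theorem mul_assoc8 (a b c : Fin 8) : mul (mul a b) c = mul a (mul b c) := by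
  revert a b c; decide

/-- the inverse isometry -/
def inv8 (k : Fin 8) : Fin 8 := ⟨if k.val < 4 then (4 - k.val) % 4 else k.val, by
  have := k.isLt
  split_ifs <;> omega⟩

theorem mul_inv8 (k : Fin 8) : mul k (inv8 k) = 0 := by revert k; decide

theorem inv_mul8 (k : Fin 8) : mul (inv8 k) k = 0 := by revert k; decide

theorem mul_inj8 (k a b : Fin 8) (h : mul k a = mul k b) : a = b := by
  have := congrArg (mul (inv8 k)) h
  rwa [← mul_assoc8, ← mul_assoc8, inv_mul8, zero_mul8, zero_mul8] at this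

theorem mem_Fs_act (k g : Fin 8) (c : ℤ × ℤ) : gs k c ∈ Fs (mul k g) ↔ c ∈ Fs g := by
  unfold Fs
  rw [List.mem_map, List.mem_map]
  constructor
  · rintro ⟨f, hf, h⟩
    refine ⟨f, hf, gs_inj k ?_⟩
    rw [← h, gs_mul]
  · rintro ⟨f, hf, rfl⟩
    exact ⟨f, hf, gs_mul k g f⟩

theorem acts_surj (k : Fin 8) (z : ℤ × ℤ) (q : Pl) : ∃ q', acts k z q' = q := by
  refine ⟨(mul (inv8 k) q.1, gs (inv8 k) (q.2 - z)), ?_⟩
  unfold acts
  ext1
  · show mul k (mul (inv8 k) q.1) = q.1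
    rw [← mul_assoc8, mul_inv8, zero_mul8]
  · show gs k (gs (inv8 k) (q.2 - z)) + z = q.2
    rw [← gs_mul, mul_inv8]
    show q.2 - z + z = q.2
    rw [sub_add_cancel]

theorem acts_inj (k : Fin 8) (z : ℤ × ℤ) : Function.Injective (acts k z) := by
  intro q q' h
  have h1 := congrArg Prod.fst h
  have h2 := congrArg Prod.snd h
  simp only [acts] at h1 h2
  ext1
  · exact mul_inj8 k _ _ h1
  · exact gs_inj k (add_right_cancel h2)

theorem acts_acts (k k' : Fin 8) (z z' : ℤ × ℤ) (q : Pl) :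
    acts k z (acts k' z' q) = acts (mul k k') (gs k z' + z) q := by
  unfold acts
  ext1
  · show mul k (mul k' q.1) = mul (mul k k') q.1
    rw [mul_assoc8]
  · show gs k (gs k' q.2 + z') + z = gs (mul k k') q.2 + (gs k z' + z)
    rw [gs_add, gs_mul, add_assoc]

theorem acts_cover (k : Fin 8) (z c : ℤ × ℤ) (q : Pl) :
    (gs k c + z) - (acts k z q).2 ∈ Fs (acts k z q).1 ↔ c - q.2 ∈ Fs q.1 := by
  have : (gs k c + z) - (acts k z q).2 = gs k (c - q.2) := by
    rw [gs_sub]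
    show gs k c + z - (gs k q.2 + z) = _
    abel
  rw [this]
  exact mem_Fs_act k q.1 (c - q.2)

/-- preimages of exact covers are exact covers -/
theorem _root_.AlefS.TilingS.pre {P : Set Pl} (hP : TilingS P) (k : Fin 8) (z : ℤ × ℤ) :
    TilingS {q | acts k z q ∈ P} := by
  intro c
  obtain ⟨q, ⟨hq, hc⟩, hu⟩ := hP (gs k c + z)
  obtain ⟨q', rfl⟩ := acts_surj k z q
  refine ⟨q', ⟨hq, (acts_cover k z c q').mp hc⟩, ?_⟩
  rintro r ⟨hr, hrc⟩
  exact acts_inj k z (hu _ ⟨hr, (acts_cover k z c r).mpr hrc⟩)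

/-- two tiles of an exact cover with a common cell are equal -/
theorem _root_.AlefS.TilingS.eq_of_common {P : Set Pl} (hP : TilingS P) {q q' : Pl} (hq : q ∈ P)
    (hq' : q' ∈ P) {f f' : ℤ × ℤ} (hf : f ∈ Fs q.1) (hf' : f' ∈ Fs q'.1)
    (h : q.2 + f = q'.2 + f') : q = q' := by
  obtain ⟨r, _, hu⟩ := hP (q.2 + f)
  have h1 := hu q ⟨hq, by rwa [add_sub_cancel_left]⟩
  have h2 := hu q' ⟨hq', by rw [h]; rwa [add_sub_cancel_left]⟩
  rw [h1, h2]

theorem Fs_bound (g : Fin 8) (f : ℤ × ℤ) (hf : f ∈ Fs g) :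
    -8 ≤ f.1 ∧ f.1 ≤ 8 ∧ -8 ≤ f.2 ∧ f.2 ≤ 8 := by
  revert f
  have : ∀ g : Fin 8, ∀ f ∈ Fs g, -8 ≤ f.1 ∧ f.1 ≤ 8 ∧ -8 ≤ f.2 ∧ f.2 ≤ 8 := by decide
  exact this g

end AlefS.S
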