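import Pool.Agent.AlefS.CertS

/-!
# The two exact covers of the small grid
-/

set_option autoImplicit false

namespace AlefS.S

open AlefS

/-- the linear form vanishing on `(2, 1)` -/
def us (p : ℤ × ℤ) : ℤ := p.1 - 2 * p.2

/-- the linear form of the lattice cover -/
def ws (p : ℤ × ℤ) : ℤ := 3 * p.1 + p.2

theorem us_add (p q : ℤ × ℤ) : us (p + q) = us p + us q := by
  unfold us; simp only [Prod.fst_add, Prod.snd_add]; ring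

theorem us_sub (p q : ℤ × ℤ) : us (p - q) = us p - us q := by
  unfold us; simp only [Prod.fst_sub, Prod.snd_sub]; ring

theorem ws_add (p q : ℤ × ℤ) : ws (p + q) = ws p + ws q := by
  unfold ws; simp only [Prod.fst_add, Prod.snd_add]; ring

theorem ws_sub (p q : ℤ × ℤ) : ws (p - q) = ws p - ws q := by
  unfold ws; simp only [Prod.fst_sub, Prod.snd_sub]; ring

/-- the lattice cover -/
def LatS : Set Pl := {q | q.1 = 0 ∧ ws q.2 % 14 = 0}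

/-- the cover with one wall -/
def WalS : Set Pl := {q | (q.1 = 0 ∧ us q.2 ≤ 0 ∧ ws q.2 % 14 = 0) ∨
  (q.1 = 7 ∧ us q.2 = 6 ∧ ws q.2 % 14 = 4) ∨ (q.1 = 5 ∧ us q.2 = 13 ∧ ws q.2 % 14 = 11) ∨
  (q.1 = 2 ∧ 19 ≤ us q.2 ∧ ws q.2 % 14 = 1)}

theorem res0 (r : ℤ) (h0 : 0 ≤ r) (h1 : r < 14) :
    ∃ f ∈ Fs 0, (r - ws f) % 14 = 0 ∧ -6 ≤ us f := by
  have : ∀ r ∈ Finset.Ico (0 : ℤ) 14, ∃ f ∈ Fs 0, (r - ws f) % 14 = 0 ∧ -6 ≤ us f := by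
    decide +kernel
  exact this r (Finset.mem_Ico.mpr ⟨h0, h1⟩)

theorem res2 (r : ℤ) (h0 : 0 ≤ r) (h1 : r < 14) :
    ∃ f ∈ Fs 2, (r - ws f) % 14 = 1 ∧ us f ≤ 6 := by
  have : ∀ r ∈ Finset.Ico (0 : ℤ) 14, ∃ f ∈ Fs 2, (r - ws f) % 14 = 1 ∧ us f ≤ 6 := by
    decide +kernel
  exact this r (Finset.mem_Ico.mpr ⟨h0, h1⟩)

theorem mid (n r : ℤ) (h0 : -6 ≤ n) (h1 : n ≤ 25) (h2 : 0 ≤ r) (h3 : r < 14)
    (h4 : (r - 3 * n) % 7 = 0) :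
    (∃ f ∈ Fs 0, n - us f ≤ 0 ∧ (r - ws f) % 14 = 0) ∨
      (∃ f ∈ Fs 7, n - us f = 6 ∧ (r - ws f) % 14 = 4) ∨
      (∃ f ∈ Fs 5, n - us f = 13 ∧ (r - ws f) % 14 = 11) ∨
      (∃ f ∈ Fs 2, 19 ≤ n - us f ∧ (r - ws f) % 14 = 1) := by
  have : ∀ n ∈ Finset.Icc (-6 : ℤ) 25, ∀ r ∈ Finset.Ico (0 : ℤ) 14, (r - 3 * n) % 7 = 0 →
      (∃ f ∈ Fs 0, n - us f ≤ 0 ∧ (r - ws f) % 14 = 0) ∨
      (∃ f ∈ Fs 7, n - us f = 6 ∧ (r - ws f) % 14 = 4) ∨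
      (∃ f ∈ Fs 5, n - us f = 13 ∧ (r - ws f) % 14 = 11) ∨
      (∃ f ∈ Fs 2, 19 ≤ n - us f ∧ (r - ws f) % 14 = 1) := by
    decide +kernel
  exact this n (Finset.mem_Icc.mpr ⟨h0, h1⟩) r (Finset.mem_Ico.mpr ⟨h2, h3⟩) h4

theorem lat_covers (c : ℤ × ℤ) : ∃ q ∈ LatS, c - q.2 ∈ Fs q.1 := by
  obtain ⟨f, hf, h3, _⟩ := res0 (ws c % 14) (by omega) (by omega)
  refine ⟨(0, c - f), ⟨rfl, ?_⟩, ?_⟩
  · show ws (c - f) % 14 = 0
    rw [ws_sub]; omega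
  · show c - (c - f) ∈ Fs 0
    rw [sub_sub_cancel]; exact hf

theorem wal_covers (c : ℤ × ℤ) : ∃ q ∈ WalS, c - q.2 ∈ Fs q.1 := by
  have hmem : ∀ (g : Fin 8) (f : ℤ × ℤ), f ∈ Fs g →
      c - (((g, c - f) : Pl)).2 ∈ Fs (((g, c - f) : Pl)).1 := by
    intro g f hf
    show c - (c - f) ∈ Fs g
    rw [sub_sub_cancel]; exact hf
  have hrel : (ws c % 14 - 3 * us c) % 7 = 0 := by
    unfold ws us; omega
  by_cases h1 : us c < -6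
  · obtain ⟨f, hf, h3, h4⟩ := res0 (ws c % 14) (by omega) (by omega)
    refine ⟨(0, c - f), Or.inl ⟨rfl, ?_, ?_⟩, hmem 0 f hf⟩
    · show us (c - f) ≤ 0
      rw [us_sub]; omega
    · show ws (c - f) % 14 = 0
      rw [ws_sub]; omega
  by_cases h2 : 25 < us c
  · obtain ⟨f, hf, h3, h4⟩ := res2 (ws c % 14) (by omega) (by omega)
    refine ⟨(2, c - f), Or.inr (Or.inr (Or.inr ⟨rfl, ?_, ?_⟩)), hmem 2 f hf⟩
    · show 19 ≤ us (c - f)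
      rw [us_sub]; omega
    · show ws (c - f) % 14 = 1
      rw [ws_sub]; omega
  rcases mid (us c) (ws c % 14) (by omega) (by omega) (by omega) (by omega) hrel with
    ⟨f, hf, h, h'⟩ | ⟨f, hf, h, h'⟩ | ⟨f, hf, h, h'⟩ | ⟨f, hf, h, h'⟩
  · refine ⟨(0, c - f), Or.inl ⟨rfl, ?_, ?_⟩, hmem 0 f hf⟩
    · show us (c - f) ≤ 0
      rw [us_sub]; omega
    · show ws (c - f) % 14 = 0
      rw [ws_sub]; omega
  · refine ⟨(7, c - f), Or.inr (Or.inl ⟨rfl, ?_, ?_⟩), hmem 7 f hf⟩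
    · show us (c - f) = 6
      rw [us_sub]; omega
    · show ws (c - f) % 14 = 4
      rw [ws_sub]; omega
  · refine ⟨(5, c - f), Or.inr (Or.inr (Or.inl ⟨rfl, ?_, ?_⟩)), hmem 5 f hf⟩
    · show us (c - f) = 13
      rw [us_sub]; omega
    · show ws (c - f) % 14 = 11
      rw [ws_sub]; omega
  · refine ⟨(2, c - f), Or.inr (Or.inr (Or.inr ⟨rfl, ?_, ?_⟩)), hmem 2 f hf⟩
    · show 19 ≤ us (c - f)
      rw [us_sub]; omega
    · show ws (c - f) % 14 = 1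
      rw [ws_sub]; omega

theorem inj0 : ∀ f ∈ Fs 0, ∀ f' ∈ Fs 0, (ws f - ws f') % 14 = 0 → f = f' := by decide +kernel
theorem inj2 : ∀ f ∈ Fs 2, ∀ f' ∈ Fs 2, (ws f - ws f') % 14 = 0 → f = f' := by decide +kernel
theorem inj7 : ∀ f ∈ Fs 7, ∀ f' ∈ Fs 7, us f = us f' → (ws f - ws f') % 14 = 0 → f = f' := by
  decide +kernel
theorem inj5 : ∀ f ∈ Fs 5, ∀ f' ∈ Fs 5, us f = us f' → (ws f - ws f') % 14 = 0 → f = f' := by
  decide +kernel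
theorem dis07 : ∀ f ∈ Fs 0, ∀ f' ∈ Fs 7, 6 + us f' - us f ≤ 0 →
    (4 + ws f' - ws f) % 14 = 0 → False := by decide +kernel
theorem dis05 : ∀ f ∈ Fs 0, ∀ f' ∈ Fs 5, 13 + us f' - us f ≤ 0 →
    (11 + ws f' - ws f) % 14 = 0 → False := by decide +kernel
theorem dis75 : ∀ f ∈ Fs 7, ∀ f' ∈ Fs 5, 6 + us f = 13 + us f' →
    (4 + ws f - (11 + ws f')) % 14 = 0 → False := by decide +kernel
theorem dis27 : ∀ f ∈ Fs 2, ∀ f' ∈ Fs 7, 19 ≤ 6 + us f' - us f →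
    (4 + ws f' - ws f - 1) % 14 = 0 → False := by decide +kernel
theorem dis25 : ∀ f ∈ Fs 2, ∀ f' ∈ Fs 5, 19 ≤ 13 + us f' - us f →
    (11 + ws f' - ws f - 1) % 14 = 0 → False := by decide +kernel
theorem bd0 : ∀ f ∈ Fs 0, us f ≤ 4 := by decide +kernel
theorem bd2 : ∀ f ∈ Fs 2, -4 ≤ us f := by decide +kernel

theorem lat_tiling : TilingS LatS := by
  intro c
  obtain ⟨q, hq, hc⟩ := lat_covers c
  refine ⟨q, ⟨hq, hc⟩, ?_⟩
  rintro r ⟨⟨hr1, hr2⟩, hrc⟩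
  obtain ⟨hq1, hq2⟩ := hq
  rw [hq1] at hc
  rw [hr1] at hrc
  have e := inj0 _ hrc _ hc (by rw [ws_sub, ws_sub]; omega)
  exact Prod.ext (hr1.trans hq1.symm) (sub_right_inj.mp e)

theorem wal_tiling : TilingS WalS := by
  intro c
  obtain ⟨q, hq, hc⟩ := wal_covers c
  refine ⟨q, ⟨hq, hc⟩, ?_⟩
  rintro r ⟨hr, hrc⟩
  have fin : r.1 = q.1 → c - r.2 = c - q.2 → r = q := fun h1 h2 => Prod.ext h1 (sub_right_inj.mp h2)
  have eq1 : us (c - q.2) = us c - us q.2 := us_sub _ _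
  have eq2 : us (c - r.2) = us c - us r.2 := us_sub _ _
  have eq3 : ws (c - q.2) = ws c - ws q.2 := ws_sub _ _
  have eq4 : ws (c - r.2) = ws c - ws r.2 := ws_sub _ _
  rcases hq with ⟨q1, q2, q3⟩ | ⟨q1, q2, q3⟩ | ⟨q1, q2, q3⟩ | ⟨q1, q2, q3⟩ <;>
    rcases hr with ⟨r1, r2, r3⟩ | ⟨r1, r2, r3⟩ | ⟨r1, r2, r3⟩ | ⟨r1, r2, r3⟩ <;>
    rw [q1] at hc <;> rw [r1] at hrc
  · exact fin (r1.trans q1.symm) (inj0 _ hrc _ hc (by omega))
  · exact (dis07 _ hc _ hrc (by omega) (by omega)).elim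
  · exact (dis05 _ hc _ hrc (by omega) (by omega)).elim
  · have := bd0 _ hc; have := bd2 _ hrc; omega
  · exact (dis07 _ hrc _ hc (by omega) (by omega)).elim
  · exact fin (r1.trans q1.symm) (inj7 _ hrc _ hc (by omega) (by omega))
  · exact (dis75 _ hc _ hrc (by omega) (by omega)).elim
  · exact (dis27 _ hrc _ hc (by omega) (by omega)).elim
  · exact (dis05 _ hrc _ hc (by omega) (by omega)).elim
  · exact (dis75 _ hrc _ hc (by omega) (by omega)).elim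
  · exact fin (r1.trans q1.symm) (inj5 _ hrc _ hc (by omega) (by omega))
  · exact (dis25 _ hrc _ hc (by omega) (by omega)).elim
  · have := bd0 _ hrc; have := bd2 _ hc; omega
  · exact (dis27 _ hc _ hrc (by omega) (by omega)).elim
  · exact (dis25 _ hc _ hrc (by omega) (by omega)).elim
  · exact fin (r1.trans q1.symm) (inj2 _ hrc _ hc (by omega))

end AlefS.S
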